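import Pool.Agent.Lib.MP_33b3f9_ag.MG.Bx.Defs

/-!
Sizes.
-/

set_option autoImplicit false

noncomputable section

namespace MG.Bx

open Matrix M4 Pool.Agent.M4.Mx Pool.Agent.M4.Det M8.E3 MF.An

variable [Dim] {e : ℕ} {a b : MZ} {m n : ℕ} {τ : Mat}

omit [Dim] in
theorem size_lin {E G : Type} [NormedAddCommGroup E] [NormedSpace ℂ E] [FiniteDimensional ℂ E]
    [NormedAddCommGroup G] [NormedSpace ℂ G] (f : E →ₗ[ℂ] G) :
    ∃ C : ℝ, 0 ≤ C ∧ ∀ x, ‖f x‖ ≤ C * ‖x‖ :=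
  ⟨‖LinearMap.toContinuousLinearMap f‖, norm_nonneg _,
    fun x => (LinearMap.toContinuousLinearMap f).le_opNorm x⟩

theorem size_em (z : Mor e a b ℂ) (N : Matrix ν ν ℂ) : ∃ C : ℝ, 0 ≤ C ∧
    ∀ (p : Fin e → M8 ℂ) (X : ℝ), 0 ≤ X → (∀ s i j, ‖p s i j‖ ≤ X) →
      ∀ i j, ‖(N * z.em p) i j‖ ≤ C * X := by
  let f : (Fin e → ω → ω → ℂ) →ₗ[ℂ] ν → ν → ℂ :=
    { toFun := fun p i j => (N * z.em fun s => of (p s)) i j
      map_add' := fun p q => by
        have : (fun s => of ((p + q) s)) = (fun s => of (p s)) + fun s => of (q s) := rfl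
        funext i j
        rw [this, map_add, Matrix.mul_add]
        rfl
      map_smul' := fun c p => by
        have : (fun s => of ((c • p) s)) = c • fun s => of (p s) := rfl
        funext i j
        rw [this, map_smul, Matrix.mul_smul]
        rfl }
  obtain ⟨C, hC, h⟩ := size_lin f
  refine ⟨C, hC, fun p X hX hp i j => ?_⟩
  have h1 : ‖fun s i j => p s i j‖ ≤ X :=
    (pi_norm_le_iff_of_nonneg hX).2 fun s => (pi_norm_le_iff_of_nonneg hX).2 fun i =>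
      (pi_norm_le_iff_of_nonneg hX).2 fun j => hp s i j
  calc _ = ‖f (fun s i j => p s i j) i j‖ := rfl
    _ ≤ ‖f fun s i j => p s i j‖ := (norm_le_pi_norm _ j).trans (norm_le_pi_norm _ i)
    _ ≤ C * X := (h _).trans (mul_le_mul_of_nonneg_left h1 hC)

omit [Dim] in
theorem size_one (i j : ω) : ‖(1 : M8 ℂ) i j‖ ≤ 1 := by
  rw [one_apply]
  split_ifs <;> simp

omit [Dim] in
theorem size_mul {P Q : M8 ℂ} {Y Z : ℝ} (hP : ∀ i j, ‖P i j‖ ≤ Y) (hQ : ∀ i j, ‖Q i j‖ ≤ Z)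
    (i j : ω) : ‖(P * Q) i j‖ ≤ 8 * Y * Z := by
  rw [mul_apply]
  refine (norm_sum_le _ _).trans ((Finset.sum_le_card_nsmul _ _ (Y * Z) fun k _ => ?_).trans ?_)
  · rw [norm_mul]
    exact mul_le_mul (hP i k) (hQ k j) (norm_nonneg _) ((norm_nonneg _).trans (hP i k))
  · simp [mul_assoc]

omit [Dim] in
theorem size_psi (ψ : M2 ℂ →ₐ[ℂ] M8 ℂ) {H X : ℝ} (hψ : ∀ p q i j, ‖ψ (single p q 1) i j‖ ≤ H)
    {x : M2 ℂ} (hx : ∀ p q, ‖x p q‖ ≤ X) (i j : ω) : ‖ψ x i j‖ ≤ 4 * H * X := by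
  have h1 : x = ∑ r : Fin 2 × Fin 2, x r.1 r.2 • single r.1 r.2 (1 : ℂ) := by
    rw [Fintype.sum_prod_type]
    simpa using matrix_eq_sum_single x
  rw [h1, map_sum, Matrix.sum_apply]
  refine (norm_sum_le _ _).trans ((Finset.sum_le_card_nsmul _ _ (X * H) fun r _ => ?_).trans ?_)
  · rw [map_smul, Matrix.smul_apply, norm_smul]
    exact mul_le_mul (hx _ _) (hψ _ _ _ _) (norm_nonneg _) ((norm_nonneg _).trans (hx r.1 r.2))
  · simp only [Finset.card_univ, Fintype.card_prod, Fintype.card_fin, nsmul_eq_mul]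
    push_cast
    linarith

omit [Dim] in
theorem size_prod {Y : ℝ} (l : List (M8 ℂ)) (h : ∀ P ∈ l, ∀ i j, ‖P i j‖ ≤ Y) (i j : ω) :
    ‖l.prod i j‖ ≤ (8 * Y) ^ l.length := by
  induction l generalizing i j with
  | nil => simpa using size_one i j
  | cons P l ih =>
    rw [List.prod_cons, List.length_cons, pow_succ']
    exact size_mul (h P List.mem_cons_self) (ih fun Q hQ => h Q (List.mem_cons_of_mem _ hQ)) i j

omit [Dim] in
theorem size_near {Y : ℝ} (h0 : 0 ≤ Y) (h8 : 8 * Y ≤ 1) (l : List (M8 ℂ))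
    (h : ∀ P ∈ l, ∀ i j, ‖(P - 1) i j‖ ≤ Y) (i j : ω) :
    ‖(l.prod - 1) i j‖ ≤ 3 ^ l.length * Y := by
  induction l generalizing i j with
  | nil => simpa using h0
  | cons P l ih =>
    have h1 := h P List.mem_cons_self
    have h2 := ih fun Q hQ => h Q (List.mem_cons_of_mem _ hQ)
    have e1 : P * l.prod - 1 = (P - 1) * (l.prod - 1) + (P - 1) + (l.prod - 1) := by noncomm_ring
    have h3 : (1 : ℝ) ≤ 3 ^ l.length := one_le_pow₀ (by norm_num)
    have h4 : 0 ≤ 3 ^ l.length * Y := by positivity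
    rw [List.prod_cons, List.length_cons, pow_succ, e1, Matrix.add_apply, Matrix.add_apply]
    refine norm_add₃_le.trans ?_
    have h5 := size_mul h1 h2 i j
    have h6 := h1 i j
    have h7 := h2 i j
    nlinarith [mul_le_mul_of_nonneg_right h8 h4, mul_le_mul_of_nonneg_right h3 h0]

theorem Sc_le (z : Mor e a b ℂ) : ∃ C : ℝ, 0 ≤ C ∧ ∀ (c : Fin e → ℂ) (X : ℝ), 0 ≤ X →
    (∀ s, ‖c s‖ ≤ X) → ∀ i j, ‖(J ι ℂ * Sc z c) i j‖ ≤ C * X := by
  obtain ⟨C, hC, h⟩ := size_em z (J ι ℂ)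
  refine ⟨C, hC, fun c X hX hc => h _ X hX fun s i j => ?_⟩
  rw [Matrix.smul_apply, norm_smul]
  simpa using mul_le_mul (hc s) (size_one i j) (norm_nonneg _) hX

theorem Psi_le (z : Mor e a b ℂ) : ∃ k : ℕ, ∀ (H : ℝ) (d : ℕ)
    (ψ : Fin e → Fin d → M2 ℂ →ₐ[ℂ] M8 ℂ), 2 ≤ H → Cj ψ H →
    ∀ (X : ℝ) (x : Fin e → Fin d → M2 ℂ), 0 ≤ X → (∀ s t p q, ‖x s t p q‖ ≤ X) →
      ∀ i j, ‖Psi z ψ x i j‖ ≤ H ^ k * X ^ d := by
  obtain ⟨C, hC, h⟩ := size_em z 1
  obtain ⟨k, hk⟩ := exists_pow (C * 32 ^ 3)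
  refine ⟨k + 3, fun H d ψ hH hψ X x hX hx i j => ?_⟩
  have hH0 : 0 ≤ H := by linarith
  have h1 := h (fun s => (List.ofFn fun t => ψ s t (x s t)).prod) ((8 * (4 * H * X)) ^ d)
    (by positivity) (fun s i j => by
      have := size_prod (Y := 4 * H * X) (List.ofFn fun t => ψ s t (x s t))
        (List.forall_mem_ofFn_iff.2 fun t => size_psi _ (hψ.le s t) (hx s t)) i j
      rwa [List.length_ofFn] at this) i j
  rw [Matrix.one_mul] at h1
  have h2 : (32 * H) ^ d ≤ (32 * H) ^ 3 := pow_le_pow_right₀ (by linarith) hψ.d3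
  calc _ ≤ C * (8 * (4 * H * X)) ^ d := h1
    _ = C * (32 * H) ^ d * X ^ d := by rw [mul_assoc C, ← mul_pow]; ring
    _ ≤ C * (32 * H) ^ 3 * X ^ d := by gcongr
    _ = C * 32 ^ 3 * H ^ 3 * X ^ d := by ring
    _ ≤ H ^ k * H ^ 3 * X ^ d := by gcongr; exact hk H hH
    _ = _ := by rw [pow_add]

theorem Psi_near (z : Mor e a b ℂ) : ∃ k : ℕ, ∀ (H : ℝ) (d : ℕ)
    (ψ : Fin e → Fin d → M2 ℂ →ₐ[ℂ] M8 ℂ), 2 ≤ H → Cj ψ H →
    ∀ (X : ℝ) (y : Fin e → Fin d → M2 ℂ), 0 ≤ X → H ^ k * X ≤ 1 → (∀ s t p q, ‖y s t p q‖ ≤ X) →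
      ∀ i j, ‖(Psi z ψ (1 + y) - 1) i j‖ ≤ H ^ k * X := by
  obtain ⟨C, hC, h⟩ := size_em z 1
  obtain ⟨k, hk⟩ := exists_pow (108 * C + 32)
  refine ⟨k + 1, fun H d ψ hH hψ X y hX h1 hy i j => ?_⟩
  have hH0 : 0 ≤ H := by linarith
  have hHX : 0 ≤ H * X := by positivity
  have h2 : (108 * C + 32) * (H * X) ≤ H ^ (k + 1) * X := by
    rw [pow_succ, mul_assoc]
    exact mul_le_mul_of_nonneg_right (hk H hH) hHX
  have h3 : 0 ≤ C * (H * X) := by positivity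
  have h4 := h ((fun s => (List.ofFn fun t => ψ s t ((1 + y) s t)).prod) - 1) (27 * (4 * H * X))
    (by positivity) (fun s i j => by
      have := size_near (Y := 4 * H * X) (by positivity) (by linarith)
        (List.ofFn fun t => ψ s t ((1 + y) s t))
        (List.forall_mem_ofFn_iff.2 fun t => by
          have e1 : ψ s t ((1 + y) s t) - 1 = ψ s t (y s t) := by
            rw [Pi.add_apply, Pi.add_apply, Pi.one_apply, Pi.one_apply, map_add, map_one,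
              add_sub_cancel_left]
          rw [e1]
          exact size_psi _ (hψ.le s t) (hy s t)) i j
      rw [List.length_ofFn] at this
      refine this.trans (mul_le_mul_of_nonneg_right ?_ (by positivity))
      exact (pow_le_pow_right₀ (by norm_num) hψ.d3).trans (by norm_num)) i j
  rw [Matrix.one_mul, map_sub, map_one] at h4
  refine h4.trans ?_
  linarith

theorem el_le {L : Type} [Field L] {l₁ : ℕ} {z : MorD e a b ℂ} {F : Frs e a b L l₁}
    {LM : Finset (GP L l₁)} {H : ℕ} (A : SA z F LM H) (c : IA e A.d → ℤ) {X : ℝ}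
    (h : ∀ q, |(c q : ℝ)| ≤ X) (s : Fin e) (t : Fin A.d) (p q : Fin 2) :
    ‖el A c s t p q‖ ≤ 12 * e * H * X := by
  have hX : 0 ≤ X := (abs_nonneg _).trans (h (s, t, p, q))
  have h3 : (A.d : ℝ) ≤ 3 := by exact_mod_cast A.d3
  have e1 : el A c s t p q = ∑ j, c j • A.B j s t p q := by
    simp only [el, Finset.sum_apply, Matrix.sum_apply, Pi.smul_apply, Matrix.smul_apply]
  rw [e1]
  refine (norm_sum_le _ _).trans ((Finset.sum_le_card_nsmul _ _ (X * H) fun j _ => ?_).trans ?_)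
  · rw [zsmul_eq_mul, norm_mul, Complex.norm_intCast]
    exact mul_le_mul (h j) (A.B_le j s t p q) (norm_nonneg _) hX
  · simp only [Finset.card_univ, Fintype.card_prod, Fintype.card_fin, nsmul_eq_mul]
    push_cast
    have : 0 ≤ (e : ℝ) * (X * H) := by positivity
    nlinarith [mul_le_mul_of_nonneg_right h3 this]

end MG.Bx
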