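import Pool.Agent.Lib.MP_33b3f9_ag.MG.Bx.Psi
import Pool.Agent.Lib.MP_33b3f9_ag.MG.Bx.Size

/-!
Bounds for a short nonsingular vector.
-/

set_option autoImplicit false

noncomputable section

namespace MG.Bx

open Matrix M4 Pool.Agent.M4.Mx Pool.Agent.M4.Det M8.E3 MF.An

variable [Dim] {e : ℕ} {a b : MZ} {m n : ℕ} {τ : Mat}

variable {K : IntermediateField ℚ ℂ} {r : Rep K} {L : Type} [Field L] {l₁ : ℕ}

omit [Dim] in
theorem bd_prod {κ : Type} [Fintype κ] {f : κ → ℝ} {T : ℝ} (h0 : ∀ i, 0 ≤ f i) (h : ∀ i, f i ≤ T)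
    (i : κ) : (∏ i, f i) * T ≤ f i * T ^ Fintype.card κ := by
  classical
  have hT := (h0 i).trans (h i)
  rw [← Finset.mul_prod_erase _ _ (Finset.mem_univ i), mul_assoc, ← Finset.card_univ,
    ← Finset.card_erase_add_one (Finset.mem_univ i), pow_succ, ← Finset.prod_const]
  exact mul_le_mul_of_nonneg_left (mul_le_mul_of_nonneg_right
    (Finset.prod_le_prod (fun j _ => h0 j) fun j _ => h j) hT) (h0 i)

omit [Dim] in
theorem bd_det {x : M2 ℂ} {X : ℝ} (h : ∀ p q, ‖x p q‖ ≤ X) : ‖x.det‖ ≤ 2 * X ^ 2 := by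
  have h0 := (norm_nonneg _).trans (h 0 0)
  rw [det_fin_two, two_mul, sq]
  refine (norm_sub_le _ _).trans (add_le_add ?_ ?_) <;> rw [norm_mul] <;>
    exact mul_le_mul (h _ _) (h _ _) (norm_nonneg _) h0

theorem bd_sim {g : MZ} {M : ℕ} (h : Sim (zr g) M) :
    (zM ℂ g)ᵀ * J ι ℂ * zM ℂ g = (M : ℂ) • J ι ℂ := by
  have h1 : gᵀ * J ι ℤ * g = (M : ℤ) • J ι ℤ := zM_injective ℝ <| by
    rw [zM_mul, zM_mul, zM_smul, zM_J, zM_tr, Int.cast_natCast]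
    exact M4.sim_iff.1 h
  have h2 := congrArg (zM ℂ) h1
  rwa [zM_mul, zM_mul, zM_smul, zM_J, zM_tr, Int.cast_natCast] at h2

theorem bd_form {z : MorD e a b ℂ} {F : Frs e a b L l₁} {LM : Finset (GP L l₁)} {H : ℕ}
    (A : SA z F LM H) {g : MZ} {M : ℕ} {c : IA e A.d → ℤ} {R : MZ} (hM : 0 < M)
    (h : Sim (zr g) M) (hR : (M : ℤ) • R = g * A.Nm c) :
    zM ℂ (Rᵀ * J ι ℤ * R) =
      J ι ℂ * Sc z.toMor fun s => (A.m : ℂ) ^ 2 / M * ∏ t, (el A c s t).det := by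
  have h0 : (M : ℂ) ≠ 0 := Nat.cast_ne_zero.2 hM.ne'
  have h1 := congrArg (zM ℂ) hR
  rw [zM_mul, zM_smul, Int.cast_natCast, nm_eq, Matrix.mul_smul] at h1
  have h2 : zM ℂ R = ((A.m : ℂ) / M) • (zM ℂ g * Psi z.toMor A.ψ (el A c)) := by
    rw [div_eq_inv_mul, mul_smul, ← h1, inv_smul_smul₀ h0]
  have h3 : (zM ℂ g * Psi z.toMor A.ψ (el A c))ᵀ * J ι ℂ * (zM ℂ g * Psi z.toMor A.ψ (el A c)) =
      (M : ℂ) • (J ι ℂ * Sc z.toMor fun s => ∏ t, (el A c s t).det) := by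
    rw [← Psi_form z.toMor (cj A), transpose_mul, ← Matrix.smul_mul, ← Matrix.mul_smul, ← bd_sim h]
    simp only [Matrix.mul_assoc]
  rw [zM_mul, zM_mul, zM_J, zM_tr, h2, transpose_smul, Matrix.smul_mul, Matrix.smul_mul,
    Matrix.mul_smul, h3, smul_smul, smul_smul, ← Matrix.mul_smul, Sc_smul]
  refine congrArg (fun u => J ι ℂ * Sc z.toMor u) (funext fun s => ?_)
  rw [Pi.smul_apply, smul_eq_mul]
  field_simp

theorem gv_bd (z : MorD e a b ℂ) (j : ℕ) : ∃ k : ℕ,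
    ∀ (F : Frs e a b L l₁) (LM : Finset (GP L l₁)) (H : ℕ) (A : SA z F LM H) (g : MZ) (M : ℕ)
      (ρ : ℝ) (c : IA e A.d → ℤ) (R : MZ), 2 ≤ H → 0 < M → Sim (zr g) M → 1 ≤ ρ →
      ρ ^ (2 * A.d) = M → Gv A g M ρ ((H : ℝ) ^ j) c R →
      (∀ i i', ((Rᵀ * J ι ℤ * R) i i').natAbs ≤ H ^ k) ∧ R.det ≠ 0 ∧ R.det.natAbs ≤ H ^ k ∧
        ∀ s t, ρ ^ 2 ≤ (H : ℝ) ^ k * ‖(el A c s t).det‖ := by
  obtain ⟨C, hC, hC'⟩ := Sc_le z.toMor
  obtain ⟨k1, hk1⟩ := exists_pow C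
  obtain ⟨k0, hk0⟩ := exists_pow (288 * (e : ℝ) ^ 2)
  obtain ⟨u, hu⟩ : ∃ u, u = k0 + 2 + 2 * j := ⟨_, rfl⟩
  obtain ⟨v, hv⟩ : ∃ v, v = 2 + u * 3 := ⟨_, rfl⟩
  refine ⟨k1 + v + v * (16 * e), fun F LM H A g M ρ c R hH hM hg hρ hρM G => ?_⟩
  have hH2 : (2 : ℝ) ≤ H := by exact_mod_cast hH
  have hH1 : (1 : ℝ) ≤ H := by linarith
  have hM0 : (0 : ℝ) < M := by exact_mod_cast hM
  have hU : 1 ≤ (H : ℝ) ^ u := one_le_pow₀ hH1
  have hV : 1 ≤ (H : ℝ) ^ v := one_le_pow₀ hH1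
  have h1 := bd_form A hM hg G.eq
  obtain ⟨μ, hμ⟩ : ∃ μ : Fin e → ℂ,
    μ = fun s => (A.m : ℂ) ^ 2 / M * ∏ t, (el A c s t).det := ⟨_, rfl⟩
  rw [← hμ] at h1
  have h2 : ∀ s t, ‖(el A c s t).det‖ ≤ (H : ℝ) ^ u * ρ ^ 2 := fun s t => by
    refine (bd_det (el_le A c G.le s t)).trans ?_
    have h3 := mul_le_mul_of_nonneg_right (hk0 H hH2)
      (by positivity : 0 ≤ (H : ℝ) ^ 2 * (H : ℝ) ^ (2 * j) * ρ ^ 2)
    refine (le_of_eq ?_).trans (h3.trans_eq ?_)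
    · ring
    · rw [hu]
      ring
  have h3 : ∀ s, ‖μ s‖ = (A.m : ℝ) ^ 2 / M * ∏ t, ‖(el A c s t).det‖ := fun s => by
    rw [hμ, norm_mul, norm_div, norm_pow, norm_prod, Complex.norm_natCast, Complex.norm_natCast]
  have h4 : ∀ s t, ‖μ s‖ * ((H : ℝ) ^ u * ρ ^ 2) ≤ (H : ℝ) ^ v * ‖(el A c s t).det‖ :=
    fun s t => by
      have h5 := bd_prod (fun t => norm_nonneg _) (h2 s) t
      rw [Fintype.card_fin, mul_pow, ← pow_mul ρ, hρM, ← pow_mul] at h5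
      have h6 : (A.m : ℝ) ^ 2 * (H : ℝ) ^ (u * A.d) ≤ (H : ℝ) ^ v := by
        rw [hv, pow_add]
        exact mul_le_mul (pow_le_pow_left₀ (Nat.cast_nonneg _) (by exact_mod_cast A.m_le) 2)
          (pow_le_pow_right₀ hH1 (Nat.mul_le_mul_left u A.d3)) (by positivity) (by positivity)
      rw [h3, mul_assoc]
      refine (mul_le_mul_of_nonneg_left h5 (by positivity)).trans
        ((le_of_eq ?_).trans (mul_le_mul_of_nonneg_right h6 (norm_nonneg _)))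
      field_simp
  have h5 : ∀ s, ‖μ s‖ ≤ (H : ℝ) ^ v := fun s =>
    le_of_mul_le_mul_right ((h4 s ⟨0, A.d1⟩).trans
      (mul_le_mul_of_nonneg_left (h2 s _) (by positivity))) (by positivity)
  have h6 : ((R.det : ℤ) : ℂ) ^ 2 = ∏ s, μ s ^ 16 := by
    have h7 := congrArg Matrix.det h1
    rw [zM_mul, zM_mul, zM_J, zM_tr, det_mul, det_mul, det_mul, det_transpose, Sc_det,
      mul_comm _ (J ι ℂ).det, mul_assoc, (isUnit_det_J ι ℂ).mul_right_inj] at h7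
    rw [← h7, sq, Int.cast_det]
  have h7 : R.det ≠ 0 := fun h => by
    rw [h, Int.cast_zero, zero_pow two_ne_zero, eq_comm, Finset.prod_eq_zero_iff] at h6
    obtain ⟨s, -, hs⟩ := h6
    rw [hμ] at hs
    exact mul_ne_zero (div_ne_zero (pow_ne_zero _ (Nat.cast_ne_zero.2 A.m0.ne'))
      (Nat.cast_ne_zero.2 hM.ne')) (Finset.prod_ne_zero_iff.2 fun t _ => G.ne s t)
      (pow_eq_zero_iff (by norm_num) |>.1 hs)
  have h8 : ((R.det.natAbs : ℕ) : ℝ) ^ 2 = (∏ s, ‖μ s‖) ^ 16 := by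
    have h9 := congrArg norm h6
    rwa [norm_pow, Finset.prod_pow, norm_pow, norm_prod, Complex.norm_intCast, ← Int.cast_abs,
      ← Nat.cast_natAbs] at h9
  have h9 : (1 : ℝ) ≤ R.det.natAbs := by exact_mod_cast Int.natAbs_pos.2 h7
  have h10 : ∏ s, ‖μ s‖ ≤ ((H : ℝ) ^ v) ^ e := by
    have := Finset.prod_le_prod (s := Finset.univ) (fun s _ => norm_nonneg (μ s)) fun s _ => h5 s
    rwa [Finset.prod_const, Finset.card_univ, Fintype.card_fin] at this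
  have h11 : 0 ≤ ∏ s, ‖μ s‖ := Finset.prod_nonneg fun s _ => norm_nonneg _
  refine ⟨fun i i' => ?_, h7, ?_, fun s t => ?_⟩
  · have h12 : ‖(((Rᵀ * J ι ℤ * R) i i' : ℤ) : ℂ)‖ ≤ C * (H : ℝ) ^ v :=
      (congrArg norm (congrFun (congrFun h1 i) i')).trans_le (hC' μ _ (by positivity) h5 i i')
    rw [Complex.norm_intCast, ← Int.cast_abs, ← Nat.cast_natAbs] at h12
    have h13 := h12.trans (mul_le_mul_of_nonneg_right (hk1 H hH2) (by positivity))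
    rw [← pow_add] at h13
    exact_mod_cast h13.trans (pow_le_pow_right₀ hH1 (Nat.le_add_right _ _))
  · have h12 := (le_self_pow₀ h9 two_ne_zero).trans (h8.trans_le (pow_le_pow_left₀ h11 h10 16))
    rw [← pow_mul, ← pow_mul, mul_comm e] at h12
    exact_mod_cast h12.trans (pow_le_pow_right₀ hH1 (Nat.le_add_left _ _))
  · have h12 : 1 ≤ ∏ s, ‖μ s‖ :=
      (one_le_pow_iff_of_nonneg h11 (by norm_num)).1 (h8 ▸ one_le_pow₀ h9)
    have h13 := (one_le_mul_of_one_le_of_one_le h12 hV).trans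
      (bd_prod (fun s => norm_nonneg (μ s)) h5 s)
    rw [Fintype.card_fin, ← pow_mul] at h13
    have h14 : (H : ℝ) ^ (v * e) * (H : ℝ) ^ v ≤ (H : ℝ) ^ (k1 + v + v * (16 * e)) := by
      rw [← pow_add]
      have := Nat.mul_le_mul_left v (Nat.le_mul_of_pos_left e (by norm_num : 0 < 16))
      exact pow_le_pow_right₀ hH1 (by omega)
    calc ρ ^ 2 ≤ ‖μ s‖ * (H : ℝ) ^ (v * e) * ((H : ℝ) ^ u * ρ ^ 2) :=
          (le_mul_of_one_le_left (by positivity) hU).trans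
            (le_mul_of_one_le_left (by positivity) h13)
      _ = (H : ℝ) ^ (v * e) * (‖μ s‖ * ((H : ℝ) ^ u * ρ ^ 2)) := by ring
      _ ≤ (H : ℝ) ^ (v * e) * ((H : ℝ) ^ v * ‖(el A c s t).det‖) :=
          mul_le_mul_of_nonneg_left (h4 s t) (by positivity)
      _ ≤ _ := by
          rw [← mul_assoc]
          exact mul_le_mul_of_nonneg_right h14 (norm_nonneg _)

end MG.Bx
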