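import Pool.Agent.Lib.MP_33b3f9_ag.M4.DetC
import Pool.Agent.Lib.MP_33b3f9_ag.M4.F.Det
import Pool.Agent.Lib.MP_33b3f9_ag.Rx.Sch
import Pool.Agent.Lib.MP_940f24_an.Holo

/-! The archimedean determinant method. -/

set_option autoImplicit false

noncomputable section

namespace MG.Bx

open Pool.Agent.M4.Det Finset

variable {S ι σ : Type} [Fintype S] [Fintype ι] [Fintype σ]

theorem bp_norm (K : IntermediateField ℚ ℂ) [FiniteDimensional ℚ K] {z : ℂ} (hK : z ∈ K)
    (hz : IsIntegral ℤ z) (h0 : z ≠ 0) {B : ℝ} (hB1 : 1 ≤ B) (hB : ∀ φ : ℂ →+* ℂ, ‖φ z‖ ≤ B) :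
    1 ≤ ‖z‖ * B ^ Module.finrank ℚ K := by
  classical
  let x : K := ⟨z, hK⟩
  have hx : IsIntegral ℤ x := (isIntegral_algHom_iff (K.val.restrictScalars ℤ)
    K.val.injective).1 hz
  obtain ⟨n, hn⟩ := IsIntegrallyClosed.isIntegral_iff.1 (Algebra.isIntegral_norm ℚ hx)
  have hp := Algebra.norm_eq_prod_embeddings ℚ ℂ x
  rw [← hn] at hp
  have hp' : (n : ℂ) = ∏ τ : K →ₐ[ℚ] ℂ, τ x := by simpa using hp
  have hn0 : n ≠ 0 := fun h => by
    rw [h, Int.cast_zero, eq_comm, prod_eq_zero_iff] at hp'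
    obtain ⟨τ, -, hτ⟩ := hp'
    exact h0 (congrArg Subtype.val ((map_eq_zero τ).1 hτ))
  have h1 : (1 : ℝ) ≤ ‖(n : ℂ)‖ := by
    rw [Complex.norm_intCast]
    exact_mod_cast Int.one_le_abs hn0
  refine h1.trans ?_
  rw [hp', norm_prod, ← mul_prod_erase univ (fun τ : K →ₐ[ℚ] ℂ => ‖τ x‖) (mem_univ K.val)]
  refine mul_le_mul_of_nonneg_left ?_ (norm_nonneg _)
  calc _ ≤ ∏ _τ ∈ univ.erase K.val, B := prod_le_prod (fun _ _ => norm_nonneg _) fun τ _ => by
        obtain ⟨ρ, hρ⟩ := exists_ext K τ.toRingHom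
        exact (congrArg norm (hρ x)).symm.le.trans (hB ρ.toRingHom)
    _ ≤ _ := by
        rw [prod_const, ← AlgHom.card ℚ K ℂ, ← card_univ]
        exact pow_le_pow_right₀ hB1 card_erase_le

omit [Fintype S] in
open Classical in
theorem bp_count (Γ : Subgroup (Equiv.Perm S)) [Fintype Γ] (s : S) (D : Set S)
    (h : 8 * {t | t ∈ MulAction.orbit Γ s ∧ t ∈ D}.ncard ≤ (MulAction.orbit Γ s).ncard) :
    8 * (univ.filter fun g : Γ => g • s ∈ D).card ≤ Fintype.card Γ := by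
  have hf : (MulAction.orbit Γ s).Finite := Set.finite_range _
  have := hf.fintype
  have h1 : (univ.filter fun g : Γ => g • s ∈ D).card ≤ Fintype.card (MulAction.stabilizer Γ s) *
      ((univ.filter fun g : Γ => g • s ∈ D).image fun g => g • s).card := by
    refine card_le_mul_card_image _ _ fun t ht => ?_
    obtain ⟨g0, -, rfl⟩ := mem_image.1 ht
    rw [← card_univ]
    refine card_le_card_of_injOn (fun g => if hg : g • s = g0 • s then
      ⟨g0⁻¹ * g, by rw [MulAction.mem_stabilizer_iff, mul_smul, hg, inv_smul_smul]⟩ else 1)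
      (fun _ _ => mem_coe.2 (mem_univ _)) fun g hg g' hg' e => ?_
    have e1 := (mem_filter.1 (mem_coe.1 hg)).2
    have e2 := (mem_filter.1 (mem_coe.1 hg')).2
    simp only [dif_pos e1, dif_pos e2] at e
    exact mul_left_cancel (congrArg Subtype.val e)
  have h2 : ((univ.filter fun g : Γ => g • s ∈ D).image fun g => g • s).card =
      {t | t ∈ MulAction.orbit Γ s ∧ t ∈ D}.ncard := by
    rw [← Set.ncard_coe_finset]
    congr 1
    ext t
    simp only [coe_image, coe_filter, mem_univ, true_and, Set.mem_image, Set.mem_ofPred_eq,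
      MulAction.mem_orbit_iff]
    exact ⟨fun ⟨g, h1, h2⟩ => ⟨⟨g, h2⟩, h2 ▸ h1⟩, fun ⟨⟨g, h1⟩, h2⟩ => ⟨g, h1 ▸ h2, h1⟩⟩
  rw [← MulAction.card_orbit_mul_card_stabilizer_eq_card_group Γ s,
    ← Nat.card_eq_fintype_card (α := MulAction.orbit Γ s), Nat.card_coe_set_eq]
  rw [h2] at h1
  nlinarith [Nat.mul_le_mul_left (Fintype.card (MulAction.stabilizer Γ s)) h]

theorem bp_mono {x : ι → ℂ} {B : ℝ} (hB : ∀ i, ‖x i‖ ≤ B) {k : ℕ}
    (m : {m : ι →₀ ℕ // ∑ i, m i = k}) : ‖∏ i, x i ^ m.1 i‖ ≤ B ^ k := by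
  rw [norm_prod, (congrArg (B ^ ·) m.2).symm, ← prod_pow_eq_pow_sum]
  exact prod_le_prod (fun _ _ => norm_nonneg _) fun l _ => by
    rw [norm_pow]; exact pow_le_pow_left₀ (norm_nonneg _) (hB _) _

omit [Fintype ι] in
theorem bp_diff {O : Set (σ → ℂ)} (u : Finset ι) {f : ι → (σ → ℂ) → ℂ}
    (h : ∀ i, DifferentiableOn ℂ (f i) O) : DifferentiableOn ℂ (fun w => ∏ i ∈ u, f i w) O := by
  classical
  induction u using Finset.induction_on with
  | empty => simp
  | insert x u hx ih =>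
    simp only [prod_insert hx]
    exact (h x).mul ih

omit [Fintype S] in
theorem bp_det {y : S → ι → ℂ} {B : ℝ} (hB0 : 0 ≤ B) (hB : ∀ s i, ‖y s i‖ ≤ B) (D : Set S)
    {Bx : ℕ} (cl : S → Fin Bx) (F : Fin Bx → (σ → ℂ) → ι → ℂ)
    (hF : ∀ c, DifferentiableOn ℂ (F c) (Metric.ball 0 1))
    (hpt : ∀ s ∉ D, ∃ w ∈ Metric.ball (0 : σ → ℂ) (1 / 2), ∃ c : ℂ, y s = c • F (cl s) w ∧
      ∀ w' ∈ Metric.ball (0 : σ → ℂ) 1, ∀ i, ‖c * F (cl s) w' i‖ ≤ B)
    {k R : ℕ} (N : ℕ) (m : Fin R → {m : ι →₀ ℕ // ∑ i, m i = k}) (s : Fin R → S)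
    (U : Finset (Fin R)) (hU : ∀ i, i ∉ U → s i ∉ D) :
    ‖(Matrix.of fun i j => mono y (m j).1 (s i)).det‖ ≤ ((R : ℝ) ^ 2 * B ^ k) ^ R *
      ((1 / 2) ^ (N + 1)) ^ (R - (U.card + Bx * (N + 1) ^ Fintype.card σ)) := by
  classical
  let G : Fin Bx → (Fin R → ℂ) →ₗ[ℂ] ((σ → ℂ) → ℂ) := fun c =>
    Fintype.linearCombination ℂ fun j w => ∏ i, F c w i ^ (m j).1 i
  have hG : ∀ c κ w, G c κ w = ∑ j, κ j * ∏ i, F c w i ^ (m j).1 i := fun c κ w => by
    simp only [G, Fintype.linearCombination_apply, Finset.sum_apply, Pi.smul_apply, smul_eq_mul]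
  have hGd : ∀ c κ, DifferentiableOn ℂ (G c κ) (Metric.ball 0 1) := fun c κ => by
    rw [show G c κ = fun w => ∑ j, κ j * ∏ i, F c w i ^ (m j).1 i from funext (hG c κ)]
    refine DifferentiableOn.fun_sum fun j _ => DifferentiableOn.const_mul ?_ _
    exact bp_diff univ (f := fun i w => F c w i ^ (m j).1 i) fun i =>
      (differentiableOn_pi.1 (hF c) i).pow _
  let Q2 : Submodule ℂ (Fin R → ℂ) := ⨅ c, (M4.Rx.OO σ (N + 1)).comap (G c)
  let L : (Fin R → ℂ) →ₗ[ℂ] (U → ℂ) :=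
    Fintype.linearCombination ℂ fun j (i : U) => mono y (m j).1 (s i)
  have h1 := (M4.Rx.dim_le Q2.mkQ G (N + 1) (fun c κ =>
    Pool.Agent.Lib.MP_940f24_an.analyticOnNhd_of_differentiableOn Metric.isOpen_ball (hGd c κ) 0
      (Metric.mem_ball_self one_pos)) fun κ hκ =>
    (Submodule.Quotient.mk_eq_zero _).2 ((Submodule.mem_iInf _).2 hκ)).2
  rw [Submodule.range_mkQ, finrank_top, Fintype.card_fin] at h1
  have h2 := Q2.finrank_quotient_add_finrank
  have h3 := L.finrank_range_add_finrank_ker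
  have h4 : Module.finrank ℂ (LinearMap.range L) ≤ U.card :=
    (Submodule.finrank_le _).trans (by simp)
  have h5 := Submodule.finrank_sup_add_finrank_inf_eq Q2 (LinearMap.ker L)
  have h6 := Submodule.finrank_le (Q2 ⊔ LinearMap.ker L)
  rw [Module.finrank_fintype_fun_eq_card, Fintype.card_fin] at h2 h3 h6
  refine M4.F.det_le _ (by positivity) (by positivity) (pow_le_one₀ (by norm_num) (by norm_num))
    (fun i j => bp_mono (hB _) _) (Q2 ⊓ LinearMap.ker L) (by omega) fun κ hκ i => ?_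
  by_cases hi : i ∈ U
  · have h7 := congrFun (LinearMap.mem_ker.1 hκ.2) ⟨i, hi⟩
    simp only [L, Fintype.linearCombination_apply, Finset.sum_apply, Pi.smul_apply, smul_eq_mul,
      Pi.zero_apply] at h7
    simp only [Matrix.of_apply]
    rw [h7, norm_zero]
    exact mul_nonneg (mul_nonneg (by positivity) (sum_nonneg fun _ _ => norm_nonneg _))
      (by positivity)
  · obtain ⟨w, hw, c, hc, hb⟩ := hpt _ (hU i hi)
    have e : ∀ w', (c ^ k • G (cl (s i)) κ) w' =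
        ∑ j, κ j * ∏ l, (c * F (cl (s i)) w' l) ^ (m j).1 l := fun w' => by
      rw [Pi.smul_apply, smul_eq_mul, hG, mul_sum]
      refine sum_congr rfl fun j _ => ?_
      simp only [mul_pow, prod_mul_distrib, prod_pow_eq_pow_sum, (m j).2]
      ring
    have h7 := M4.Rx.schwarz (g := c ^ k • G (cl (s i)) κ) (R := 1) (B := B ^ k * ∑ j, ‖κ j‖)
      (N := N) ((hGd _ κ).const_smul _) (fun w' hw' => by
        rw [e, mul_sum]
        refine (norm_sum_le _ _).trans (sum_le_sum fun j _ => ?_)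
        rw [norm_mul, mul_comm]
        exact mul_le_mul_of_nonneg_right (bp_mono (hb w' hw') _) (norm_nonneg _))
      (Submodule.smul_mem _ _ ((Submodule.mem_iInf _).1 hκ.1 _)) hw
    rw [e] at h7
    simpa only [Matrix.of_apply, mono, hc, Pi.smul_apply, smul_eq_mul] using h7

open Classical in
/-- The archimedean determinant method. -/
theorem bp (K : IntermediateField ℚ ℂ) [FiniteDimensional ℚ K]
    (a : (ℂ ≃ₐ[K] ℂ) →* Equiv.Perm S) (y : S → ι → ℂ) (hy : ∀ σ s i, σ (y s i) = y (a σ s) i)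
    (hi : ∀ s i, IsIntegral ℤ (y s i)) {B : ℝ} (hB1 : 2 ≤ B)
    (hB : ∀ (φ : ℂ →+* ℂ) s i, ‖φ (y s i)‖ ≤ B) (D : Set S)
    (hD : ∀ s, 8 * {t | t ∈ Set.range (fun σ => a σ s) ∧ t ∈ D}.ncard ≤
      (Set.range fun σ => a σ s).ncard)
    {Bx : ℕ} (cl : S → Fin Bx) (F : Fin Bx → (σ → ℂ) → ι → ℂ)
    (hF : ∀ c, DifferentiableOn ℂ (F c) (Metric.ball 0 1))
    (hpt : ∀ s ∉ D, ∃ w ∈ Metric.ball (0 : σ → ℂ) (1 / 2), ∃ c : ℂ, y s = c • F (cl s) w ∧
      ∀ w' ∈ Metric.ball (0 : σ → ℂ) 1, ∀ i, ‖c * F (cl s) w' i‖ ≤ B)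
    (k T : ℕ) (hT : 8 * Module.finrank ℚ K * (2 * Real.log (Fintype.card S) + k * Real.log B) < T) :
    hil y k ≤ 4 * Bx * T ^ Fintype.card σ := by
  obtain ⟨R, hR0, m, s, hΔ⟩ : ∃ R, hil y k = R ∧ ∃ (m : Fin R → {m : ι →₀ ℕ // ∑ i, m i = k})
      (s : Fin R → S), (Matrix.of fun i j => mono y (m j).1 (s i)).det ≠ 0 :=
    ⟨_, rfl, exists_minor fun m : {m : ι →₀ ℕ // ∑ i, m i = k} => mono y m.1⟩
  have hRS := hil_le_card y k
  rw [hR0] at hRS ⊢
  clear hR0
  by_contra hc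
  rw [not_le] at hc
  have hR : 0 < R := by omega
  have hR' : (1 : ℝ) ≤ R := by exact_mod_cast hR
  have hB' : (1 : ℝ) ≤ B := by linarith
  have hlB := Real.log_nonneg hB'
  have hlR := Real.log_nonneg hR'
  have hRS' : Real.log R ≤ Real.log (Fintype.card S) :=
    Real.log_le_log (by linarith) (by exact_mod_cast hRS)
  have hL : 0 ≤ 2 * Real.log R + k * Real.log B := by positivity
  have hT' : 8 * Module.finrank ℚ K * (2 * Real.log R + k * Real.log B) < T :=
    lt_of_le_of_lt (by gcongr) hT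
  have hT0 : (0 : ℝ) < T := lt_of_le_of_lt (by positivity) hT'
  obtain ⟨N, rfl⟩ : ∃ N, T = N + 1 := ⟨T - 1, by
    have : 0 < T := by exact_mod_cast hT0
    omega⟩
  let Γ := a.range
  let Dt : Equiv.Perm S → ℂ := fun g => (Matrix.of fun i j => mono y (m j).1 (g (s i))).det
  have hDt : ∀ (τ : ℂ ≃ₐ[K] ℂ) g, τ (Dt g) = Dt (a τ * g) := fun τ g => by
    refine (detc_map (τ : ℂ →+* ℂ) y (fun j => (m j).1) fun i => g (s i)).trans ?_
    simp only [Dt, mono, RingHom.coe_coe, hy, Equiv.Perm.mul_apply]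
  have hD0 : ∀ g : Γ, Dt g ≠ 0 := fun ⟨_, τ, hτ⟩ => by
    have := hDt τ 1
    rw [mul_one, hτ] at this
    rw [← this]
    exact (map_ne_zero τ).2 hΔ
  have hDi : ∀ g, IsIntegral ℤ (Dt g) := fun g =>
    IsIntegral.det fun i j => IsIntegral.prod _ fun l _ => (hi _ _).pow _
  have hzi : IsIntegral ℤ (∏ g : Γ, Dt g) := IsIntegral.prod _ fun g _ => hDi g
  have hzK : ∏ g : Γ, Dt g ∈ K := mem_of_fixed K (hzi.tower_top (A := ℚ)).isAlgebraic fun τ => by
    rw [map_prod]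
    exact Fintype.prod_equiv (Equiv.mulLeft (⟨a τ, τ, rfl⟩ : Γ)) _ _ fun g => hDt τ g
  have hM : (1 : ℝ) ≤ (R : ℝ) ^ 2 * B ^ k :=
    one_le_mul_of_one_le_of_one_le (one_le_pow₀ hR') (one_le_pow₀ hB')
  have hn := bp_norm K hzK hzi (prod_ne_zero_iff.2 fun g _ => hD0 g)
    (B := (((R : ℝ) ^ 2 * B ^ k) ^ R) ^ Fintype.card Γ) (one_le_pow₀ (one_le_pow₀ hM)) fun φ => by
      rw [map_prod, norm_prod, ← card_univ, ← prod_const]
      refine prod_le_prod (fun _ _ => norm_nonneg _) fun g _ => ?_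
      rw [detc_map φ y (fun j => (m j).1) fun i => (g : Equiv.Perm S) (s i)]
      refine (detc_arch hB' (hB φ) m _).trans (pow_le_pow_left₀ (by positivity) ?_ _)
      exact mul_le_mul_of_nonneg_right (by nlinarith) (by positivity)
  let U : Γ → Finset (Fin R) := fun g => univ.filter fun i => g • s i ∈ D
  let e : Γ → ℕ := fun g => R - ((U g).card + Bx * (N + 1) ^ Fintype.card σ)
  have hz : ‖∏ g : Γ, Dt g‖ ≤ (((R : ℝ) ^ 2 * B ^ k) ^ R) ^ Fintype.card Γ *
      ((1 / 2) ^ (N + 1)) ^ ∑ g, e g := by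
    rw [norm_prod, ← card_univ, ← prod_const, ← prod_pow_eq_pow_sum, ← prod_mul_distrib]
    exact prod_le_prod (fun _ _ => norm_nonneg _) fun g _ =>
      bp_det (by linarith) (hB (RingHom.id ℂ)) D cl F hF hpt N m _ (U g)
        fun i h1 h2 => h1 (mem_filter.2 ⟨mem_univ _, h2⟩)
  have hcount : 5 * (Fintype.card Γ * R) ≤ 8 * ∑ g, e g := by
    have h1 : ∀ i, 8 * (univ.filter fun g : Γ => g • s i ∈ D).card ≤ Fintype.card Γ := fun i => by
      have h0 : MulAction.orbit Γ (s i) = Set.range fun τ => a τ (s i) := by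
        ext x
        exact ⟨fun ⟨⟨_, τ, rfl⟩, hx⟩ => ⟨τ, hx⟩, fun ⟨τ, hx⟩ => ⟨⟨_, τ, rfl⟩, hx⟩⟩
      exact bp_count Γ (s i) D (by rw [h0]; exact hD (s i))
    have h2 : ∑ i, (univ.filter fun g : Γ => g • s i ∈ D).card = ∑ g : Γ, (U g).card := by
      simp only [U, card_filter]
      exact sum_comm
    have h3 : 8 * ∑ g : Γ, (U g).card ≤ Fintype.card Γ * R := by
      rw [← h2, mul_sum]
      exact (sum_le_sum fun i _ => h1 i).trans (by simp [mul_comm])
    have h4 : ∑ _g : Γ, 3 * R ≤ ∑ g : Γ, (4 * e g + 4 * (U g).card) := sum_le_sum fun g _ => by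
      rw [mul_assoc] at hc
      simp only [e]
      omega
    rw [sum_const, card_univ, smul_eq_mul, sum_add_distrib, ← mul_sum, ← mul_sum] at h4
    nlinarith
  have hG : (0 : ℝ) < Fintype.card Γ := by exact_mod_cast Fintype.card_pos
  have hn1 : (1 : ℝ) ≤ Module.finrank ℚ K := by exact_mod_cast Module.finrank_pos
  have hlog := Real.log_nonneg (hn.trans (mul_le_mul_of_nonneg_right hz (by positivity)))
  rw [Real.log_mul (by positivity) (by positivity), Real.log_mul (by positivity) (by positivity),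
    Real.log_pow, Real.log_pow, Real.log_pow, Real.log_pow, Real.log_pow, Real.log_pow,
    Real.log_pow, Real.log_mul (by positivity) (by positivity), Real.log_pow, Real.log_pow,
    one_div, Real.log_inv, Nat.cast_ofNat] at hlog
  have hc' : 5 * ((Fintype.card Γ : ℝ) * R) ≤ 8 * ((∑ g, e g : ℕ) : ℝ) := by exact_mod_cast hcount
  have hl2 := Real.log_two_gt_d9
  generalize ((∑ g, e g : ℕ) : ℝ) = E at *
  generalize (Fintype.card Γ : ℝ) = G at *
  generalize ((N + 1 : ℕ) : ℝ) = T at *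
  generalize 2 * Real.log R + k * Real.log B = L at *
  generalize (Module.finrank ℚ K : ℝ) = n at *
  have hGR : 0 < G * R := by positivity
  have h1 : G * R * L ≤ n * (G * R * L) := le_mul_of_one_le_left (by positivity) hn1
  have h2 : G * R * (8 * n * L) < G * R * T := mul_lt_mul_of_pos_left hT' hGR
  have h3 : 5 * (G * R) * (T * Real.log 2) ≤ 8 * E * (T * Real.log 2) :=
    mul_le_mul_of_nonneg_right hc' (by positivity)
  have h4 : G * R * T * (1 / 2) ≤ G * R * T * Real.log 2 :=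
    mul_le_mul_of_nonneg_left (by linarith) (by positivity)
  have h5 : 0 < G * R * T := by positivity
  nlinarith

end MG.Bx
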