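import Pool.Agent.Lib.MP_33b3f9_ag.MG.Bx.Bd

/-!
Two lattices in the same cell.
-/

set_option autoImplicit false

noncomputable section

namespace MG.Bx

open Matrix M4 Pool.Agent.M4.Mx Pool.Agent.M4.Det M8.E3 MF.An

theorem cell_cancel {κ : Type} [Fintype κ] [DecidableEq κ] {R X Y : Matrix κ κ ℤ} (h0 : R.det ≠ 0)
    (h : Rᵀ * X * R = Rᵀ * Y * R) : X = Y := by
  have k : ∀ Z : Matrix κ κ ℤ, adjugate Rᵀ * (Rᵀ * Z * R) * adjugate R = (R.det * R.det) • Z :=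
    fun Z => by
      calc _ = adjugate Rᵀ * Rᵀ * Z * (R * adjugate R) := by simp only [Matrix.mul_assoc]
        _ = _ := by
          rw [adjugate_mul, mul_adjugate, det_transpose, Matrix.smul_mul, Matrix.one_mul,
            Matrix.mul_smul, Matrix.mul_one, smul_smul]
  exact smul_right_injective _ (mul_ne_zero h0 h0) (by simp only [← k, h])

theorem cell_gam {κ : Type} [Fintype κ] [DecidableEq κ] {R R₀ E : Matrix κ κ ℤ} (h0 : R₀.det ≠ 0)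
    (h : Rᵀ * E * R = R₀ᵀ * E * R₀) (hd : ∀ i i', 32 * R₀.det ∣ (R - R₀) i i') :
    ∃ γ : Matrix κ κ ℤ, γᵀ * E * γ = E ∧ (∀ i j, (32 : ℤ) ∣ (γ - 1) i j) ∧ γ * R₀ = R := by
  choose Z hZ using hd
  have e : (1 + (32 : ℤ) • (of Z * adjugate R₀)) * R₀ = R := by
    rw [Matrix.add_mul, Matrix.one_mul, Matrix.smul_mul, Matrix.mul_assoc, adjugate_mul,
      Matrix.mul_smul, Matrix.mul_one, smul_smul, ← eq_sub_iff_add_eq']
    ext i j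
    exact (hZ i j).symm
  refine ⟨_, cell_cancel h0 ?_, fun i j => ?_, e⟩
  · rw [← h, ← e]
    simp only [transpose_mul, Matrix.mul_assoc]
  · rw [add_sub_cancel_left]
    exact Dvd.intro _ rfl

theorem cell_two {x y : M2 ℂ} {α β δ : ℝ} (h0 : x.det ≠ 0) (h1 : ∀ p q, ‖(y - x) p q‖ ≤ α)
    (h2 : ∀ p q, ‖x p q‖ ≤ β) (h : 2 * (α * β) ≤ δ * ‖x.det‖) (p q : Fin 2) :
    ‖(y * x⁻¹ - 1) p q‖ ≤ δ := by
  have e : y * x⁻¹ - 1 = x.det⁻¹ • ((y - x) * adjugate x) := by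
    rw [← mul_nonsing_inv x h0.isUnit, ← Matrix.sub_mul, inv_def, Ring.inverse_eq_inv',
      Matrix.mul_smul]
  have h3 : ∀ p q, ‖adjugate x p q‖ ≤ β := fun p q => by
    rw [adjugate_fin_two]
    fin_cases p <;> fin_cases q <;> simpa using h2 _ _
  have h4 : ∀ r, ‖(y - x) p r * adjugate x r q‖ ≤ α * β := fun r => by
    rw [norm_mul]
    exact mul_le_mul (h1 p r) (h3 r q) (norm_nonneg _) ((norm_nonneg _).trans (h1 p r))
  rw [e, Matrix.smul_apply, smul_eq_mul, norm_mul, norm_inv, Matrix.mul_apply, Fin.sum_univ_two,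
    inv_mul_le_iff₀ (norm_pos_iff.2 h0)]
  linarith [norm_add_le ((y - x) p 0 * adjugate x 0 q) ((y - x) p 1 * adjugate x 1 q), h4 0, h4 1]

theorem cell_w {u : M2 ℂ} {T : ℝ} (hT : 1 ≤ T) (h : ∀ p q, ‖(u - 1) p q‖ ≤ 1 / (16 * T)) :
    ∃ (c : ℂ) (w : Fin 3 → ℂ), (∀ i, ‖w i‖ < 1 / 2) ∧
      u = c • (1 + (T : ℂ)⁻¹ • !![0, w 0; w 1, w 2]) := by
  have T0 : 0 < T := zero_lt_one.trans_le hT
  have a0 : ‖u 0 0 - 1‖ ≤ 1 / (16 * T) := by simpa using h 0 0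
  have a1 : ‖u 0 1‖ ≤ 1 / (16 * T) := by simpa using h 0 1
  have a2 : ‖u 1 0‖ ≤ 1 / (16 * T) := by simpa using h 1 0
  have a3 : ‖u 1 1 - 1‖ ≤ 1 / (16 * T) := by simpa using h 1 1
  have a4 : ‖u 1 1 - u 0 0‖ ≤ 2 * (1 / (16 * T)) := by
    have := norm_sub_le (u 1 1 - 1) (u 0 0 - 1)
    rw [sub_sub_sub_cancel_right] at this
    linarith
  have a5 : 1 / (16 * T) ≤ 1 / 16 := one_div_le_one_div_of_le (by norm_num) (by linarith)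
  have a6 : 1 / 2 ≤ ‖u 0 0‖ := by
    have := norm_sub_le (u 0 0) (u 0 0 - 1)
    rw [sub_sub_cancel, norm_one] at this
    linarith
  have a7 : 0 < ‖u 0 0‖ := by linarith
  have a8 : T * (1 / (16 * T)) = 1 / 16 := by field_simp
  have k : ∀ y : ℂ, ‖y‖ ≤ 2 * (1 / (16 * T)) → ‖(T : ℂ) * y / u 0 0‖ < 1 / 2 := fun y hy => by
    rw [norm_div, norm_mul, Complex.norm_real, Real.norm_of_nonneg T0.le, div_lt_iff₀ a7]
    nlinarith [mul_le_mul_of_nonneg_left hy T0.le]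
  have a9 : 0 ≤ 1 / (16 * T) := by positivity
  refine ⟨u 0 0, ![T * u 0 1 / u 0 0, T * u 1 0 / u 0 0, T * (u 1 1 - u 0 0) / u 0 0],
    fun i => ?_, ?_⟩
  · fin_cases i
    exacts [k _ (by linarith), k _ (by linarith), k _ a4]
  · have b0 : u 0 0 ≠ 0 := norm_pos_iff.1 a7
    have b1 : (T : ℂ) ≠ 0 := Complex.ofReal_ne_zero.2 T0.ne'
    ext p q
    fin_cases p <;> fin_cases q <;> simp <;> field_simp
    ring

theorem cell_num {H ρ D C : ℝ} {k₀ k₁ j j' : ℕ} (hH : 0 < H) (hC : 32 * C ^ 2 ≤ H ^ k₀)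
    (h : ρ ^ 2 ≤ H ^ k₁ * D) :
    2 * (C * H * (ρ / H ^ (k₀ + 2 + j + k₁ + j')) * (C * H * (H ^ j * ρ))) ≤
      1 / (16 * H ^ j') * D := by
  have e : 2 * (C * H * (ρ / H ^ (k₀ + 2 + j + k₁ + j')) * (C * H * (H ^ j * ρ))) =
      1 / (16 * H ^ j') * (32 * C ^ 2 * ρ ^ 2 / (H ^ k₀ * H ^ k₁)) := by
    simp only [pow_add]
    field_simp
    ring
  rw [e]
  refine mul_le_mul_of_nonneg_left ?_ (by positivity)
  rw [div_le_iff₀ (by positivity)]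
  calc _ ≤ H ^ k₀ * (H ^ k₁ * D) := mul_le_mul hC h (by positivity) (by positivity)
    _ = _ := by ring

variable [Dim] {e : ℕ} {a b : MZ} {m n : ℕ} {τ : Mat}

variable {K : IntermediateField ℚ ℂ} {r : Rep K} {L : Type} [Field L] {l₁ : ℕ}

theorem cell_eq {z : MorD e a b ℂ} {F : Frs e a b L l₁} {LM : Finset (GP L l₁)} {H : ℕ}
    {A : SA z F LM H} {g : MZ} {M : ℕ} {ρ T : ℝ} {c : IA e A.d → ℤ} {R : MZ}
    (h : Gv A g M ρ T c R) :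
    (M : ℂ) • zM ℂ R = (A.m : ℂ) • (zM ℂ g * Psi z.toMor A.ψ (el A c)) := by
  have := congrArg (zM ℂ) h.eq
  rwa [zM_smul, zM_mul, nm_eq, Matrix.mul_smul, Int.cast_natCast] at this

theorem cell (z : MorD e a b ℂ) (j j' : ℕ) : ∃ k : ℕ,
    ∀ (F : Frs e a b L l₁) (LM : Finset (GP L l₁)) (H : ℕ) (A : SA z F LM H) (g g₀ : MZ) (M : ℕ)
      (ρ : ℝ) (c c₀ : IA e A.d → ℤ) (R R₀ : MZ), 2 ≤ H → 0 < M → Sim (zr g) M → Sim (zr g₀) M →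
      1 ≤ ρ → ρ ^ (2 * A.d) = M → Gv A g M ρ ((H : ℝ) ^ j) c R → Gv A g₀ M ρ ((H : ℝ) ^ j) c₀ R₀ →
      Rᵀ * J ι ℤ * R = R₀ᵀ * J ι ℤ * R₀ → (∀ i i', 32 * R₀.det ∣ (R - R₀) i i') →
      (∀ q, (H : ℝ) ^ k * |(c q : ℝ) - c₀ q| ≤ ρ) →
      ∃ (γ : MZ) (w : Fin e × Fin A.d × Fin 3 → ℂ) (v : Fin e → ℂ), Sim (zr γ) 1 ∧ Lev γ ∧
        w ∈ Metric.ball (0 : Fin e × Fin A.d × Fin 3 → ℂ) (1 / 2) ∧
        zM ℂ g = zM ℂ (γ * g₀) * Psi z.toMor A.ψ (1 + ((H : ℂ) ^ j')⁻¹ • Yw w) * Sc z.toMor v := by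
  obtain ⟨k₁, hk₁⟩ := gv_bd (L := L) (l₁ := l₁) z j
  obtain ⟨k₀, hk₀⟩ := exists_pow (32 * (12 * e : ℝ) ^ 2)
  refine ⟨k₀ + 2 + j + k₁ + j', fun F LM H A g g₀ M ρ c c₀ R R₀ hH hM hg hg₀ hρ hd G G₀ hJ hR hc =>
    ?_⟩
  have H2 : (2 : ℝ) ≤ H := by exact_mod_cast hH
  have H0 : (0 : ℝ) < H := by linarith
  obtain ⟨γ, h1, h2, h3⟩ := cell_gam (hk₁ F LM H A g₀ M ρ c₀ R₀ hH hM hg₀ hρ hd G₀).2.1 hJ hR
  have h4 := (hk₁ F LM H A g M ρ c R hH hM hg hρ hd G).2.2.2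
  have h5 : zM ℂ g * Psi z.toMor A.ψ (el A c) = zM ℂ (γ * g₀) * Psi z.toMor A.ψ (el A c₀) := by
    refine smul_right_injective _ (Nat.cast_ne_zero.2 A.m0.ne' : (A.m : ℂ) ≠ 0) ?_
    change (A.m : ℂ) • _ = (A.m : ℂ) • _
    rw [← cell_eq G, ← h3, zM_mul, zM_mul, Matrix.mul_assoc, ← Matrix.mul_smul, ← Matrix.mul_smul,
      cell_eq G₀]
  have h6 : el A c * (fun s t => (el A c s t)⁻¹) = 1 :=
    funext fun s => funext fun t => mul_nonsing_inv _ (G.ne s t).isUnit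
  have h7 : el A c₀ - el A c = el A (c₀ - c) := by
    simp only [el, Pi.sub_apply, sub_smul, Finset.sum_sub_distrib]
  have h8 : ∀ s t, ∃ (κ : ℂ) (w : Fin 3 → ℂ), (∀ i, ‖w i‖ < 1 / 2) ∧
      el A c₀ s t * (el A c s t)⁻¹ =
        κ • (1 + ((((H : ℝ) ^ j' : ℝ)) : ℂ)⁻¹ • !![0, w 0; w 1, w 2]) := fun s t => by
    refine cell_w (one_le_pow₀ (by linarith)) (cell_two (G.ne s t) (fun p q => ?_)
      (el_le A c G.le s t) (cell_num H0 (hk₀ H H2) (h4 s t)))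
    refine (congrArg (fun y => ‖y s t p q‖) h7).trans_le (el_le A (c₀ - c) (fun i => ?_) s t p q)
    rw [Pi.sub_apply, Int.cast_sub, abs_sub_comm, le_div_iff₀' (by positivity)]
    exact hc i
  choose κ w hw hu using h8
  refine ⟨γ, fun i => w i.1 i.2.1 i.2.2, fun s => ∏ t, κ s t,
    sim_mz_iff.2 (SymplecticGroup.mem_iff'.2 h1), h2, ?_, ?_⟩
  · rw [mem_ball_zero_iff, pi_norm_lt_iff (by norm_num)]
    exact fun i => hw _ _ _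
  · have h9 : el A c₀ * (fun s t => (el A c s t)⁻¹) = fun s t => κ s t •
        (1 + ((H : ℂ) ^ j')⁻¹ • Yw fun i : Fin e × Fin A.d × Fin 3 => w i.1 i.2.1 i.2.2) s t :=
      funext fun s => funext fun t => (hu s t).trans (by push_cast; rfl)
    rw [Matrix.mul_assoc, ← Psi_smul, ← h9, Psi_mul _ (cj A), ← Matrix.mul_assoc, ← h5,
      Matrix.mul_assoc, ← Psi_mul _ (cj A), h6, Psi_one, Matrix.mul_one]

end MG.Bx
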