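import Pool.Agent.Lib.MP_33b3f9_ag.MG.Bx.Defs
import Pool.Agent.Lib.MP_33b3f9_ag.M4.MFLev0
import Pool.Agent.Lib.MP_33b3f9_ag.M4.MFAct0
import Pool.Agent.Lib.MP_33b3f9_ag.MG.Ry.A

/-!
The complex action near the identity.
-/

set_option autoImplicit false

noncomputable section

namespace MG.Bx

open Matrix M4 Pool.Agent.M4.Mx Pool.Agent.M4.Det M8.E3 MF.An Filter Topology

section chart

variable {ι : Type} [Fintype ι] [DecidableEq ι] {τ : Matrix ι ι ℂ}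

theorem chart_form (s t : Matrix ι ι ℂ) : (cl' s)ᵀ * J ι ℂ * cl' t = t - sᵀ := by
  rw [cl', cl', transpose_fromRows, J, fromCols_mul_fromBlocks, fromCols_mul_fromRows]
  simp [neg_add_eq_sub]

theorem chart_inj {s t D D' : Matrix ι ι ℂ} (hD : D.det ≠ 0) (h : cl' s * D = cl' t * D') :
    s = t := by
  rw [cl', cl', fromRows_mul, fromRows_mul, fromRows_ext_iff, Matrix.one_mul, Matrix.one_mul] at h
  obtain ⟨rfl, h2⟩ := h
  exact neg_injective (((isUnit_iff_isUnit_det _).2 hD.isUnit).mul_left_inj.1 h2)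

theorem chart_symm (hτ : τ.IsSymm) {P N : MC ι} (hd : (dc P τ).det ≠ 0) (hN : St τ N)
    (h : Pᵀ * J ι ℂ * P = J ι ℂ * N) : (ac P τ).IsSymm := by
  obtain ⟨Z, hZ⟩ := hN
  have hu : IsUnit (dc P τ) := (isUnit_iff_isUnit_det _).2 hd.isUnit
  have hu' : IsUnit (dc P τ)ᵀ := (isUnit_iff_isUnit_det _).2 (by rw [det_transpose]; exact hd.isUnit)
  have h1 : (P * cl' τ)ᵀ * J ι ℂ * (P * cl' τ) = 0 := by
    calc _ = (cl' τ)ᵀ * (Pᵀ * J ι ℂ * P) * cl' τ := by simp only [transpose_mul, Matrix.mul_assoc]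
      _ = (cl' τ)ᵀ * J ι ℂ * cl' τ * Z := by simp only [h, Matrix.mul_assoc, hZ]
      _ = 0 := by rw [chart_form, hτ.eq, sub_self, Matrix.zero_mul]
  have h2 : (dc P τ)ᵀ * ((cl' (ac P τ))ᵀ * J ι ℂ * cl' (ac P τ) * dc P τ) = 0 := by
    rw [← h1, mul_cl' hd]
    simp only [transpose_mul, Matrix.mul_assoc]
  rw [hu'.mul_right_eq_zero, hu.mul_left_eq_zero, chart_form, sub_eq_zero] at h2
  exact h2.symm

omit [DecidableEq ι] in
theorem chart_inH (h1 : τ.IsSymm) (h2 : (fun i j => τ i j) ∈ PosIm ι) : InH τ := by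
  refine ⟨h1, PosDef.of_dotProduct_mulVec_pos ?_ fun x hx => ?_⟩
  · ext i j
    exact congrArg Complex.im (h1.apply i j)
  · rw [star_trivial, ths_form]
    exact h2 x hx

theorem chart_lim (τ : Matrix ι ι ℂ) : Tendsto (fun P : MC ι => ac P τ) (𝓝 1) (𝓝 τ) ∧
    ∀ᶠ P : MC ι in 𝓝 1, (dc P τ).det ≠ 0 := by
  have h0 : (dc (1 : MC ι) τ).det ≠ 0 := by rw [dc_one, det_one]; exact one_ne_zero
  obtain ⟨h1, h2⟩ := tendsto_inv ((continuous_dc.comp (Continuous.prodMk_left τ)).tendsto 1) h0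
  refine ⟨?_, h2⟩
  have h3 : Continuous fun p : MC ι × Matrix ι ι ℂ => τ - rw' τ * p.1 * cl' τ * p.2 :=
    continuous_const.sub (((continuous_const.matrix_mul continuous_fst).matrix_mul
      continuous_const).matrix_mul continuous_snd)
  have h4 := (h3.tendsto _).comp (tendsto_id.prodMk_nhds h1)
  rw [Matrix.mul_one, rw_cl, sub_self, Matrix.zero_mul, sub_zero] at h4
  exact h4.congr' (h2.mono fun P hP => (ac_eq hP τ).symm)

theorem chart_det {σ : Type} [Fintype σ] {M : (σ → ℂ) → Matrix ι ι ℂ}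
    (hM : ∀ i j, Differentiable ℂ fun w => M w i j) : Differentiable ℂ fun w => (M w).det := by
  simp only [det_apply']
  refine Differentiable.fun_sum fun p _ => Differentiable.const_mul ?_ _
  exact fun w => (HasFDerivAt.finsetProd fun i _ => (hM _ _ w).hasFDerivAt).differentiableAt

theorem chart_diff {σ : Type} [Fintype σ] {P : (σ → ℂ) → MC ι}
    (hP : ∀ i j, Differentiable ℂ fun w => P w i j) {U : Set (σ → ℂ)}
    (hd : ∀ w ∈ U, (dc (P w) τ).det ≠ 0) :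
    DifferentiableOn ℂ (fun w i j => ac (P w) τ i j) U := by
  have h0 : ∀ i j, Differentiable ℂ fun w => ((P w).toBlocks₂₂ * τ - (P w).toBlocks₂₁) i j :=
    fun i j => by
      simp only [Matrix.sub_apply, Matrix.mul_apply, toBlocks₂₂, toBlocks₂₁, of_apply]
      exact (Differentiable.fun_sum fun k _ => (hP _ _).mul_const _).sub (hP _ _)
  have h1 : ∀ i j, Differentiable ℂ fun w => dc (P w) τ i j := fun i j => by
    simp only [dc, Matrix.sub_apply, Matrix.mul_apply, toBlocks₁₁, toBlocks₁₂, of_apply]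
    exact (hP _ _).sub (Differentiable.fun_sum fun k _ => (hP _ _).mul_const _)
  have h2 : ∀ i j, Differentiable ℂ fun w => (dc (P w) τ).adjugate i j := fun i j => by
    simp only [adjugate_apply]
    refine chart_det fun k l => ?_
    simp only [updateRow_apply]
    split_ifs
    · exact differentiable_const _
    · exact h1 k l
  refine differentiableOn_pi.2 fun i => differentiableOn_pi.2 fun j => ?_
  have e : ∀ w, ac (P w) τ i j = ∑ k, ((P w).toBlocks₂₂ * τ - (P w).toBlocks₂₁) i k *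
      (((dc (P w) τ).det)⁻¹ * (dc (P w) τ).adjugate k j) := fun w => by
    rw [ac, Matrix.mul_apply, Matrix.inv_def, Ring.inverse_eq_inv']
    rfl
  simp only [e]
  exact DifferentiableOn.fun_sum fun k _ => (h0 i k).differentiableOn.mul
    (((chart_det h1).differentiableOn.inv hd).mul (h2 k j).differentiableOn)

theorem chart_st {g : MR ι} {μ : ℝ} (hg : Sim g μ) (hμ : 0 < μ) (hτ : InH τ) (h : act g τ = τ) :
    St τ (cx g) := by
  have h1 := mul_cl' (g := cx g) (den_det_ne_zero hg hμ hτ)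
  rw [ac_cx, h] at h1
  exact ⟨_, h1⟩

theorem chart_st' {g : MR ι} (hτ : InH τ) (h : g * cst τ = cst τ * g) : St τ (cx g) := by
  have h1 : τ * (cx g).toBlocks₁₁ + (cx g).toBlocks₂₁ =
      (τ * (cx g).toBlocks₁₂ + (cx g).toBlocks₂₂) * τ := Ry.rel_of_comm hτ h.symm
  have h2 : (cx g).toBlocks₂₂ * τ - (cx g).toBlocks₂₁ = τ * dc (cx g) τ := by
    rw [dc, Matrix.mul_sub, eq_sub_of_add_eq h1, Matrix.add_mul, Matrix.mul_assoc]
    abel
  exact ⟨dc (cx g) τ, by rw [mul_cl, cl', fromRows_mul, Matrix.one_mul, Matrix.neg_mul, h2]⟩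

theorem chart (hτ : InH τ) {r : ℝ} (hr : 0 < r) : ∃ ε : ℝ, 0 < ε ∧ ∀ P : MC ι,
    (∀ i j, ‖(P - 1) i j‖ ≤ ε) → (dc P τ).det ≠ 0 ∧ (∀ i j, ‖ac P τ i j - τ i j‖ ≤ r) ∧
      ∀ N : MC ι, St τ N → Pᵀ * J ι ℂ * P = J ι ℂ * N → InH (ac P τ) := by
  obtain ⟨h1, h2⟩ := chart_lim τ
  have h3 : ∀ᶠ P : MC ι in 𝓝 1, (fun i j => ac P τ i j) ∈ PosIm ι :=
    h1.eventually (isOpen_posIm.mem_nhds hτ.posIm)
  have h4 : ∀ᶠ P : MC ι in 𝓝 1, ∀ i j, ‖ac P τ i j - τ i j‖ ≤ r :=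
    eventually_all.2 fun i => eventually_all.2 fun j =>
      (Metric.tendsto_nhds.1 (((continuous_apply_apply i j).tendsto τ).comp h1) r hr).mono
        fun P h => by rw [← dist_eq_norm]; exact h.le
  have h5 : ∀ᶠ Q : ι ⊕ ι → ι ⊕ ι → ℂ in 𝓝 (fun i j => (1 : MC ι) i j),
      (dc (of Q) τ).det ≠ 0 ∧ (∀ i j, ‖ac (of Q) τ i j - τ i j‖ ≤ r) ∧
        (fun i j => ac (of Q) τ i j) ∈ PosIm ι := h2.and (h4.and h3)
  obtain ⟨ε, hε, h6⟩ := Metric.eventually_nhds_iff.1 h5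
  refine ⟨ε / 2, by linarith, fun P hP => ?_⟩
  obtain ⟨k1, k2, k3⟩ := h6 (y := fun i j => P i j) (by
    refine (dist_pi_lt_iff hε).2 fun i => (dist_pi_lt_iff hε).2 fun j => ?_
    rw [dist_eq_norm]
    exact (hP i j).trans_lt (by linarith))
  exact ⟨k1, k2, fun N hN h => chart_inH (chart_symm hτ.1 k1 hN h) k3⟩

theorem act_eq {g g' : MR ι} {μ μ' : ℝ} (hg : Sim g μ) (hμ : 0 < μ) (hg' : Sim g' μ')
    (hμ' : 0 < μ') (hτ : InH τ) {P N : MC ι} (hd : (dc P τ).det ≠ 0) (hσ : InH (ac P τ))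
    (hN : St τ N) (h : cx g' = cx g * P * N) : act g' τ = act g (ac P τ) := by
  obtain ⟨Z, hZ⟩ := hN
  have h1 := mul_cl' (g := cx g') (den_det_ne_zero hg' hμ' hτ)
  have h2 := mul_cl' (g := cx g) (den_det_ne_zero hg hμ hσ)
  rw [ac_cx] at h1 h2
  refine chart_inj (D' := dc (cx g) (ac P τ) * dc P τ * Z) (den_det_ne_zero hg' hμ' hτ) ?_
  calc _ = cx g * (P * cl' τ) * Z := by
        rw [← dc_cx, ← h1, h]
        simp only [Matrix.mul_assoc, hZ]
    _ = _ := by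
        rw [mul_cl' hd, ← Matrix.mul_assoc, h2]
        simp only [Matrix.mul_assoc]

theorem diff_t2 {σ : Type} [Fintype σ] {g : MR ι} {μ : ℝ} (hg : Sim g μ) (hμ : 0 < μ)
    {P : (σ → ℂ) → MC ι} (hP : ∀ i j, Differentiable ℂ fun w => P w i j) {U : Set (σ → ℂ)}
    (hd : ∀ w ∈ U, (dc (P w) τ).det ≠ 0) (hσ : ∀ w ∈ U, InH (ac (P w) τ)) :
    DifferentiableOn ℂ (fun w => MF.An.t2 (act g (ac (P w) τ))) U := by
  refine differentiableOn_pi.2 fun ε => ?_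
  exact (differentiableOn_Th (hf (bz ε))).comp
    ((differentiableOn_act g).comp (chart_diff hP hd) fun w hw => den_det_ne_zero hg hμ (hσ w hw))
    fun w hw => (inH_act hg hμ (hσ w hw)).posIm

theorem t2_lev {γ : Matrix (ι ⊕ ι) (ι ⊕ ι) ℤ} (hγ : Sim (γ.map (Int.cast : ℤ → ℝ)) 1)
    (hl : ∀ i j, (32 : ℤ) ∣ (γ - 1) i j) (hτ : InH τ) :
    ∃ c : ℂ, MF.An.t2 (act (γ.map (Int.cast : ℤ → ℝ)) τ) = c • MF.An.t2 τ := by
  obtain ⟨c, -, h2⟩ := t2_level (sim_mz_iff.1 hγ) (Lv.of_dvd (q' := 32) hl (by norm_num)) ⟨τ, hτ⟩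
  refine ⟨c, funext fun ε => ?_⟩
  have := h2 ε
  rwa [M4.t2, aH_val (g := mz γ) hγ one_pos] at this

end chart

variable [Dim] {e : ℕ} {a b : MZ} {m n : ℕ} {τ : Mat}

theorem St_Sc (hP : PEL e a b m n) (hτ : τ ∈ FX a b) (z : Mor e a b ℂ) (c : Fin e → ℂ) :
    St τ (Sc z c) := by
  have e1 : ∀ g : MZ, cx (zr g) = zM ℂ g := fun g => by
    ext i j
    simp [cx, zr]
  obtain ⟨h1, -⟩ := hP.rel ℝ
  have ha : St τ (zM ℂ a) :=
    e1 a ▸ chart_st (M4.sim_iff.2 h1) (Nat.cast_pos.2 hP.m0) hτ.1 hτ.2.1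
  have hb : St τ (zM ℂ b) := e1 b ▸ chart_st' hτ.1 hτ.2.2
  have key : ∀ y : Fin e → M2 ℂ, St τ (z.sl y) := fun y => by
    have hy : y ∈ Algebra.adjoin ℂ {z.α, z.β} := z.gen ▸ Algebra.mem_top
    induction hy using Algebra.adjoin_induction with
    | mem x hx =>
      rcases hx with rfl | rfl
      · rwa [Mor.sl_apply, ← Mor.a_eq]
      · rwa [Mor.sl_apply, ← Mor.b_eq]
    | algebraMap c =>
      rw [AlgHom.commutes, Algebra.algebraMap_eq_smul_one]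
      exact ⟨c • 1, by rw [Matrix.smul_mul, Matrix.mul_smul, Matrix.one_mul, Matrix.mul_one]⟩
    | add x y _ _ k1 k2 =>
      obtain ⟨Z, hZ⟩ := k1
      obtain ⟨Z', hZ'⟩ := k2
      exact ⟨Z + Z', by rw [map_add, Matrix.add_mul, hZ, hZ', Matrix.mul_add]⟩
    | mul x y _ _ k1 k2 =>
      obtain ⟨Z, hZ⟩ := k1
      obtain ⟨Z', hZ'⟩ := k2
      exact ⟨Z * Z', by rw [map_mul, Matrix.mul_assoc, hZ', ← Matrix.mul_assoc, hZ,
        Matrix.mul_assoc]⟩
  have e2 : Sc z c = z.sl fun s => c s • 1 := by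
    rw [Sc, Mor.em_apply, Mor.sl_apply]
    simp only [smul_kronecker, kronecker_smul]
  exact e2 ▸ key _

end MG.Bx
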