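import Pool.Agent.Lib.MP_33b3f9_ag.MG.Bx.Gv
import Pool.Agent.Lib.MP_33b3f9_ag.MG.Bx.Cell
import Pool.Agent.Lib.MP_33b3f9_ag.MG.Bx.Chart
import Pool.Agent.Lib.MP_33b3f9_ag.MF.An.Harn

/-!
The cells.
-/

set_option autoImplicit false

noncomputable section

namespace MG.Bx

open Matrix M4 Pool.Agent.M4.Mx Pool.Agent.M4.Det M8.E3 MF.An

variable [Dim] {e : ℕ} {a b : MZ} {m n : ℕ} {τ : Mat}

variable {K : IntermediateField ℚ ℂ} {r : Rep K} {L : Type} [Field L] {l₁ : ℕ}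

omit [Dim] in
theorem cells_root {M d : ℕ} (hM : 0 < M) (hd : 1 ≤ d) : ∃ ρ : ℝ, 1 ≤ ρ ∧ ρ ^ (2 * d) = M :=
  ⟨(M : ℝ) ^ ((2 * d : ℕ) : ℝ)⁻¹, Real.one_le_rpow (by exact_mod_cast hM) (by positivity),
    Real.rpow_inv_natCast_pow (Nat.cast_nonneg _) (by omega)⟩

omit [Dim] in
theorem cells_floor {x y t ρ : ℝ} (ht : 0 ≤ t) (hρ : 0 < ρ) (h : ⌊t * x / ρ⌋ = ⌊t * y / ρ⌋) :
    t * |x - y| ≤ ρ := by
  have h1 := Int.abs_sub_lt_one_of_floor_eq_floor h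
  rw [← sub_div, ← mul_sub, abs_div, abs_mul, abs_of_nonneg ht, abs_of_pos hρ,
    div_lt_one hρ] at h1
  exact h1.le

omit [Dim] in
theorem cells_floor_le {x t ρ : ℝ} {T : ℕ} (ht : 0 ≤ t) (hρ : 0 < ρ) (h : t * |x| ≤ T * ρ) :
    ⌊t * x / ρ⌋.natAbs ≤ T := by
  have h1 : |t * x / ρ| ≤ T := by
    rw [abs_div, abs_mul, abs_of_nonneg ht, abs_of_pos hρ, div_le_iff₀ hρ]
    exact h
  obtain ⟨h2, h3⟩ := abs_le.1 h1
  have h4 : -(T : ℤ) ≤ ⌊t * x / ρ⌋ := Int.le_floor.2 (by exact_mod_cast h2)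
  have h5 : ⌊t * x / ρ⌋ ≤ T := by
    have := (Int.floor_le _).trans h3
    exact_mod_cast this
  omega

theorem cells_det {R R₀ : MZ} (h : Rᵀ * J ι ℤ * R = R₀ᵀ * J ι ℤ * R₀) :
    R.det.natAbs = R₀.det.natAbs := by
  have h1 := congrArg det h
  simp only [det_mul, det_transpose] at h1
  have h2 := (isUnit_det_J ι ℤ).ne_zero
  have h3 : R.det * R.det = R₀.det * R₀.det := mul_left_cancel₀ h2 (by linear_combination h1)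
  exact Int.natAbs_eq_natAbs_iff.2 (mul_self_eq_mul_self_iff.1 h3)

/-- The data of a cell. -/
def cells_dat {I : Type} (t ρ : ℝ) (c : I → ℤ) (R : MZ) : (ν × ν) ⊕ (ν × ν) ⊕ I → ℤ :=
  Sum.elim (fun p => (Rᵀ * J ι ℤ * R) p.1 p.2)
    (Sum.elim (fun p => R p.1 p.2 % (32 * R.det.natAbs)) fun q => ⌊t * c q / ρ⌋)

theorem cells_eq {I : Type} {t ρ : ℝ} (ht : 0 ≤ t) (hρ : 0 < ρ) {c c₀ : I → ℤ} {R R₀ : MZ}
    (h : cells_dat t ρ c₀ R₀ = cells_dat t ρ c R) : Rᵀ * J ι ℤ * R = R₀ᵀ * J ι ℤ * R₀ ∧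
      (∀ i i', 32 * R₀.det ∣ (R - R₀) i i') ∧ ∀ q, t * |(c q : ℝ) - c₀ q| ≤ ρ := by
  have h1 : Rᵀ * J ι ℤ * R = R₀ᵀ * J ι ℤ * R₀ :=
    Matrix.ext fun i j => (congrFun h (Sum.inl (i, j))).symm
  refine ⟨h1, fun i j => ?_, fun q => cells_floor ht hρ (congrFun h (Sum.inr (Sum.inr q))).symm⟩
  have h2 : R₀ i j % (32 * R₀.det.natAbs) = R i j % (32 * R.det.natAbs) :=
    congrFun h (Sum.inr (Sum.inl (i, j)))
  rw [cells_det h1] at h2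
  exact (mul_dvd_mul_left _ (Int.dvd_natAbs.2 dvd_rfl)).trans (Int.ModEq.dvd h2)

theorem cells_bd {I : Type} {ρ : ℝ} (hρ : 0 < ρ) {c : I → ℤ} {R : MZ} {H k₁ k₂ k₃ : ℕ}
    (hH : 2 ≤ H) (h1 : ∀ q, |(c q : ℝ)| ≤ (H : ℝ) ^ k₁ * ρ)
    (h2 : ∀ i i', ((Rᵀ * J ι ℤ * R) i i').natAbs ≤ H ^ k₂) (h3 : R.det ≠ 0)
    (h4 : R.det.natAbs ≤ H ^ k₂) (k : (ν × ν) ⊕ (ν × ν) ⊕ I) :
    (cells_dat ((H : ℝ) ^ k₃) ρ c R k).natAbs ≤ H ^ (k₁ + k₂ + k₃ + 5) := by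
  have h0 : ∀ {i j : ℕ}, i ≤ j → H ^ i ≤ H ^ j := Nat.pow_le_pow_right (by omega)
  rcases k with p | p | q
  · exact (h2 _ _).trans (h0 (by omega))
  · have h5 : (0 : ℤ) < 32 * R.det.natAbs := by positivity
    have h6 := Int.emod_nonneg (R p.1 p.2) h5.ne'
    have h7 := Int.emod_lt_of_pos (R p.1 p.2) h5
    have h8 : 2 ^ 5 * H ^ k₂ ≤ H ^ (k₁ + k₂ + k₃ + 5) :=
      (Nat.mul_le_mul_right _ (Nat.pow_le_pow_left hH 5)).trans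
        (by rw [← pow_add]; exact h0 (by omega))
    change (R p.1 p.2 % (32 * R.det.natAbs)).natAbs ≤ _
    omega
  · refine (cells_floor_le (T := H ^ (k₃ + k₁)) (by positivity) hρ ?_).trans (h0 (by omega))
    rw [Nat.cast_pow, pow_add, mul_assoc]
    exact mul_le_mul_of_nonneg_left (h1 q) (by positivity)

omit [Dim] in
theorem cells_Yw {d : ℕ} {w : Fin e × Fin d × Fin 3 → ℂ} (hw : w ∈ Metric.ball 0 (1 : ℝ)) (t : ℂ)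
    (s : Fin e) (u : Fin d) (p q : Fin 2) : ‖(t • Yw w) s u p q‖ ≤ ‖t‖ := by
  have h1 : ∀ k, ‖w k‖ ≤ 1 := fun k => (norm_le_pi_norm w k).trans (mem_ball_zero_iff.1 hw).le
  have h2 : ‖Yw w s u p q‖ ≤ 1 := by
    fin_cases p <;> fin_cases q <;> simp [Yw, h1]
  rw [Pi.smul_apply, Pi.smul_apply, Matrix.smul_apply, smul_eq_mul, norm_mul]
  exact mul_le_of_le_one_right (norm_nonneg _) h2

theorem cells_cx (g : MZ) : cx (zr g) = zM ℂ g := by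
  ext i j
  simp [cx, zr]

theorem cells_zr (g h : MZ) : zr (g * h) = zr g * zr h := Matrix.map_mul (f := Int.castRingHom ℝ)

theorem cells (hP : PEL e a b m n) (hτ : τ ∈ FX a b) (z : MorD e a b ℂ) :
    ∃ C : ℝ, 1 ≤ C ∧ ∀ j : ℕ, ∃ k : ℕ, ∀ (F : Frs e a b L l₁) (LM : Finset (GP L l₁)) (H : ℕ)
      (A : SA z F LM H) (S : Type) [Nonempty S] (g : S → MZ) (M : ℕ) (D : Set S), 2 ≤ H → 0 < M →
      (∀ ξ, Sim (zr (g ξ)) M) → (∀ ξ, Lam A (g ξ) M) →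
      (∀ ξ ∉ D, ∀ u : ν → ℤ, u ≠ 0 → 1 ≤ (H : ℝ) ^ j * qf (act (zr (g ξ)) τ) (rz u)) →
      ∃ (Bx : ℕ) (cl : S → Fin Bx) (G : Fin Bx → (Fin e × Fin A.d × Fin 3 → ℂ) → Bits → ℂ),
        Bx ≤ H ^ k ∧ (∀ c, DifferentiableOn ℂ (G c) (Metric.ball 0 1)) ∧
        ∀ ξ ∉ D, ∃ w ∈ Metric.ball (0 : Fin e × Fin A.d × Fin 3 → ℂ) (1 / 2), ∃ c : ℂ,
          th2 (act (zr (g ξ)) τ) = c • G (cl ξ) w ∧
          ∀ w' ∈ Metric.ball (0 : Fin e × Fin A.d × Fin 3 → ℂ) 1,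
            ‖c • G (cl ξ) w'‖ ≤ C * ‖th2 (act (zr (g ξ)) τ)‖ := by
  classical
  obtain ⟨r, C, hr, hC, harn⟩ := harn hτ.1
  obtain ⟨ε, hε, hch⟩ := chart hτ.1 hr
  refine ⟨max C 1, le_max_right _ _, fun j => ?_⟩
  obtain ⟨k₁, g1⟩ := gv_ex (L := L) (l₁ := l₁) hP.pos hτ.1 z j
  obtain ⟨k₂, g2⟩ := gv_bd (L := L) (l₁ := l₁) z k₁
  obtain ⟨k₃, g3⟩ := Psi_near z.toMor
  obtain ⟨k₄, g4⟩ := exists_pow ε⁻¹
  obtain ⟨k₅, g5⟩ := cell (L := L) (l₁ := l₁) z k₁ (k₃ + k₄)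
  refine ⟨(k₁ + k₂ + k₅ + 7) * (2 * Fintype.card (ν × ν) + 12 * e),
    fun F LM H A S _ g M D hH hM hg hL hD => ?_⟩
  obtain ⟨ρ, hρ, hρM⟩ := cells_root hM A.d1
  have hH' : (2 : ℝ) ≤ H := by exact_mod_cast hH
  have hM' : (0 : ℝ) < M := by exact_mod_cast hM
  have h1 : ∀ ξ, ∃ c R, ξ ∉ D → Gv A (g ξ) M ρ ((H : ℝ) ^ k₁) c R := fun ξ => by
    by_cases h : ξ ∈ D
    · exact ⟨0, 0, fun h' => absurd h h'⟩
    · obtain ⟨c, R, h2⟩ := g1 F LM H A (g ξ) M ρ hH hM (hg ξ) hρ hρM (hL ξ) (hD ξ h)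
      exact ⟨c, R, fun _ => h2⟩
  choose c R hc using h1
  obtain ⟨cl, ref, hcl⟩ := boxes D (fun ξ => cells_dat ((H : ℝ) ^ k₅) ρ (c ξ) (R ξ))
    (H ^ (k₁ + k₂ + k₅ + 5)) fun ξ hξ => by
      obtain ⟨h2, h3, h4, -⟩ := g2 F LM H A (g ξ) M ρ _ _ hH hM (hg ξ) hρ hρM (hc ξ hξ)
      exact cells_bd (by linarith) hH (hc ξ hξ).le h2 h3 h4
  obtain ⟨P, hP'⟩ : ∃ P : (Fin e × Fin A.d × Fin 3 → ℂ) → MC ι,
      P = fun w => Psi z.toMor A.ψ (1 + ((H : ℂ) ^ (k₃ + k₄))⁻¹ • Yw w) := ⟨_, rfl⟩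
  have h2 : ∀ w ∈ Metric.ball (0 : Fin e × Fin A.d × Fin 3 → ℂ) 1, (dc (P w) τ).det ≠ 0 ∧
      (∀ i j, ‖ac (P w) τ i j - τ i j‖ ≤ r) ∧ InH (ac (P w) τ) := fun w hw => by
    have h3 : (H : ℝ) ^ k₃ * ‖((H : ℂ) ^ (k₃ + k₄))⁻¹‖ = ((H : ℝ) ^ k₄)⁻¹ := by
      rw [norm_inv, norm_pow, Complex.norm_natCast, pow_add]
      field_simp
    have h4 := g3 H A.d A.ψ hH' (cj A) _ _ (norm_nonneg _)
      (h3 ▸ inv_le_one_of_one_le₀ (one_le_pow₀ (by linarith))) (cells_Yw hw _)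
    obtain ⟨h5, h6, h7⟩ := hch (P w) fun i j => by
      rw [hP']
      refine (h4 i j).trans ?_
      rw [h3]
      exact inv_le_of_inv_le₀ hε (g4 H hH')
    exact ⟨h5, h6, h7 _ (St_Sc hP hτ _ _) (by rw [hP']; exact Psi_form _ (cj A) _)⟩
  refine ⟨_, cl, fun k w => th2 (act (zr (g (ref k))) (ac (P w) τ)), ?_, fun k => ?_,
    fun ξ hξ => ?_⟩
  · have h3 : 2 * H ^ (k₁ + k₂ + k₅ + 5) + 1 ≤ H ^ (k₁ + k₂ + k₅ + 7) := by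
      have h4 : 0 < H ^ (k₁ + k₂ + k₅ + 5) := by positivity
      have h5 : 2 ^ 2 ≤ H ^ 2 := Nat.pow_le_pow_left hH 2
      have h6 : H ^ (k₁ + k₂ + k₅ + 7) = H ^ (k₁ + k₂ + k₅ + 5) * H ^ 2 := by ring
      rw [h6]
      nlinarith
    refine (Nat.pow_le_pow_left h3 _).trans ?_
    rw [← pow_mul]
    refine Nat.pow_le_pow_right (by omega) (Nat.mul_le_mul_left _ ?_)
    have h4 := Nat.mul_le_mul_left e A.d3
    simp only [Fintype.card_sum (α := ν × ν), Fintype.card_prod (Fin e),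
      Fintype.card_prod (Fin A.d), Fintype.card_prod (Fin 2), Fintype.card_fin]
    nlinarith
  · exact diff_t2 (hg _) hM' (fun i j => by rw [hP']; exact Psi_diff _ _ _ i j)
      (fun w hw => (h2 w hw).1) fun w hw => (h2 w hw).2.2
  obtain ⟨h3, h4⟩ := hcl ξ hξ
  obtain ⟨h5, h6, h7⟩ := cells_eq (by positivity) (by linarith) h4
  obtain ⟨γ, w, v, a1, a2, a3, a4⟩ := g5 F LM H A (g ξ) (g (ref (cl ξ))) M ρ _ _ _ _ hH hM (hg _)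
    (hg _) hρ hρM (hc ξ hξ) (hc _ h3) h5 h6 h7
  have a5 := Metric.ball_subset_ball (by norm_num : (1 / 2 : ℝ) ≤ 1) a3
  obtain ⟨b1, b2, b3⟩ := h2 w a5
  have b4 := inH_act (hg (ref (cl ξ))) hM' b3
  have b5 : act (zr (g ξ)) τ = act (zr γ) (act (zr (g (ref (cl ξ)))) (ac (P w) τ)) := by
    rw [← act_mul (den_det_ne_zero (hg _) hM' b3) (den_det_ne_zero a1 one_pos b4)]
    refine act_eq (a1.mul (hg _)) (by linarith) (hg ξ) hM' hτ.1 b1 b3 (St_Sc hP hτ z.toMor v) ?_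
    rw [← cells_zr, cells_cx, cells_cx, a4, hP']
  obtain ⟨c', hc'⟩ := t2_lev a1 a2 b4
  have b6 : th2 (act (zr (g ξ)) τ) = c' • th2 (act (zr (g (ref (cl ξ)))) (ac (P w) τ)) := by
    rw [b5]
    exact hc'
  refine ⟨w, a3, c', b6, fun w' hw' => ?_⟩
  have b7 := harn _ _ hM' (hg (ref (cl ξ))) _ _ (h2 w' hw').2.2 b3 (h2 w' hw').2.1 b2
  rw [b6, norm_smul, norm_smul, mul_left_comm]
  exact mul_le_mul_of_nonneg_left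
    (b7.trans (mul_le_mul_of_nonneg_right (le_max_left _ _) (norm_nonneg _))) (norm_nonneg _)

end MG.Bx
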