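import Pool.Agent.Lib.MP_33b3f9_ag.M4.DetC

/-! The product formula over a Galois orbit: few points have a tiny coordinate. -/

set_option autoImplicit false

noncomputable section

namespace MG.Bx

open Pool.Agent.M4.Det Finset

variable {S ι : Type} [Fintype S] [Fintype ι]

/-- The norm of a nonzero algebraic integer, the identity embedding kept apart. -/
theorem le_norm_mul (K : IntermediateField ℚ ℂ) [FiniteDimensional ℚ K] {z : ℂ} (hK : z ∈ K)
    (hz : IsIntegral ℤ z) (h0 : z ≠ 0) {C : ℝ} (hC : ∀ φ : ℂ →+* ℂ, ‖φ z‖ ≤ C) :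
    C ≤ ‖z‖ * C ^ Module.finrank ℚ K := by
  classical
  have hC0 : 0 ≤ C := (norm_nonneg _).trans (hC (RingHom.id ℂ))
  let x : K := ⟨z, hK⟩
  have hx : IsIntegral ℤ x := (isIntegral_algHom_iff (K.val.restrictScalars ℤ)
    K.val.injective).1 hz
  obtain ⟨n, hn⟩ := IsIntegrallyClosed.isIntegral_iff.1 (Algebra.isIntegral_norm ℚ hx)
  have hp := Algebra.norm_eq_prod_embeddings ℚ ℂ x
  rw [← hn] at hp
  have hp' : (n : ℂ) = ∏ σ : K →ₐ[ℚ] ℂ, σ x := by simpa using hp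
  have hn0 : n ≠ 0 := fun h => by
    rw [h, Int.cast_zero, eq_comm, prod_eq_zero_iff] at hp'
    obtain ⟨σ, -, hσ⟩ := hp'
    exact h0 (congrArg Subtype.val ((map_eq_zero σ).1 hσ))
  have h1 : (1 : ℝ) ≤ ‖(n : ℂ)‖ := by
    rw [Complex.norm_intCast]
    exact_mod_cast Int.one_le_abs hn0
  rw [hp', norm_prod, ← mul_prod_erase univ (fun σ : K →ₐ[ℚ] ℂ => ‖σ x‖) (mem_univ K.val)] at h1
  have h2 : ∏ σ ∈ univ.erase K.val, ‖σ x‖ ≤ C ^ (univ.erase K.val).card := by
    rw [← prod_const]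
    refine prod_le_prod (fun _ _ => norm_nonneg _) fun σ _ => ?_
    obtain ⟨τ, hτ⟩ := exists_ext K σ.toRingHom
    exact (congrArg norm (hτ x)).symm.le.trans (hC τ.toRingHom)
  have h3 : (univ.erase K.val).card + 1 = Module.finrank ℚ K := by
    rw [card_erase_add_one (mem_univ _), card_univ, ← AlgHom.card ℚ K ℂ]
    rfl
  have h4 : 1 ≤ ‖z‖ * C ^ (univ.erase K.val).card :=
    h1.trans (mul_le_mul_of_nonneg_left h2 (norm_nonneg _))
  rw [← h3, pow_succ, ← mul_assoc]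
  exact le_mul_of_one_le_left hC0 h4

/-- (BP1) In each orbit at most one point in eight has a tiny coordinate. -/
theorem deep (K : IntermediateField ℚ ℂ) [FiniteDimensional ℚ K]
    (a : (ℂ ≃ₐ[K] ℂ) →* Equiv.Perm S) (y : S → ι → ℂ) (hy : ∀ σ s i, σ (y s i) = y (a σ s) i)
    (hi : ∀ s i, IsIntegral ℤ (y s i)) {B δ : ℝ} (hB1 : 2 ≤ B)
    (hB : ∀ (φ : ℂ →+* ℂ) s i, ‖φ (y s i)‖ ≤ B)
    (hδ : δ * B ^ (8 * Module.finrank ℚ K * Fintype.card ι) ≤ 1) (s : S) :
    8 * {t | t ∈ Set.range (fun σ => a σ s) ∧ ∃ i, y t i ≠ 0 ∧ ‖y t i‖ ≤ δ}.ncard ≤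
      (Set.range fun σ => a σ s).ncard := by
  classical
  let O : Finset S := univ.filter fun t => t ∈ Set.range fun σ => a σ s
  let D : Finset S := O.filter fun t => ∃ i, y t i ≠ 0 ∧ ‖y t i‖ ≤ δ
  have hO : (Set.range fun σ => a σ s) = (O : Set S) := by
    ext t; simp [O]
  have hD : {t | t ∈ Set.range (fun σ => a σ s) ∧ ∃ i, y t i ≠ 0 ∧ ‖y t i‖ ≤ δ} =
      (D : Set S) := by
    ext t; simp [D, O]
  rw [hD, hO, Set.ncard_coe_finset, Set.ncard_coe_finset]
  rcases D.eq_empty_or_nonempty with h | ⟨t0, ht0⟩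
  · simp [h]
  obtain ⟨i0, hi0, hi0'⟩ := (mem_filter.1 ht0).2
  have hδ0 : 0 < δ := (norm_pos_iff.2 hi0).trans_le hi0'
  have hc : 0 < Fintype.card ι := Fintype.card_pos_iff.2 ⟨i0⟩
  have hn : 0 < Module.finrank ℚ K := Module.finrank_pos
  have hB0 : (1 : ℝ) < B := by linarith
  let u : S → ι → ℂ := fun t i => if y t i = 0 then 1 else y t i
  have hu0 : ∀ t i, u t i ≠ 0 := fun t i => by
    by_cases h : y t i = 0 <;> simp [u, h]
  have hui : ∀ t i, IsIntegral ℤ (u t i) := fun t i => by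
    by_cases h : y t i = 0
    · simpa [u, h] using isIntegral_one
    · simpa [u, h] using hi t i
  have huB : ∀ (φ : ℂ →+* ℂ) t i, ‖φ (u t i)‖ ≤ B := fun φ t i => by
    by_cases h : y t i = 0
    · simpa [u, h] using hB0.le
    · simpa [u, h] using hB φ t i
  have huσ : ∀ (σ : ℂ ≃ₐ[K] ℂ) t i, σ (u t i) = u (a σ t) i := fun σ t i => by
    by_cases h : y t i = 0
    · have h' : y (a σ t) i = 0 := by rw [← hy, h, map_zero]
      simp [u, h, h']
    · have h' : y (a σ t) i ≠ 0 := by rw [← hy]; exact (map_ne_zero σ).2 h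
      simp [u, h, h', hy]
  let P : S → ℂ := fun t => ∏ i, u t i
  have hPB : ∀ (φ : ℂ →+* ℂ) t, ‖φ (P t)‖ ≤ B ^ Fintype.card ι := fun φ t => by
    rw [map_prod, norm_prod, ← card_univ, ← prod_const]
    exact prod_le_prod (fun _ _ => norm_nonneg _) fun i _ => huB φ t i
  have hPD : ∀ t ∈ D, ‖P t‖ ≤ δ * B ^ Fintype.card ι := fun t ht => by
    obtain ⟨i, h1, h2⟩ := (mem_filter.1 ht).2
    rw [norm_prod, ← mul_prod_erase univ (fun j => ‖u t j‖) (mem_univ i)]
    refine mul_le_mul (by simpa [u, h1] using h2) ?_ (prod_nonneg fun _ _ => norm_nonneg _) hδ0.le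
    refine le_trans (prod_le_prod (fun _ _ => norm_nonneg _)
      fun j _ => huB (RingHom.id ℂ) t j) ?_
    rw [prod_const]
    exact pow_le_pow_right₀ hB0.le (card_le_univ _)
  have hzi : IsIntegral ℤ (∏ t ∈ O, P t) :=
    IsIntegral.prod _ fun t _ => IsIntegral.prod _ fun i _ => hui t i
  have hz0 : ∏ t ∈ O, P t ≠ 0 :=
    prod_ne_zero_iff.2 fun t _ => prod_ne_zero_iff.2 fun i _ => hu0 t i
  have hzK : ∏ t ∈ O, P t ∈ K := mem_of_fixed K (hzi.tower_top (A := ℚ)).isAlgebraic fun σ => by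
    rw [map_prod]
    refine prod_equiv (a σ) (fun t => ?_) fun t _ => ?_
    · simp only [O, mem_filter, mem_univ, true_and, Set.mem_range]
      refine ⟨fun ⟨τ, hτ⟩ => ⟨σ * τ, by rw [map_mul, Equiv.Perm.mul_apply, hτ]⟩,
        fun ⟨τ, hτ⟩ => ⟨σ⁻¹ * τ, ?_⟩⟩
      rw [map_mul, Equiv.Perm.mul_apply, hτ, map_inv]
      exact (a σ).symm_apply_apply t
    · simp only [P, map_prod, huσ]
  have h1 := le_norm_mul K hzK hzi hz0 (C := (B ^ Fintype.card ι) ^ O.card) fun φ => by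
    rw [map_prod, norm_prod, ← prod_const]
    exact prod_le_prod (fun _ _ => norm_nonneg _) fun t _ => hPB φ t
  have h2 : ‖∏ t ∈ O, P t‖ ≤ δ ^ D.card * (B ^ Fintype.card ι) ^ O.card := by
    have e : δ ^ D.card = ∏ t ∈ O, if ∃ i, y t i ≠ 0 ∧ ‖y t i‖ ≤ δ then δ else 1 := by
      rw [← prod_filter, prod_const]
    rw [norm_prod, e, ← prod_const, ← prod_mul_distrib]
    refine prod_le_prod (fun _ _ => norm_nonneg _) fun t ht => ?_
    split_ifs with h
    · exact hPD t (mem_filter.2 ⟨ht, h⟩)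
    · rw [one_mul]
      exact hPB (RingHom.id ℂ) t
  have hC : (0 : ℝ) < (B ^ Fintype.card ι) ^ O.card := by positivity
  have h3 : 1 ≤ δ ^ D.card * ((B ^ Fintype.card ι) ^ O.card) ^ Module.finrank ℚ K := by
    refine le_of_mul_le_mul_left ?_ hC
    rw [mul_one]
    refine h1.trans ((mul_le_mul_of_nonneg_right h2 (by positivity)).trans (le_of_eq ?_))
    ring
  have h4 : (B ^ (8 * Module.finrank ℚ K * Fintype.card ι)) ^ D.card ≤
      ((B ^ Fintype.card ι) ^ O.card) ^ Module.finrank ℚ K := by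
    have h5 : (δ * B ^ (8 * Module.finrank ℚ K * Fintype.card ι)) ^ D.card ≤ 1 :=
      pow_le_one₀ (by positivity) hδ
    rw [mul_pow] at h5
    exact le_of_mul_le_mul_left (h5.trans h3) (by positivity)
  rw [← pow_mul, ← pow_mul, ← pow_mul, pow_le_pow_iff_right₀ hB0] at h4
  refine Nat.le_of_mul_le_mul_left (le_of_eq_of_le ?_ (h4.trans (le_of_eq ?_))) (Nat.mul_pos hn hc)
  · ring
  · ring

end MG.Bx
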