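import Pool.Agent.Lib.MP_33b3f9_ag.MG.SDefs
import Pool.Agent.Lib.MP_33b3f9_ag.MG.MorA
import Pool.Agent.Lib.MP_33b3f9_ag.M8.E3.Vf
import Pool.Agent.Lib.MP_33b3f9_ag.MF.An.Defs

/-!
Definitions for the boxes.
-/

set_option autoImplicit false

noncomputable section

namespace MG.Bx

open Matrix M4 Pool.Agent.M4.Mx

/-- Constants are absorbed in powers. -/
theorem exists_pow (C : ℝ) : ∃ k : ℕ, ∀ H : ℝ, 2 ≤ H → C ≤ H ^ k := by
  obtain ⟨k, hk⟩ := pow_unbounded_of_one_lt C (one_lt_two (α := ℝ))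
  exact ⟨k, fun H hH => hk.le.trans (pow_le_pow_left₀ zero_le_two hH k)⟩

/-- The image of `g` on the Lagrangian of `τ` lies in that Lagrangian. -/
def St {ι : Type} [Fintype ι] [DecidableEq ι] (τ : Matrix ι ι ℂ) (g : M8.E3.MC ι) : Prop :=
  ∃ Z : Matrix ι ι ℂ, g * M8.E3.cl' τ = M8.E3.cl' τ * Z

/-- The nilpotent matrix with image and kernel the line of `w`. -/
def nil {R : Type} [CommRing R] (w : Fin 2 → R) : M2 R := vecMulVec w ![-w 1, w 0]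

/-- Index set of the rational basis. -/
abbrev IA (e d : ℕ) : Type := Fin e × Fin d × Fin 2 × Fin 2

/-- The matrices with upper left entry zero. -/
def Yw {e d : ℕ} (w : Fin e × Fin d × Fin 3 → ℂ) : Fin e → Fin d → M2 ℂ :=
  fun s t => !![0, w (s, t, 0); w (s, t, 1), w (s, t, 2)]

/-- Commuting copies of the matrix algebra, of height `H`. -/
structure Cj {e d : ℕ} (ψ : Fin e → Fin d → M2 ℂ →ₐ[ℂ] M8 ℂ) (H : ℝ) : Prop where
  d3 : d ≤ 3
  comm : ∀ s t t' x y, t ≠ t' → Commute (ψ s t x) (ψ s t' y)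
  adj : ∀ s t x, (ψ s t x)ᵀ * J (Fin 4) ℂ = J (Fin 4) ℂ * ψ s t (adjugate x)
  le : ∀ s t p q i j, ‖ψ s t (single p q 1) i j‖ ≤ H

variable [Dim] {e : ℕ} {a b : MZ}

/-- The product of the conjugates. -/
def Psi (z : Mor e a b ℂ) {d : ℕ} (ψ : Fin e → Fin d → M2 ℂ →ₐ[ℂ] M8 ℂ)
    (x : Fin e → Fin d → M2 ℂ) : Matrix ν ν ℂ :=
  z.em fun s => (List.ofFn fun t => ψ s t (x s t)).prod

/-- Scalars in each block. -/
def Sc (z : Mor e a b ℂ) (c : Fin e → ℂ) : Matrix ν ν ℂ := z.em fun s => c s • 1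

/-- The nilpotent matrix of the lines `w s` in the slots `i s`. -/
def Nw {R : Type} [CommRing R] (F : Fm e a b R) (i : Fin e → Fin 3) (w : Fin e → Fin 2 → R) :
    Matrix ν ν R := F.T fun s => Function.update 1 (i s) (nil (w s))

/-- The kernel of a matrix modulo `l`. -/
def kz {l : ℕ} (N : Matrix ν ν (ZMod l)) : AddSubgroup (ν → ℤ) where
  carrier := {x | N *ᵥ Kz.vZ l x = 0}
  zero_mem' := by
    have : Kz.vZ l (0 : ν → ℤ) = 0 := by funext i; simp [Kz.vZ]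
    rw [Set.mem_ofPred_eq, this, mulVec_zero]
  add_mem' := fun {x y} hx hy => by
    rw [Set.mem_ofPred_eq] at hx hy ⊢
    rw [Kz.vZ_add, mulVec_add, hx, hy, add_zero]
  neg_mem' := fun {x} hx => by
    have : Kz.vZ l (-x) = -Kz.vZ l x := by funext i; simp [Kz.vZ]
    rw [Set.mem_ofPred_eq] at hx ⊢
    rw [this, mulVec_neg, hx, neg_zero]

theorem mem_kz {l : ℕ} {N : Matrix ν ν (ZMod l)} {x : ν → ℤ} :
    x ∈ kz N ↔ N *ᵥ Kz.vZ l x = 0 := Iff.rfl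

variable {L : Type} [Field L] {l₁ : ℕ} {z : MorD e a b ℂ} {F : Frs e a b L l₁}
  {LM : Finset (GP L l₁)} {H : ℕ}

/-- The element of the algebra with coordinates `c`. -/
def el (A : SA z F LM H) (c : IA e A.d → ℤ) : Fin e → Fin A.d → M2 ℂ := ∑ j, c j • A.B j

theorem cj (A : SA z F LM H) : Cj A.ψ H := ⟨A.d3, A.comm, A.adj, A.ψ_le⟩

theorem nm_eq (A : SA z F LM H) (c : IA e A.d → ℤ) :
    zM ℂ (A.Nm c) = (A.m : ℂ) • Psi z.toMor A.ψ (el A c) := A.nm c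

/-- A short nonsingular vector for the lattice of `g`. -/
structure Gv (A : SA z F LM H) (g : MZ) (M : ℕ) (ρ T : ℝ) (c : IA e A.d → ℤ) (R : MZ) : Prop where
  eq : (M : ℤ) • R = g * A.Nm c
  le : ∀ q, |(c q : ℝ)| ≤ T * ρ
  ne : ∀ s t, (el A c s t).det ≠ 0

/-- A sublattice of small index on which `g * Nm c` is divisible by `M`. -/
def Lam (A : SA z F LM H) (g : MZ) (M : ℕ) : Prop :=
  ∃ Λ : AddSubgroup (IA e A.d → ℤ), Λ.index ≠ 0 ∧ Λ.index ≤ M ^ (2 * e) ∧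
    ∀ c ∈ Λ, ∃ R : MZ, (M : ℤ) • R = g * A.Nm c

/-- `g'` is attached to the conjugate under `σ` of the lattice of `g`. -/
def Tw {K : IntermediateField ℚ ℂ} (r : Rep K) (σ : ℂ ≃ₐ[K] ℂ) (g g' : MZ) : Prop :=
  ∃ W : ∀ (l : ℕ) [Fact l.Prime], Matrix ν ν ℤ_[l], ∀ (l : ℕ) [Fact l.Prime],
    zM ℤ_[l] g' * (r l σ : Matrix ν ν ℤ_[l]) = W l * zM ℤ_[l] g

end MG.Bx
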