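import Pool.Agent.Lib.MP_33b3f9_ag.MG.Bx.Defs
import Pool.Agent.Lib.MP_33b3f9_ag.MG.C1.Slot

/-!
The kernels attached to lines.
-/

set_option autoImplicit false

noncomputable section

namespace MG.Bx

open Matrix M4 Pool.Agent.M4.Mx Pool.Agent.M4.Det M8.E3 MF.An

section two

variable {k : Type} [Field k]

theorem slot_ex (w : Fin 2 → k) : nil w = !![-(w 0 * w 1), w 0 * w 0; -(w 1 * w 1), w 1 * w 0] := by
  ext p q
  fin_cases p <;> fin_cases q <;> simp [nil, vecMulVec_apply]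

theorem slot_nn (w' w : Fin 2 → k) : nil w' * nil w = wd w' w • vecMulVec w' ![-w 1, w 0] := by
  ext p q
  fin_cases p <;> fin_cases q <;> simp [nil, wd, mul_apply] <;> ring

theorem slot_sq (w : Fin 2 → k) : nil w * nil w = 0 := by
  rw [slot_nn, show wd w w = 0 by rw [wd]; ring, zero_smul]

theorem slot_u {w : Fin 2 → k} (hw : w ≠ 0) : (![-w 1, w 0] : Fin 2 → k) ≠ 0 := fun h =>
  hw (by funext t; fin_cases t; simpa using congrFun h 1; simpa using congrFun h 0)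

theorem slot_adj (w : Fin 2 → k) : adjugate (nil w) = -nil w := by
  ext p q
  fin_cases p <;> fin_cases q <;> simp [nil, adjugate_fin_two, mul_comm]

theorem slot_inv {w : Fin 2 → k} (hw : w ≠ 0) : ∃ x : M2 k, nil w * x + x * nil w = 1 := by
  by_cases h0 : w 0 = 0
  · have h1 : w 1 ≠ 0 := fun h1 => hw (by funext t; fin_cases t <;> simp [h0, h1])
    refine ⟨!![0, -(w 1 * w 1)⁻¹; 0, 0], ?_⟩
    ext p q
    fin_cases p <;> fin_cases q <;> simp [slot_ex, h0] <;> field_simp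
  · refine ⟨!![0, 0; (w 0 * w 0)⁻¹, 0], ?_⟩
    ext p q
    fin_cases p <;> fin_cases q <;> simp [slot_ex] <;> field_simp <;> ring

theorem slot_conj (h : M2 k) (w : Fin 2 → k) : nil (h *ᵥ w) * h = h.det • (h * nil w) := by
  ext p q
  fin_cases p <;> fin_cases q <;>
    simp [nil, mul_apply, det_fin_two, mulVec, dotProduct] <;> ring

theorem slot_T0 (f : Fr ω k) {h : Fin 3 → M2 k} {i : Fin 3} (hi : h i = 0) : f.T h = 0 := by
  rw [Fr.T, C1.slot_tp_zero hi, Matrix.mul_zero, Matrix.zero_mul]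

theorem slot_uT (f : Fr ω k) (h : Fin 3 → M2 k) (i : Fin 3) (w : Fin 2 → k) :
    f.u i (nil (h i *ᵥ w)) * f.T h = (h i).det • (f.T h * f.u i (nil w)) := by
  have e1 : Function.update (1 : Fin 3 → M2 k) i (nil (h i *ᵥ w)) * h =
      Function.update h i ((h i).det • (h i * nil w)) := by
    rw [← slot_conj]
    funext t
    by_cases ht : t = i
    · simp [ht]
    · simp [ht]
  have e2 : h * Function.update (1 : Fin 3 → M2 k) i (nil w) = Function.update h i (h i * nil w) := by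
    funext t
    by_cases ht : t = i
    · simp [ht]
    · simp [ht]
  rw [Fr.u_apply, Fr.u_apply, Fr.T_mul, Fr.T_mul, e1, e2, Fr.T, Fr.T, tp_update_smul,
    Matrix.mul_smul, Matrix.smul_mul]

theorem slot_uinj (f : Fr ω k) (i : Fin 3) {x : M2 k} (h : f.u i x = 0) : x = 0 :=
  (injective_iff_map_eq_zero _).1 (RingHom.injective (f.u i).toRingHom) x h

end two

variable [Dim] {e : ℕ} {a b : MZ} {m n : ℕ} {τ : Mat}

section slot

variable {l : ℕ} [Fact l.Prime] (F : Fm e a b (ZMod l)) (i : Fin e → Fin 3)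

omit [Fact l.Prime] in
theorem slot_Nw (w : Fin e → Fin 2 → ZMod l) :
    Nw F i w = F.z.em fun s => (F.f s).u (i s) (nil (w s)) := rfl

theorem slot_NN (w' w : Fin e → Fin 2 → ZMod l) :
    Nw F i w' * Nw F i w = F.z.em fun s => (F.f s).u (i s) (nil (w' s) * nil (w s)) := by
  rw [slot_Nw, slot_Nw, ← map_mul]
  exact congrArg _ (funext fun s => (map_mul _ _ _).symm)

theorem slot_N2 (w : Fin e → Fin 2 → ZMod l) : Nw F i w * Nw F i w = 0 := by
  rw [slot_NN, ← map_zero F.z.em]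
  exact congrArg _ (funext fun s => by rw [slot_sq, map_zero]; rfl)

theorem slot_ne {h : Fin e → Fin 3 → M2 (ZMod l)} (hu : IsUnit (F.T h)) (s : Fin e) (j : Fin 3)
    {w : Fin 2 → ZMod l} (hw : w ≠ 0) : h s j *ᵥ w ≠ 0 := fun h0 => by
  have h1 : F.T h * F.z.em (Pi.single s ((F.f s).u j (nil w))) = 0 := by
    rw [Fm.T, ← map_mul, ← map_zero F.z.em]
    refine congrArg _ (funext fun t => ?_)
    by_cases ht : t = s
    · subst ht
      rw [Pi.mul_apply, Pi.single_eq_same, Fr.u_apply, Fr.T_mul]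
      refine slot_T0 _ (i := j) ?_
      rw [Pi.mul_apply, Function.update_self, nil, mul_vecMulVec, h0, zero_vecMulVec]
    · rw [Pi.mul_apply, Pi.single_eq_of_ne ht, Matrix.mul_zero]; rfl
  have h2 := congrFun (F.z.em_inj ((hu.mul_right_eq_zero.1 h1).trans (map_zero _).symm)) s
  rw [Pi.single_eq_same] at h2
  exact (vecMulVec_eq_zero.1 (slot_uinj _ _ h2)).elim hw (slot_u hw)

theorem Nw_lag {w : Fin e → Fin 2 → ZMod l} (hw : ∀ s, w s ≠ 0) : Lag l (kz (Nw F i w)) := by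
  choose x hx using fun s => slot_inv (hw s)
  have h1 : Nw F i w * F.z.em (fun s => (F.f s).u (i s) (x s)) +
      F.z.em (fun s => (F.f s).u (i s) (x s)) * Nw F i w = 1 := by
    rw [slot_Nw, ← map_mul, ← map_mul, ← map_add, ← map_one F.z.em]
    refine congrArg _ (funext fun s => ?_)
    simp only [Pi.add_apply, Pi.mul_apply, ← map_mul, ← map_add, hx, map_one, Pi.one_apply]
  refine C1.slot_lag (N := Nw F i w) (N' := -Nw F i w) ?_ (fun y => ?_) fun y => ⟨fun hy => ?_, ?_⟩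
  · have h2 := (F.z.form_iff (fun s => (F.f s).u (i s) (nil (w s))) 1
      (-fun s => (F.f s).u (i s) (nil (w s)))).2 fun s => by
        rw [Pi.one_apply, Matrix.mul_one, F.adj, slot_adj, map_neg]; rfl
    rwa [map_one, Matrix.mul_one, map_neg] at h2
  · rw [neg_mulVec, neg_eq_zero]; rfl
  · refine ⟨F.z.em (fun s => (F.f s).u (i s) (x s)) *ᵥ Kz.vZ l y, ?_⟩
    have h2 := congrArg (· *ᵥ Kz.vZ l y) h1
    simp only [add_mulVec, one_mulVec, ← mulVec_mulVec, mem_kz.1 hy, mulVec_zero, add_zero] at h2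
    exact h2.symm
  · rintro ⟨z, hz⟩
    rw [mem_kz, show Kz.vZ l y = _ from hz, mulVec_mulVec, slot_N2, zero_mulVec]

theorem Nw_stab (w : Fin e → Fin 2 → ZMod l) {x : ν → ℤ} (hx : x ∈ kz (Nw F i w)) :
    a *ᵥ x ∈ kz (Nw F i w) ∧ b *ᵥ x ∈ kz (Nw F i w) := by
  have key : ∀ g : MZ, Commute (zM (ZMod l) g) (Nw F i w) → g *ᵥ x ∈ kz (Nw F i w) := fun g hg => by
    have h1 : Kz.vZ l (g *ᵥ x) = zM (ZMod l) g *ᵥ Kz.vZ l x := by
      funext p
      simp [Kz.vZ, mulVec, dotProduct]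
    rw [mem_kz, h1, mulVec_mulVec, ← hg.eq, ← mulVec_mulVec, mem_kz.1 hx, mulVec_zero]
  exact ⟨key a (F.z.comm_a _), key b (F.z.comm_b _)⟩

theorem Nw_act {h : Fin e → Fin 3 → M2 (ZMod l)} (hu : IsUnit (F.T h))
    {w : Fin e → Fin 2 → ZMod l} (hw : ∀ s, w s ≠ 0) : (∀ s, h s (i s) *ᵥ w s ≠ 0) ∧
      ∀ v, Nw F i (fun s => h s (i s) *ᵥ w s) *ᵥ F.T h *ᵥ v = 0 ↔ Nw F i w *ᵥ v = 0 := by
  refine ⟨fun s => slot_ne F hu s _ (hw s), fun v => ?_⟩
  have hd : ∀ s, (h s (i s)).det ≠ 0 := fun s h0 => by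
    obtain ⟨y, hy, h1⟩ := exists_mulVec_eq_zero_iff.2 h0
    exact slot_ne F hu s _ hy h1
  have h1 : IsUnit (F.z.em fun s => (h s (i s)).det • (1 : M8 (ZMod l))) :=
    IsUnit.map _ (Pi.isUnit_iff.2 fun s => by
      rw [← Algebra.algebraMap_eq_smul_one]
      exact (hd s).isUnit.map _)
  have h2 : Nw F i (fun s => h s (i s) *ᵥ w s) * F.T h =
      (F.z.em fun s => (h s (i s)).det • (1 : M8 (ZMod l))) * F.T h * Nw F i w := by
    rw [slot_Nw, slot_Nw, Fm.T, ← map_mul, ← map_mul, ← map_mul]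
    refine congrArg _ (funext fun s => ?_)
    simp only [Pi.mul_apply, slot_uT, Matrix.smul_mul, Matrix.one_mul]
  rw [mulVec_mulVec, h2, ← mulVec_mulVec]
  exact ⟨fun h3 => mulVec_injective_of_isUnit (h1.mul hu) (h3.trans (mulVec_zero _).symm),
    fun h3 => by rw [h3, mulVec_zero]⟩

theorem Nw_inj {w w' : Fin e → Fin 2 → ZMod l} (hw : ∀ s, w s ≠ 0) (hw' : ∀ s, w' s ≠ 0)
    (h : kz (Nw F i w) = kz (Nw F i w')) (s : Fin e) : wd (w s) (w' s) = 0 := by
  have h1 : Nw F i w * Nw F i w' = 0 := ext_iff_mulVec.2 fun v => by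
    have h2 : Kz.lift (Nw F i w' *ᵥ v) ∈ kz (Nw F i w') := by
      rw [mem_kz, Kz.vZ_lift, mulVec_mulVec, slot_N2, zero_mulVec]
    rw [← h, mem_kz, Kz.vZ_lift] at h2
    rw [← mulVec_mulVec, h2, zero_mulVec]
  rw [slot_NN] at h1
  have h2 := slot_uinj _ _ (congrFun (F.z.em_inj (h1.trans (map_zero _).symm)) s)
  rw [slot_nn, smul_eq_zero, vecMulVec_eq_zero] at h2
  exact h2.resolve_right fun h3 => h3.elim (hw s) (slot_u (hw' s))

theorem Nw_T {w : Fin e → Fin 2 → ZMod l} {h : Fin e → Fin 3 → M2 (ZMod l)}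
    (hh : ∀ s j, wd (w s) (fun p => h s (i s) p j) = 0) : Nw F i w * F.T h = 0 := by
  rw [Nw, Fm.T, Fm.T, ← map_mul, ← map_zero F.z.em]
  refine congrArg _ (funext fun s => ?_)
  rw [Pi.mul_apply, Fr.T_mul]
  refine slot_T0 _ (i := i s) ?_
  rw [Pi.mul_apply, Function.update_self]
  ext p q
  have h1 := hh s q
  simp only [wd] at h1
  simp only [nil, mul_apply, vecMulVec_apply, Fin.sum_univ_two, cons_val_zero, cons_val_one,
    Matrix.zero_apply]
  linear_combination w s p * h1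

end slot

end MG.Bx
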