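import Pool.Agent.Lib.MP_33b3f9_ag.MG.Bx.Mat
import Pool.Agent.Lib.MP_33b3f9_ag.MG.Bx.Slot

/-!
The family of lattices.
-/

set_option autoImplicit false

noncomputable section

namespace MG.Bx

open Matrix M4 Pool.Agent.M4.Mx Pool.Agent.M4.Det M8.E3 MF.An

variable [Dim] {e : ℕ} {a b : MZ} {m n : ℕ} {τ : Mat}

variable {K : IntermediateField ℚ ℂ} {r : Rep K} {L : Type} [Field L] {l₁ : ℕ}

/-- The image of a subgroup under a matrix modulo `l`. -/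
def fam_mv {l : ℕ} (B : Matrix ν ν (ZMod l)) (G : AddSubgroup (ν → ℤ)) : AddSubgroup (ν → ℤ) where
  carrier := {x | ∃ y ∈ G, Kz.vZ l x = B *ᵥ Kz.vZ l y}
  zero_mem' := ⟨0, G.zero_mem, by
    have : Kz.vZ l (0 : ν → ℤ) = 0 := by funext i; simp [Kz.vZ]
    rw [this, mulVec_zero]⟩
  add_mem' := by
    rintro x x' ⟨y, hy, h⟩ ⟨y', hy', h'⟩
    exact ⟨y + y', G.add_mem hy hy', by rw [Kz.vZ_add, Kz.vZ_add, mulVec_add, h, h']⟩
  neg_mem' := by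
    rintro x ⟨y, hy, h⟩
    have e : ∀ x : ν → ℤ, Kz.vZ l (-x) = -Kz.vZ l x := fun x => by funext i; simp [Kz.vZ]
    exact ⟨-y, G.neg_mem hy, by rw [e, e, mulVec_neg, h]⟩

theorem fam_mv_mul {l : ℕ} [NeZero l] (B B' : Matrix ν ν (ZMod l)) (G : AddSubgroup (ν → ℤ)) :
    fam_mv (B * B') G = fam_mv B (fam_mv B' G) := by
  ext x
  constructor
  · rintro ⟨y, hy, h⟩
    exact ⟨Kz.lift (B' *ᵥ Kz.vZ l y), ⟨y, hy, Kz.vZ_lift _⟩, by
      rw [Kz.vZ_lift, mulVec_mulVec, h]⟩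
  · rintro ⟨y, ⟨z, hz, h'⟩, h⟩
    exact ⟨z, hz, by rw [h, h', mulVec_mulVec]⟩

theorem fam_mv_kz {l : ℕ} [NeZero l] {B B' N N' : Matrix ν ν (ZMod l)} (hB : B * B' = 1)
    (h : ∀ v, N' *ᵥ B *ᵥ v = 0 ↔ N *ᵥ v = 0) : fam_mv B (kz N) = kz N' := by
  ext x
  constructor
  · rintro ⟨y, hy, e⟩
    rw [mem_kz, e]
    exact (h _).2 hy
  · intro hx
    have e : B *ᵥ B' *ᵥ Kz.vZ l x = Kz.vZ l x := by rw [mulVec_mulVec, hB, one_mulVec]
    refine ⟨Kz.lift (B' *ᵥ Kz.vZ l x), ?_, by rw [Kz.vZ_lift, e]⟩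
    rw [mem_kz, Kz.vZ_lift, ← h, e]
    exact hx

theorem fam_rb_one (r : Rep K) (l : ℕ) [Fact l.Prime] : rb r l 1 = 1 := by
  rw [rb, map_one, Units.val_one, Matrix.map_one _ (map_zero _) (map_one _)]

theorem fam_rb_mul (r : Rep K) (l : ℕ) [Fact l.Prime] (σ σ' : ℂ ≃ₐ[K] ℂ) :
    rb r l (σ * σ') = rb r l σ * rb r l σ' := by
  rw [rb, rb, rb, map_mul, Units.val_mul, Matrix.map_mul]

theorem fam_mem_ker {l : ℕ} (g : MZ) (x : ν → ℤ) :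
    x ∈ Ker g l ↔ zM (ZMod l) g *ᵥ Kz.vZ l x = 0 := by
  have e : ∀ i, (zM (ZMod l) g *ᵥ Kz.vZ l x) i = (((g *ᵥ x) i : ℤ) : ZMod l) := fun i => by
    simp [zM, Kz.vZ, mulVec, dotProduct]
  change (∀ i, (l : ℤ) ∣ (g *ᵥ x) i) ↔ _
  rw [funext_iff]
  exact forall_congr' fun i => by rw [e, Pi.zero_apply, ZMod.intCast_zmod_eq_zero_iff_dvd]

/-- The kernels attached to tuples of lines. -/
def fam_SL {l : ℕ} (F : Fm e a b (ZMod l)) (i : Fin e → Fin 3) : Set (AddSubgroup (ν → ℤ)) :=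
  {G | ∃ w : Fin e → Fin 2 → ZMod l, (∀ s, w s ≠ 0) ∧ G = kz (Nw F i w)}

theorem fam_card (he : 0 < e) {l : ℕ} [Fact l.Prime] (F : Fm e a b (ZMod l)) (i : Fin e → Fin 3) :
    (fam_SL F i).Finite ∧ l ≤ (fam_SL F i).ncard ∧ (fam_SL F i).ncard ≤ l ^ (2 * e) := by
  have h1 : fam_SL F i ⊆ (fun w => kz (Nw F i w)) '' Set.univ := by
    rintro _ ⟨w, -, rfl⟩
    exact ⟨w, trivial, rfl⟩
  have hf : ((fun w => kz (Nw F i w)) '' Set.univ).Finite := Set.finite_univ.image _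
  have h0 : ∀ t : ZMod l, (![1, t] : Fin 2 → ZMod l) ≠ 0 := fun t h => by
    simpa using congrFun h 0
  refine ⟨hf.subset h1, ?_, (Set.ncard_le_ncard h1 hf).trans ?_⟩
  · have := Set.ncard_le_ncard_of_injOn (s := (Set.univ : Set (ZMod l))) (t := fam_SL F i)
      (fun t => kz (Nw F i fun _ => ![1, t])) (fun t _ => ⟨_, fun _ => h0 t, rfl⟩)
      (fun t _ t' _ h => by
        have := Nw_inj F i (fun _ => h0 t) (fun _ => h0 t') h ⟨0, he⟩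
        simp only [wd, cons_val_zero, cons_val_one, one_mul, mul_one] at this
        exact (sub_eq_zero.1 this).symm) (hf.subset h1)
    rwa [Set.ncard_univ, Nat.card_zmod] at this
  · refine (Set.ncard_image_le Set.finite_univ).trans ?_
    rw [Set.ncard_univ, Nat.card_fun, Nat.card_fun, Nat.card_zmod, Nat.card_fin, Nat.card_fin,
      pow_mul]

theorem fam_mv_one {l : ℕ} [NeZero l] {F : Fm e a b (ZMod l)} {i : Fin e → Fin 3}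
    {G : AddSubgroup (ν → ℤ)} (hG : G ∈ fam_SL F i) : fam_mv (1 : Matrix ν ν (ZMod l)) G = G := by
  obtain ⟨w, -, rfl⟩ := hG
  exact fam_mv_kz (B' := 1) (mul_one _) fun v => by rw [one_mulVec]

theorem fam_mv_mem {F : Frs e a b L l₁} (hS : Sys F r) (l : GP L l₁) (i : Fin e → Fin 3)
    (σ : ℂ ≃ₐ[K] ℂ) {G : AddSubgroup (ν → ℤ)} (hG : G ∈ fam_SL (F.red l) i) :
    fam_mv (rb r l.1 σ) G ∈ fam_SL (F.red l) i := by
  obtain ⟨w, hw, rfl⟩ := hG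
  obtain ⟨h, hh⟩ := hS.im l σ
  have e1 : rb r l.1 σ = (F.red l).T fun s t => (h s t).map PadicInt.toZMod := by
    rw [rb, hh, Fm.map_T]
    rfl
  have e2 : rb r l.1 σ * rb r l.1 σ⁻¹ = 1 := by rw [← fam_rb_mul, mul_inv_cancel, fam_rb_one]
  have hu : IsUnit (rb r l.1 σ) := IsUnit.of_mul_eq_one _ e2
  rw [e1] at hu
  obtain ⟨h1, h2⟩ := Nw_act (F.red l) i hu hw
  rw [← e1] at h2
  exact ⟨_, h1, fam_mv_kz e2 h2⟩

/-- The Galois action on tuples. -/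
def fam_act {F : Frs e a b L l₁} (hS : Sys F r) {I : Type} (l : I → GP L l₁)
    (sl : GP L l₁ → Fin e → Fin 3) :
    (ℂ ≃ₐ[K] ℂ) →* Equiv.Perm (∀ i, fam_SL (F.red (l i)) (sl (l i))) :=
  MonoidHom.toHomPerm
    { toFun := fun σ ξ i => ⟨fam_mv (rb r (l i).1 σ) (ξ i).1, fam_mv_mem hS _ _ σ (ξ i).2⟩
      map_one' := by
        funext ξ i
        refine Subtype.ext ?_
        change fam_mv (rb r (l i).1 1) (ξ i).1 = (ξ i).1
        rw [fam_rb_one]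
        exact fam_mv_one (ξ i).2
      map_mul' := fun σ σ' => by
        funext ξ i
        refine Subtype.ext ?_
        change fam_mv (rb r (l i).1 (σ * σ')) (ξ i).1 =
          fam_mv (rb r (l i).1 σ) (fam_mv (rb r (l i).1 σ') (ξ i).1)
        rw [fam_rb_mul, fam_mv_mul] }

theorem fam_act_apply {F : Frs e a b L l₁} (hS : Sys F r) {I : Type} (l : I → GP L l₁)
    (sl : GP L l₁ → Fin e → Fin 3) (σ : ℂ ≃ₐ[K] ℂ) (ξ : ∀ i, fam_SL (F.red (l i)) (sl (l i)))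
    (i : I) : (fam_act hS l sl σ ξ i).1 = fam_mv (rb r (l i).1 σ) (ξ i).1 := rfl

theorem family (he : 0 < e) {F : Frs e a b L l₁} (hS : Sys F r) (hl : LAGRst) (Y : ℕ)
    (LM : Finset (GP L l₁)) (hY : ∀ l ∈ LM, Y < l.1 ∧ l.1 ≤ 2 * Y)
    (sl : GP L l₁ → Fin e → Fin 3) :
    ∃ (Om : Fin LM.card → Type) (_ : ∀ i, Fintype (Om i)) (g : (∀ i, Om i) → MZ)
      (ac : (ℂ ≃ₐ[K] ℂ) →* Equiv.Perm (∀ i, Om i)),
      Fam (Ist a b) (2 * Y) Finset.univ g (fun _ => ∏ l ∈ LM, l.1) ∧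
      (∀ i, Y ≤ Fintype.card (Om i) ∧ Fintype.card (Om i) ≤ (2 * Y) ^ (2 * e)) ∧
      (∀ σ ξ, Tw r σ (g ξ) (g (ac σ ξ))) ∧
      ∀ ξ, ∀ l ∈ LM, ∃ w : Fin e → Fin 2 → ZMod l.1, Ker (g ξ) l.1 = kz (Nw (F.red l) (sl l) w) := by
  obtain ⟨l, hm, hinj, hsur, hp⟩ : ∃ l : Fin LM.card → GP L l₁, (∀ i, l i ∈ LM) ∧
      (Function.Injective fun i => (l i).1) ∧ (∀ q ∈ LM, ∃ i, l i = q) ∧
      ∏ q ∈ LM, q.1 = ∏ i, (l i).1 := by
    refine ⟨fun i => (LM.equivFin.symm i).1, fun i => (LM.equivFin.symm i).2, fun i j h => ?_,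
      fun q hq => ⟨LM.equivFin ⟨q, hq⟩, by simp⟩, ?_⟩
    · exact LM.equivFin.symm.injective (Subtype.ext (Subtype.ext h))
    · rw [← Finset.prod_coe_sort LM]
      exact (Equiv.prod_comp LM.equivFin.symm fun q : LM => q.1.1).symm
  have hpr : ∀ i, (l i).1.Prime := fun i => (l i).2.1
  have hc := fun i => fam_card he (F.red (l i)) (sl (l i))
  have hg := fun ξ : ∀ i, fam_SL (F.red (l i)) (sl (l i)) =>
    lagr_tuple hl hinj (fun i => (ξ i).1) fun i => ⟨hpr i, hS.l32 _, by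
      obtain ⟨w, hw, h⟩ := (ξ i).2
      rw [h]
      exact Nw_lag _ _ hw⟩
  choose g hg hk using hg
  have hdv : ∀ q : ℕ, q.Prime → q ∣ ∏ i, (l i).1 → ∃ i, q = (l i).1 := fun q hq h => by
    obtain ⟨i, -, hi⟩ := (hq.prime.dvd_finsetProd_iff _).1 h
    exact ⟨i, (Nat.prime_dvd_prime_iff_eq hq (hpr i)).1 hi⟩
  have hst : ∀ ξ x, x ∈ Ker (g ξ) (∏ i, (l i).1) →
      a *ᵥ x ∈ Ker (g ξ) (∏ i, (l i).1) ∧ b *ᵥ x ∈ Ker (g ξ) (∏ i, (l i).1) := fun ξ x hx => by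
    simp only [mem_ker_prod hpr hinj, ← forall_and] at hx ⊢
    intro i
    have hi := hx i
    obtain ⟨w, -, h⟩ := (ξ i).2
    rw [hk, h] at hi ⊢
    exact Nw_stab _ _ w hi
  rw [hp]
  refine ⟨fun i => fam_SL (F.red (l i)) (sl (l i)), fun i => (hc i).1.fintype, g,
    fam_act hS l sl, ⟨fun ξ _ => ⟨hg ξ, iso_tw (hg ξ) fun x hx => (hst ξ x hx).1,
      iso_tw (hg ξ) fun x hx => (hst ξ x hx).2⟩, ?_, ?_⟩, fun i => ?_, fun σ ξ => ?_, ?_⟩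
  · intro ξ _ ξ' _ γ hγ c c' h0 h
    funext i
    exact Subtype.ext (by rw [← hk, ← hk, (iso_sep (hg ξ) (hg ξ') hγ h0 h).2])
  · rintro ξ - ξ' - ⟨i, hi⟩
    have h1 := hg ξ
    have h2 := hg ξ'
    rw [← Finset.mul_prod_erase _ _ (Finset.mem_univ i)] at h1 h2
    obtain ⟨u, u1, u2, u3⟩ := iso_nb h1 h2 fun q hq hd => by
      obtain ⟨j, hj, hd⟩ := (hq.prime.dvd_finsetProd_iff _).1 hd
      rw [(Nat.prime_dvd_prime_iff_eq hq (hpr j)).1 hd, hk, hk, hi j (Finset.ne_of_mem_erase hj)]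
    refine ⟨_, _, u, (hpr i).pos, ?_, (hS.l32 _).mul (hS.l32 _), u1, u2, u3⟩
    rw [sq]
    exact Nat.mul_le_mul (hY _ (hm i)).2 (hY _ (hm i)).2
  · rw [← @Nat.card_eq_fintype_card _ (hc i).1.fintype, Nat.card_coe_set_eq]
    exact ⟨(hY _ (hm i)).1.le.trans (hc i).2.1,
      (hc i).2.2.trans (Nat.pow_le_pow_left (hY _ (hm i)).2 _)⟩
  · refine tw_of r σ (hg ξ) fun q hq hd x hx => ?_
    obtain ⟨i, rfl⟩ := hdv q hq.out hd
    have h : Kz.lift (rb r (l i).1 σ *ᵥ Kz.vZ (l i).1 x) ∈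
        Ker (g (fam_act hS l sl σ ξ)) (l i).1 := by
      rw [hk, fam_act_apply]
      exact ⟨x, hk ξ i ▸ hx, Kz.vZ_lift _⟩
    rwa [fam_mem_ker, Kz.vZ_lift] at h
  · intro ξ q hq
    obtain ⟨i, rfl⟩ := hsur q hq
    obtain ⟨w, -, h⟩ := (ξ i).2
    exact ⟨w, (hk ξ i).trans h⟩

end MG.Bx
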