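import Pool.Agent.Lib.MP_33b3f9_ag.MG.Bx.Defs

/-!
The product of the conjugates.
-/

set_option autoImplicit false

noncomputable section

namespace MG.Bx

open Matrix M4 Pool.Agent.M4.Mx Pool.Agent.M4.Det M8.E3 MF.An

section gen

variable {A : Type} [Ring A] {d : ℕ}

theorem psi_comm {u : A} {f : Fin d → A} (h : ∀ t, Commute u (f t)) :
    Commute u (List.ofFn f).prod :=
  Commute.list_prod_right _ _ (List.forall_mem_ofFn_iff.2 h)

theorem psi_mul (f g : Fin d → A) (h : ∀ t t', t ≠ t' → Commute (g t) (f t')) :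
    (List.ofFn fun t => f t * g t).prod = (List.ofFn f).prod * (List.ofFn g).prod := by
  induction d with
  | zero => simp
  | succ d ih =>
    simp only [List.ofFn_succ, List.prod_cons]
    rw [ih (fun t => f t.succ) (fun t => g t.succ) fun t t' e =>
      h _ _ fun e' => e (Fin.succ_injective _ e')]
    exact (psi_comm fun t => h 0 t.succ (Fin.succ_ne_zero t).symm).mul_mul_mul_comm _ _

variable [Algebra ℂ A]

theorem psi_smul (c : Fin d → ℂ) (f : Fin d → A) :
    (List.ofFn fun t => c t • f t).prod = (∏ t, c t) • (List.ofFn f).prod := by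
  induction d with
  | zero => simp
  | succ d ih =>
    simp only [List.ofFn_succ, List.prod_cons]
    rw [ih (fun t => c t.succ) fun t => f t.succ, Fin.prod_univ_succ, smul_mul_smul_comm]

theorem psi_form {κ : Type} [Fintype κ] [DecidableEq κ] (E : Matrix κ κ ℂ) (c : Fin d → ℂ)
    (f : Fin d → Matrix κ κ ℂ) (h : ∀ t, (f t)ᵀ * E * f t = c t • E) :
    (List.ofFn f).prodᵀ * E * (List.ofFn f).prod = (∏ t, c t) • E := by
  induction d with
  | zero => simp
  | succ d ih =>
    simp only [List.ofFn_succ, List.prod_cons]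
    have h1 := ih (fun t => c t.succ) (fun t => f t.succ) fun t => h _
    generalize (List.ofFn fun t : Fin d => f t.succ).prod = Q at h1 ⊢
    calc _ = Qᵀ * ((f 0)ᵀ * E * f 0) * Q := by simp only [transpose_mul, Matrix.mul_assoc]
      _ = _ := by rw [h, Matrix.mul_smul, Matrix.smul_mul, h1, Fin.prod_univ_succ, mul_smul]

theorem psi_ne [Nontrivial A] (φ : Fin d → M2 ℂ →ₐ[ℂ] A)
    (h : ∀ t t' x y, t ≠ t' → Commute (φ t x) (φ t' y)) (x : Fin d → M2 ℂ) (hx : ∀ t, x t ≠ 0) :
    (List.ofFn fun t => φ t (x t)).prod ≠ 0 := by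
  induction d with
  | zero => simp
  | succ d ih =>
    simp only [List.ofFn_succ, List.prod_cons]
    have h1 := ih (fun t => φ t.succ) (fun t t' x y e => h _ _ x y fun e' =>
      e (Fin.succ_injective _ e')) (fun t => x t.succ) fun t => hx _
    have h2 : ∀ y, Commute (φ 0 y) (List.ofFn fun t : Fin d => φ t.succ (x t.succ)).prod :=
      fun y => psi_comm fun t => h 0 t.succ _ _ (Fin.succ_ne_zero t).symm
    generalize (List.ofFn fun t : Fin d => φ t.succ (x t.succ)).prod = Q at h1 h2 ⊢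
    intro h0
    obtain ⟨i, j, hij⟩ : ∃ i j, x 0 i j ≠ 0 := by
      by_contra h3
      push Not at h3
      exact hx 0 (Matrix.ext h3)
    have h3 : ∑ p, single p i (1 : ℂ) * x 0 * single j p (1 : ℂ) = x 0 i j • (1 : M2 ℂ) := by
      simp only [single_mul_mul_single, one_mul, mul_one]
      ext p q
      fin_cases p <;> fin_cases q <;> simp
    have h4 : x 0 i j • Q = 0 := by
      rw [← one_mul Q, ← smul_mul_assoc, ← map_one (φ 0), ← map_smul, ← h3, map_sum,
        Finset.sum_mul]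
      refine Finset.sum_eq_zero fun p _ => ?_
      rw [map_mul, map_mul, mul_assoc, (h2 _).eq, ← mul_assoc, mul_assoc (φ 0 _), h0, mul_zero,
        zero_mul]
    exact h1 ((smul_eq_zero.1 h4).resolve_left hij)

variable {W : Type} [NormedAddCommGroup W] [NormedSpace ℂ W]

theorem psi_lin {o κ : Type} [Fintype o] [Fintype κ] (L : (o → Matrix κ κ ℂ) →ₗ[ℂ] ℂ)
    (F : W → o → Matrix κ κ ℂ) (h : ∀ s p q, Differentiable ℂ fun w => F w s p q) :
    Differentiable ℂ fun w => L (F w) := by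
  let L' : (o → κ → κ → ℂ) →ₗ[ℂ] ℂ := L
  let F' : W → o → κ → κ → ℂ := F
  have hF : Differentiable ℂ F' :=
    differentiable_pi.2 fun s => differentiable_pi.2 fun p => differentiable_pi.2 fun q => h s p q
  exact (LinearMap.toContinuousLinearMap L').differentiable.comp hF

theorem psi_diff {κ : Type} [Fintype κ] [DecidableEq κ] (F : W → Fin d → Matrix κ κ ℂ)
    (h : ∀ t p q, Differentiable ℂ fun w => F w t p q) (p q : κ) :
    Differentiable ℂ fun w => (List.ofFn (F w)).prod p q := by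
  induction d generalizing p q with
  | zero => simp
  | succ d ih =>
    simp only [List.ofFn_succ, List.prod_cons, Matrix.mul_apply]
    exact Differentiable.fun_sum fun r _ =>
      (h 0 p r).mul (ih (fun w t => F w t.succ) (fun t => h _) r q)

end gen

variable [Dim] {e : ℕ} {a b : MZ} {m n : ℕ} {τ : Mat}

section psi

variable (z : Mor e a b ℂ) {d : ℕ} {ψ : Fin e → Fin d → M2 ℂ →ₐ[ℂ] M8 ℂ} {H : ℝ}

theorem Sc_mul (c c' : Fin e → ℂ) : Sc z c * Sc z c' = Sc z (c * c') := by
  rw [Sc, Sc, Sc, ← map_mul]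
  congr 1
  funext s
  simp [smul_smul, mul_comm]

theorem Sc_smul (t : ℂ) (c : Fin e → ℂ) : t • Sc z c = Sc z (t • c) := by
  rw [Sc, Sc, ← map_smul]
  congr 1
  funext s
  simp [smul_smul]

theorem Sc_det (c : Fin e → ℂ) : (Sc z c).det = ∏ s, c s ^ 16 := by
  rw [Sc, z.em_apply, z.bm_apply, Matrix.mul_assoc, det_comm' z.inv z.inv', Matrix.mul_assoc,
    z.inv', Matrix.mul_one, det_blockDiagonal]
  refine Finset.prod_congr rfl fun s _ => ?_
  rw [smul_kronecker, one_kronecker_one, det_smul, det_one, mul_one]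
  simp

theorem Psi_one : Psi z ψ 1 = 1 := by
  rw [Psi, ← map_one z.em]
  congr 1
  funext s
  simp

theorem Psi_mul (h : Cj ψ H) (x y : Fin e → Fin d → M2 ℂ) :
    Psi z ψ (x * y) = Psi z ψ x * Psi z ψ y := by
  rw [Psi, Psi, Psi, ← map_mul]
  congr 1
  funext s
  simp only [Pi.mul_apply, map_mul]
  exact psi_mul _ _ fun t t' => h.comm s t t' _ _

theorem Psi_smul (c : Fin e → Fin d → ℂ) (x : Fin e → Fin d → M2 ℂ) :
    Psi z ψ (fun s t => c s t • x s t) = Psi z ψ x * Sc z fun s => ∏ t, c s t := by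
  rw [Psi, Psi, Sc, ← map_mul]
  congr 1
  funext s
  simp only [Pi.mul_apply, map_smul, Matrix.mul_smul, Matrix.mul_one]
  exact psi_smul _ _

theorem Psi_form (h : Cj ψ H) (x : Fin e → Fin d → M2 ℂ) :
    (Psi z ψ x)ᵀ * J ι ℂ * Psi z ψ x = J ι ℂ * Sc z fun s => ∏ t, (x s t).det := by
  refine (z.form_iff _ _ _).2 fun s => ?_
  rw [Matrix.mul_smul, Matrix.mul_one]
  refine psi_form _ _ _ fun t => ?_
  rw [h.adj, Matrix.mul_assoc, ← map_mul, adjugate_mul, map_smul, map_one, Matrix.mul_smul,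
    Matrix.mul_one]

theorem Psi_ne (h : Cj ψ H) (he : 0 < e) {x : Fin e → Fin d → M2 ℂ} (hx : ∀ s t, x s t ≠ 0) :
    Psi z ψ x ≠ 0 := fun h0 =>
  psi_ne (ψ ⟨0, he⟩) (h.comm _) (x ⟨0, he⟩) (hx _)
    (congrFun (z.em_inj (h0.trans (map_zero z.em).symm)) ⟨0, he⟩)

theorem Psi_diff (ψ : Fin e → Fin d → M2 ℂ →ₐ[ℂ] M8 ℂ) (t : ℂ) (i j : ν) :
    Differentiable ℂ fun w : Fin e × Fin d × Fin 3 → ℂ => Psi z ψ (1 + t • Yw w) i j := by
  refine psi_lin ((entryLinearMap ℂ ℂ i j).comp z.em.toLinearMap)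
    (fun w s => (List.ofFn fun u => ψ s u ((1 + t • Yw w) s u)).prod) fun s p q => ?_
  refine psi_diff (fun w u => ψ s u ((1 + t • Yw w) s u)) (fun u p q => ?_) p q
  refine psi_lin ((entryLinearMap ℂ ℂ p q).comp ((ψ s u).toLinearMap.comp (LinearMap.proj u)))
    (fun w => (1 + t • Yw w) s) fun u p q => ?_
  fin_cases p <;> fin_cases q <;> simp [Yw] <;> fun_prop

end psi

end MG.Bx
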