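import Pool.Agent.Lib.MP_33b3f9_ag.MG.Bx.Lat
import Pool.Agent.Lib.MP_33b3f9_ag.MG.Bx.Psi
import Pool.Agent.Lib.MP_33b3f9_ag.MG.Bx.Size

/-!
Short nonsingular vectors.
-/

set_option autoImplicit false

noncomputable section

namespace MG.Bx

open Matrix M4 Pool.Agent.M4.Mx Pool.Agent.M4.Det M8.E3 MF.An

variable [Dim] {e : ℕ} {a b : MZ} {m n : ℕ} {τ : Mat}

variable {K : IntermediateField ℚ ℂ} {r : Rep K} {L : Type} [Field L] {l₁ : ℕ}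

theorem gv_qf (τ : Mat) : ∃ C : ℝ, ∀ (x : ν → ℝ) (X : ℝ), (∀ i, |x i| ≤ X) →
    qf τ x ≤ C * X ^ 2 := by
  refine ⟨∑ i, ∑ j, |FP.Pm τ i j|, fun x X h => ?_⟩
  simp only [qf, dotProduct, mulVec, Finset.mul_sum, Finset.sum_mul]
  refine Finset.sum_le_sum fun i _ => Finset.sum_le_sum fun j _ => (le_abs_self _).trans ?_
  have hX : 0 ≤ X := (abs_nonneg _).trans (h i)
  rw [abs_mul, abs_mul]
  calc |x i| * (|FP.Pm τ i j| * |x j|) ≤ X * (|FP.Pm τ i j| * X) := by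
        gcongr
        · exact h i
        · exact h j
    _ = _ := by ring

theorem gv_low (he : 0 < e) (hτ : InH τ) (z : MorD e a b ℂ) (j : ℕ) : ∃ k : ℕ,
    ∀ (F : Frs e a b L l₁) (LM : Finset (GP L l₁)) (H : ℕ) (A : SA z F LM H) (g : MZ) (M : ℕ)
      (ρ : ℝ), 2 ≤ H → 0 < M → Sim (zr g) M → 1 ≤ ρ → ρ ^ (2 * A.d) = M →
      (∀ u : ν → ℤ, u ≠ 0 → 1 ≤ (H : ℝ) ^ j * qf (act (zr g) τ) (rz u)) →
      ∀ (c : IA e A.d → ℤ) (R : MZ), (M : ℤ) • R = g * A.Nm c → c ≠ 0 →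
        ∃ q, ρ ≤ 12 * e * H * (H : ℝ) ^ k * |(c q : ℝ)| := by
  obtain ⟨C, hC⟩ := gv_qf τ
  obtain ⟨k1, h1⟩ := Psi_le z.toMor
  obtain ⟨k3, h3⟩ := exists_pow C
  refine ⟨j + k3 + 2 * (k1 + 1), fun F LM H A g M ρ hH hM hg hρ hρM hu c R hR hc => ?_⟩
  have hH2 : (2 : ℝ) ≤ H := by exact_mod_cast hH
  have hH1 : (1 : ℝ) ≤ H := by linarith
  have hM0 : (0 : ℝ) < M := by exact_mod_cast hM
  obtain ⟨q1, -⟩ := Function.ne_iff.1 hc
  obtain ⟨q, -, hq⟩ := Finset.exists_max_image Finset.univ (fun q => |(c q : ℝ)|)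
    ⟨q1, Finset.mem_univ _⟩
  refine ⟨q, ?_⟩
  set X : ℝ := 12 * e * H * |(c q : ℝ)| with hX
  have hX0 : 0 ≤ X := by positivity
  have hP := h1 H A.d A.ψ hH2 (cj A) X (el A c) hX0
    (el_le A c fun q' => hq q' (Finset.mem_univ _))
  have hne : A.Nm c ≠ 0 := by
    intro h0
    have h4 := nm_eq A c
    rw [h0] at h4
    have h5 : zM ℂ (0 : MZ) = 0 := by
      ext i i'
      simp [zM]
    rw [h5] at h4
    rcases smul_eq_zero.1 h4.symm with h6 | h6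
    · exact A.m0.ne' (by exact_mod_cast h6)
    · exact Psi_ne z.toMor (cj A) he (fun s t h7 => hc (A.zero c s t h7)) h6
  obtain ⟨i0, j0, hij⟩ : ∃ i0 j0, A.Nm c i0 j0 ≠ 0 := by
    by_contra h0
    push Not at h0
    exact hne (Matrix.ext h0)
  have hv : ∀ i, |rz (fun i => A.Nm c i j0) i| ≤ (H : ℝ) ^ (k1 + 1) * X ^ A.d := by
    intro i
    have h4 := congrFun (congrFun (nm_eq A c) i) j0
    have h5 : ‖((A.Nm c i j0 : ℤ) : ℂ)‖ = A.m * ‖Psi z.toMor A.ψ (el A c) i j0‖ := by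
      have h6 : ((A.Nm c i j0 : ℤ) : ℂ) = (A.m : ℂ) * Psi z.toMor A.ψ (el A c) i j0 := h4
      rw [h6, norm_mul, Complex.norm_natCast]
    rw [Complex.norm_intCast] at h5
    have h6 : (A.m : ℝ) ≤ H := by exact_mod_cast A.m_le
    calc |rz (fun i => A.Nm c i j0) i| = A.m * ‖Psi z.toMor A.ψ (el A c) i j0‖ := h5
      _ ≤ H * ((H : ℝ) ^ k1 * X ^ A.d) := mul_le_mul h6 (hP i j0) (norm_nonneg _) (by linarith)
      _ = _ := by ring
  have hcol : rz (fun i => R i j0) = zr g *ᵥ ((M : ℝ)⁻¹ • rz fun i => A.Nm c i j0) := by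
    funext i
    have h4 := congrFun (congrFun hR i) j0
    have h5 : (M : ℝ) * (R i j0 : ℝ) = ∑ i', (g i i' : ℝ) * (A.Nm c i' j0 : ℝ) := by
      simp only [Matrix.smul_apply, smul_eq_mul, Matrix.mul_apply] at h4
      exact_mod_cast h4
    rw [mulVec_smul]
    change (R i j0 : ℝ) = (M : ℝ)⁻¹ * ∑ i', (g i i' : ℝ) * (A.Nm c i' j0 : ℝ)
    rw [← h5, inv_mul_cancel_left₀ hM0.ne']
  have hqf : qf (act (zr g) τ) (rz fun i => R i j0) =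
      (M : ℝ)⁻¹ * qf τ (rz fun i => A.Nm c i j0) := by
    rw [hcol, qf_act hg hM0 hτ, qf_smul]
    field_simp
  have hv0 : (rz fun i => A.Nm c i j0) ≠ 0 := fun h0 => hij (by
    have : ((A.Nm c i0 j0 : ℤ) : ℝ) = 0 := congrFun h0 i0
    exact_mod_cast this)
  have hu0 : (fun i => R i j0) ≠ 0 := by
    intro h0
    have h4 : rz (fun i => R i j0) = 0 := by
      rw [h0]
      funext i
      simp [rz]
    rw [h4, qf_zero] at hqf
    exact (mul_pos (inv_pos.2 hM0) (qf_pos hτ hv0)).ne hqf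
  have h4 := hu _ hu0
  rw [hqf] at h4
  have h5 : (M : ℝ) ≤ (H : ℝ) ^ j * qf τ (rz fun i => A.Nm c i j0) := by
    rw [mul_left_comm, ← div_eq_inv_mul, one_le_div hM0] at h4
    exact h4
  have h6 : qf τ (rz fun i => A.Nm c i j0) ≤
      (H : ℝ) ^ k3 * ((H : ℝ) ^ (k1 + 1) * X ^ A.d) ^ 2 :=
    (hC _ _ hv).trans (mul_le_mul_of_nonneg_right (h3 H hH2) (sq_nonneg _))
  have hd : 2 * A.d ≠ 0 := by have := A.d1; omega
  have h7 : ρ ^ (2 * A.d) ≤ ((H : ℝ) ^ (j + k3 + 2 * (k1 + 1)) * X) ^ (2 * A.d) := by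
    rw [hρM, mul_pow]
    calc (M : ℝ) ≤ (H : ℝ) ^ j * ((H : ℝ) ^ k3 * ((H : ℝ) ^ (k1 + 1) * X ^ A.d) ^ 2) :=
          h5.trans (mul_le_mul_of_nonneg_left h6 (by positivity))
      _ = (H : ℝ) ^ (j + k3 + 2 * (k1 + 1)) * X ^ (2 * A.d) := by ring
      _ ≤ _ := mul_le_mul_of_nonneg_right (le_self_pow₀ (one_le_pow₀ hH1) hd) (by positivity)
  refine (le_of_pow_le_pow_left₀ hd (by positivity) h7).trans_eq ?_
  rw [hX]
  ring

theorem gv_ex (he : 0 < e) (hτ : InH τ) (z : MorD e a b ℂ) (j : ℕ) : ∃ k : ℕ,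
    ∀ (F : Frs e a b L l₁) (LM : Finset (GP L l₁)) (H : ℕ) (A : SA z F LM H) (g : MZ) (M : ℕ)
      (ρ : ℝ), 2 ≤ H → 0 < M → Sim (zr g) M → 1 ≤ ρ → ρ ^ (2 * A.d) = M → Lam A g M →
      (∀ u : ν → ℤ, u ≠ 0 → 1 ≤ (H : ℝ) ^ j * qf (act (zr g) τ) (rz u)) →
      ∃ c R, Gv A g M ρ ((H : ℝ) ^ k) c R := by
  obtain ⟨k2, h2⟩ := gv_low (L := L) (l₁ := l₁) he hτ z j
  obtain ⟨k4, h4⟩ := exists_pow (2 * (576 * (e : ℝ) ^ 2) ^ (12 * e))
  refine ⟨k4 + (k2 + 1) * (12 * e), fun F LM H A g M ρ hH hM hg hρ hρM hΛ hu => ?_⟩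
  obtain ⟨Λ, h0, hI, hΛ⟩ := hΛ
  have hH2 : (2 : ℝ) ≤ H := by exact_mod_cast hH
  have hH1 : (1 : ℝ) ≤ H := by linarith
  have he1 : (1 : ℝ) ≤ e := by exact_mod_cast he
  have hcard : Fintype.card (IA e A.d) = 2 * A.d * (2 * e) := by
    simp only [IA, Fintype.card_prod, Fintype.card_fin]
    ring
  have hA : (1 : ℝ) ≤ 12 * e * H * (H : ℝ) ^ k2 :=
    one_le_mul_of_one_le_of_one_le (one_le_mul_of_one_le_of_one_le (by linarith) hH1)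
      (one_le_pow₀ hH1)
  have hsum : ∀ c : IA e A.d → ℤ, ∑ i, c i • A.B i ⟨0, he⟩ ⟨0, A.d1⟩ =
      (∑ i, c i • A.B i) ⟨0, he⟩ ⟨0, A.d1⟩ := fun c => by
    simp only [Finset.sum_apply, Pi.smul_apply]
  obtain ⟨c, hc, hle, hdet⟩ := lat_det Λ hA hρ h0
    (by rw [hcard, pow_mul, hρM]; exact_mod_cast hI)
    (fun c hc hc0 => by
      obtain ⟨R, hR⟩ := hΛ c hc
      exact h2 F LM H A g M ρ hH hM hg hρ hρM hu c R hR hc0)
    (fun i => A.B i ⟨0, he⟩ ⟨0, A.d1⟩) ⟨A.B.repr 1, by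
      have h5 := congrFun (congrFun (A.B.sum_repr 1) ⟨0, he⟩) ⟨0, A.d1⟩
      simp only [Finset.sum_apply, Pi.smul_apply, Pi.one_apply] at h5
      rw [h5, det_one]
      exact one_ne_zero⟩
  obtain ⟨R, hR⟩ := hΛ c hc
  refine ⟨c, R, hR, fun q => (hle q).trans (mul_le_mul_of_nonneg_right ?_ (by linarith)),
    fun s t h5 => hdet ?_⟩
  · have h5 : Fintype.card (IA e A.d) ≤ 12 * e := by
      rw [hcard]
      have := A.d3
      nlinarith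
    have h6 : (Fintype.card (IA e A.d) : ℝ) ≤ 12 * e := by exact_mod_cast h5
    have h7 : (1 : ℝ) ≤ 4 * (12 * e * H * (H : ℝ) ^ k2) * (12 * e) :=
      one_le_mul_of_one_le_of_one_le (by linarith) (by linarith)
    calc 2 * (4 * (12 * e * H * (H : ℝ) ^ k2) * Fintype.card (IA e A.d)) ^ Fintype.card (IA e A.d)
        ≤ 2 * (4 * (12 * e * H * (H : ℝ) ^ k2) * (12 * e)) ^ Fintype.card (IA e A.d) := by gcongr
      _ ≤ 2 * (4 * (12 * e * H * (H : ℝ) ^ k2) * (12 * e)) ^ (12 * e) := by gcongr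
      _ = 2 * (576 * (e : ℝ) ^ 2) ^ (12 * e) * ((H : ℝ) ^ (k2 + 1)) ^ (12 * e) := by
          rw [mul_assoc 2, ← mul_pow]
          congr 2
          ring
      _ ≤ (H : ℝ) ^ k4 * ((H : ℝ) ^ (k2 + 1)) ^ (12 * e) :=
          mul_le_mul_of_nonneg_right (h4 H hH2) (by positivity)
      _ = _ := by rw [← pow_mul, ← pow_add]
  · rw [hsum]
    exact A.sing c s t _ _ h5

end MG.Bx
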