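import Pool.Agent.Lib.MP_33b3f9_ag.MG.Bx.Defs
import Pool.Agent.Lib.MP_33b3f9_ag.M4.G.Mat

/-!
Integral similitudes and their kernels.
-/

set_option autoImplicit false

noncomputable section

namespace MG.Bx

open Matrix M4 Pool.Agent.M4.Mx Pool.Agent.M4.Det M8.E3 MF.An

variable [Dim] {e : ℕ} {a b : MZ} {m n : ℕ} {τ : Mat}

theorem mem_ker_prod {I : Type} [Fintype I] {l : I → ℕ} (hl : ∀ i, (l i).Prime)
    (hinj : Function.Injective l) (g : MZ) (x : ν → ℤ) :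
    x ∈ Ker g (∏ i, l i) ↔ ∀ i, x ∈ Ker g (l i) := by
  refine ⟨fun h i j => (Nat.cast_dvd_cast (Finset.dvd_prod_of_mem l (Finset.mem_univ i))).trans
    (h j), fun h j => ?_⟩
  rw [Nat.cast_prod]
  exact Fintype.prod_dvd_of_coprime (fun a b hab => Nat.isCoprime_iff_coprime.2
    ((Nat.coprime_primes (hl a) (hl b)).2 (hinj.ne hab))) fun i => h i j

/-- `S` is the image of `l`, `G` is extended by `Function.extend`. -/
theorem lagr_tuple (h : LAGRst) {I : Type} [Fintype I] {l : I → ℕ} (hinj : Function.Injective l)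
    (G : I → AddSubgroup (ν → ℤ)) (hl : ∀ i, (l i).Prime ∧ l i ≡ 1 [MOD 32] ∧ Lag (l i) (G i)) :
    ∃ g : MZ, Iso g (∏ i, l i) ∧ ∀ i, Ker g (l i) = G i := by
  obtain ⟨g, h1, h2⟩ := h (Finset.univ.image l) (Function.extend l G fun _ => ⊥) fun q hq => by
    obtain ⟨i, -, rfl⟩ := Finset.mem_image.1 hq
    rw [hinj.extend_apply]
    exact hl i
  rw [Finset.prod_image hinj.injOn] at h1
  exact ⟨g, h1, fun i => by
    rw [h2 _ (Finset.mem_image_of_mem l (Finset.mem_univ i)), hinj.extend_apply]⟩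

theorem iso_pos {g : MZ} {M : ℕ} (h : Iso g M) : 0 < M :=
  Nat.pos_of_ne_zero h.1.1.ne_zero

theorem mat_simR {g : MZ} {M : ℕ} (h : Sim (zr g) M) : Kz.SimR g (M : ℤ) :=
  Kz.simR_of_sim (by rw [Int.cast_natCast]; exact h)

theorem mat_smul {g : MZ} {m : ℤ} (h : Kz.SimR g m) (c : ℤ) : Kz.SimR (c • g) (c ^ 2 * m) :=
  fun x y => by
    rw [smul_mulVec, smul_mulVec, Kz.Ef_smul_left, Kz.Ef_smul_right, h]
    ring

theorem mat_ker (u g : MZ) (l : ℕ) : Ker g l ≤ Ker (u * g) l := fun x hx i => by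
  rw [← mulVec_mulVec]
  show (l : ℤ) ∣ ∑ j, u i j * (g *ᵥ x) j
  exact Finset.dvd_sum fun j _ => (hx j).mul_left _

/-- Multipliers: `c ^ 2 * M' = c' ^ 2 * M` (`Kz.simR_of_sim`, `Kz.simR_iff`); divide by the gcd of
`c` and `c'`; `M` and `M'` are squarefree, so `M = M'` and `c' = c` or `c' = -c`. Then `g' = ± γ * g`
and `Kz.adj γ * γ = 1`. -/
theorem iso_sep {g g' γ : MZ} {M M' : ℕ} {c c' : ℤ} (h : Iso g M) (h' : Iso g' M')
    (hγ : Sim (zr γ) 1) (hc : c ≠ 0) (e : c • g' = c' • (γ * g)) :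
    M = M' ∧ ∀ l : ℕ, Ker g l = Ker g' l := by
  obtain ⟨o⟩ : Nonempty ι := inferInstance
  have Hγ : Kz.SimR γ 1 := Kz.simR_of_sim (by rw [Int.cast_one]; exact hγ)
  have h1 := mat_smul (mat_simR h'.2.2) c
  rw [e] at h1
  have h2 : c ^ 2 * M' = c' ^ 2 * M := by
    have h3 := (h1 (Pi.single (Sum.inl o) 1) (Pi.single (Sum.inr o) 1)).symm.trans
      (mat_smul (Hγ.mul (mat_simR h.2.2)) c' _ _)
    have h4 : Kz.Ef (Pi.single (Sum.inl o) 1 : ν → ℤ) (Pi.single (Sum.inr o) 1) = 1 := by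
      simp [Kz.Ef, Pi.single_apply]
    rwa [h4, mul_one, mul_one, one_mul] at h3
  obtain ⟨h5, h6⟩ := G.mat_sqf h.1.1 h'.1.1 (Int.natAbs_ne_zero.2 hc) (b := c'.natAbs)
    (by simpa only [Int.natAbs_mul, Int.natAbs_pow, Int.natAbs_natCast] using
      congrArg Int.natAbs h2)
  obtain ⟨s, hs, rfl⟩ : ∃ s : ℤ, s * s = 1 ∧ c' = c * s := by
    rcases Int.natAbs_eq_natAbs_iff.1 h6.symm with h7 | h7
    · exact ⟨1, one_mul 1, by rw [h7, mul_one]⟩
    · exact ⟨-1, by norm_num, by rw [h7, mul_neg_one]⟩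
  have h8 : g' = (s • γ) * g := by
    rw [mul_smul, ← Matrix.smul_mul] at e
    exact smul_right_injective _ hc e
  have h9 : g = (s • Kz.adj γ) * g' := by
    rw [h8, ← Matrix.mul_assoc, Matrix.smul_mul s (Kz.adj γ), Matrix.mul_smul, Hγ.adj_mul,
      smul_smul, smul_smul, hs, one_mul, one_smul, Matrix.one_mul]
  exact ⟨h5, fun l => le_antisymm (by rw [h8]; exact mat_ker _ _ _)
    (by rw [h9]; exact mat_ker _ _ _)⟩

/-- `M₀ • h = g' * Kz.adj g`: the columns of `Kz.adj g` lie in `Ker g q` for the primes `q ∣ M₀`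
(`Kz.SimR.mul_adj`), and `M₀` is squarefree. Modulo `32`: `M₀ = 1`, `g' = 1`, `Kz.adj g = 1`. -/
theorem iso_nb {g g' : MZ} {l l' M₀ : ℕ} (h : Iso g (l * M₀)) (h' : Iso g' (l' * M₀))
    (hk : ∀ q : ℕ, q.Prime → q ∣ M₀ → Ker g q = Ker g' q) :
    ∃ u : MZ, Lev u ∧ Sim (zr u) ((l * l' : ℕ) : ℝ) ∧ (l : ℤ) • g' = u * g := by
  have H := mat_simR h.2.2
  have H' := mat_simR h'.2.2
  have h0 : ((l * M₀ : ℕ) : ℤ) ≠ 0 := Nat.cast_ne_zero.2 (iso_pos h).ne'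
  have hM : (M₀ : ℤ) ≠ 0 := Nat.cast_ne_zero.2 (right_ne_zero_of_mul (iso_pos h).ne')
  have h1 : ∀ i j, (M₀ : ℤ) ∣ (g' * Kz.adj g) i j := by
    intro i j
    rw [Int.natCast_dvd, ← Nat.prod_primeFactors_of_squarefree h.1.1.of_mul_right]
    refine Finset.prod_primes_dvd _ (fun q hq => (Nat.prime_of_mem_primeFactors hq).prime)
      fun q hq => Int.natCast_dvd.1 ?_
    have h2 : (fun a => Kz.adj g a j) ∈ Ker g q := fun a => by
      show (q : ℤ) ∣ (g * Kz.adj g) a j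
      rw [H.mul_adj h0, Matrix.smul_apply, smul_eq_mul]
      exact (Nat.cast_dvd_cast ((Nat.dvd_of_mem_primeFactors hq).mul_left l)).mul_right _
    rw [hk q (Nat.prime_of_mem_primeFactors hq) (Nat.dvd_of_mem_primeFactors hq)] at h2
    exact h2 i
  choose u hu using h1
  have h3 : g' * Kz.adj g = (M₀ : ℤ) • Matrix.of u := Matrix.ext hu
  generalize Matrix.of u = v at h3
  have h4 : (l : ℤ) • g' = v * g := smul_right_injective _ hM (by
    show (M₀ : ℤ) • (l : ℤ) • g' = (M₀ : ℤ) • (v * g)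
    rw [← Matrix.smul_mul, ← h3, Matrix.mul_assoc, H.adj_mul, Matrix.mul_smul, Matrix.mul_one,
      smul_smul, Nat.cast_mul, mul_comm])
  refine ⟨v, fun i j => ?_, ?_, h4⟩
  · obtain ⟨β, hβ⟩ := Kz.One.mulVec (Q := 32) h.2.1
    obtain ⟨β', hβ'⟩ := Kz.One.mulVec (Q := 32) h'.2.1
    obtain ⟨t, ht⟩ := (Nat.modEq_iff_dvd.1 (G.adm_modEq h.1 (dvd_mul_right l M₀)).symm)
    have h5 : v - 1 = (32 : ℤ) • (t • (1 : MZ) + (l : ℤ) • β' - v * β) := by
      rw [hβ', hβ, Matrix.mul_add, Matrix.mul_one, Matrix.mul_smul] at h4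
      rw [Nat.cast_one, sub_eq_iff_eq_add] at ht
      rw [ht] at h4 ⊢
      push_cast at h4 ⊢
      linear_combination (norm := module) -h4
    rw [h5]
    exact dvd_mul_right _ _
  · have h6 : Kz.SimR (Kz.adj g) ((l * M₀ : ℕ) : ℤ) := fun x y => mul_left_cancel₀ h0 (by
      rw [← H, mulVec_mulVec, mulVec_mulVec, H.mul_adj h0, smul_mulVec, smul_mulVec, one_mulVec,
        one_mulVec, Kz.Ef_smul_left, Kz.Ef_smul_right])
    have h7 : Kz.SimR v ((l * l' : ℕ) : ℤ) := fun x y => by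
      have h8 := H'.mul h6 x y
      rw [h3, smul_mulVec, smul_mulVec, Kz.Ef_smul_left, Kz.Ef_smul_right] at h8
      refine mul_left_cancel₀ (mul_ne_zero hM hM) ?_
      push_cast at h8 ⊢
      linear_combination h8
    have h9 := h7.sim
    rwa [Int.cast_natCast] at h9

/-- If the kernel of `g` modulo its multiplier is stable under `d` then `g d g⁻¹` is integral. -/
theorem iso_tw {g d : MZ} {M : ℕ} (h : Iso g M) (hd : ∀ x ∈ Ker g M, d *ᵥ x ∈ Ker g M) :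
    ∃ d' : MZ, g * d = d' * g := by
  have H := mat_simR h.2.2
  have h0 : (M : ℤ) ≠ 0 := Nat.cast_ne_zero.2 (iso_pos h).ne'
  have h1 : ∀ i j, (M : ℤ) ∣ (g * (d * Kz.adj g)) i j := fun i j =>
    hd (fun a => Kz.adj g a j) (fun a => by
      show (M : ℤ) ∣ (g * Kz.adj g) a j
      rw [H.mul_adj h0, Matrix.smul_apply, smul_eq_mul]
      exact dvd_mul_right _ _) i
  choose u hu using h1
  have h3 : g * (d * Kz.adj g) = (M : ℤ) • Matrix.of u := Matrix.ext hu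
  refine ⟨Matrix.of u, smul_right_injective _ h0 ?_⟩
  show (M : ℤ) • (g * d) = (M : ℤ) • (Matrix.of u * g)
  rw [← Matrix.smul_mul, ← Matrix.smul_mul (M : ℤ) (Matrix.of u), ← h3, Matrix.mul_assoc,
    Matrix.mul_assoc, H.adj_mul, Matrix.mul_smul, Matrix.mul_smul, Matrix.mul_one,
    Matrix.smul_mul]

omit [Dim] in
theorem mat_dvd {M l : ℕ} [Fact l.Prime] (hM : Squarefree M) {x : ℤ_[l]}
    (h : l ∣ M → PadicInt.toZMod x = 0) : (M : ℤ_[l]) ∣ x := by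
  have hu : ∀ k : ℕ, ¬ l ∣ k → IsUnit (k : ℤ_[l]) := fun k hk =>
    PadicInt.isUnit_iff.2 (PadicInt.norm_natCast_eq_one_iff.2
      ((Nat.Prime.coprime_iff_not_dvd Fact.out).2 hk))
  by_cases hl : l ∣ M
  · have h1 : x ∈ RingHom.ker (PadicInt.toZMod (p := l)) := h hl
    rw [PadicInt.ker_toZMod, PadicInt.maximalIdeal_eq_span_p, Ideal.mem_span_singleton] at h1
    obtain ⟨k, rfl⟩ := hl
    rw [Nat.cast_mul]
    refine (hu k fun c => ?_).mul_right_dvd.2 h1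
    exact (Fact.out : l.Prime).prime.not_isUnit (hM l (mul_dvd_mul_left l c))
  · exact (hu M hl).dvd

theorem tw_of {K : IntermediateField ℚ ℂ} (r : Rep K) (σ : ℂ ≃ₐ[K] ℂ) {g g' : MZ} {M : ℕ}
    (h : Iso g M) (hk : ∀ (l : ℕ) [Fact l.Prime], l ∣ M → ∀ x ∈ Ker g l,
      zM (ZMod l) g' *ᵥ rb r l σ *ᵥ Kz.vZ l x = 0) : Tw r σ g g' := by
  have H := mat_simR h.2.2
  have h0 : (M : ℤ) ≠ 0 := Nat.cast_ne_zero.2 (iso_pos h).ne'
  have h1 : ∀ (l : ℕ) [Fact l.Prime], ∃ W : Matrix ν ν ℤ_[l],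
      zM ℤ_[l] g' * (r l σ : Matrix ν ν ℤ_[l]) = W * zM ℤ_[l] g := by
    intro l _
    have h2 : ∀ i j, (M : ℤ_[l]) ∣
        (zM ℤ_[l] g' * ((r l σ : Matrix ν ν ℤ_[l]) * zM ℤ_[l] (Kz.adj g))) i j := by
      refine fun i j => mat_dvd h.1.1 fun hl => ?_
      have h3 := congrFun (hk l hl (fun a => Kz.adj g a j) fun a => by
        show (l : ℤ) ∣ (g * Kz.adj g) a j
        rw [H.mul_adj h0, Matrix.smul_apply, smul_eq_mul]
        exact (Nat.cast_dvd_cast hl).mul_right _) i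
      have h4 : (zM ℤ_[l] g' * ((r l σ : Matrix ν ν ℤ_[l]) * zM ℤ_[l] (Kz.adj g))).map
          (PadicInt.toZMod (p := l)) = zM (ZMod l) g' * (rb r l σ * zM (ZMod l) (Kz.adj g)) := by
        rw [Matrix.map_mul, Matrix.map_mul, zM_map, zM_map, rb]
      exact (congrFun (congrFun h4 i) j).trans h3
    choose u hu using h2
    have h5 : zM ℤ_[l] g' * ((r l σ : Matrix ν ν ℤ_[l]) * zM ℤ_[l] (Kz.adj g)) =
        (M : ℤ_[l]) • Matrix.of u := Matrix.ext hu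
    refine ⟨Matrix.of u, smul_right_injective _
      (Nat.cast_ne_zero.2 (iso_pos h).ne' : (M : ℤ_[l]) ≠ 0) ?_⟩
    show (M : ℤ_[l]) • (zM ℤ_[l] g' * (r l σ : Matrix ν ν ℤ_[l])) =
      (M : ℤ_[l]) • (Matrix.of u * zM ℤ_[l] g)
    rw [← Matrix.smul_mul (M : ℤ_[l]) (Matrix.of u), ← h5, Matrix.mul_assoc, Matrix.mul_assoc,
      ← zM_mul, H.adj_mul, zM_smul, zM_one, Int.cast_natCast, Matrix.mul_smul, Matrix.mul_smul,
      Matrix.mul_one]
  choose W hW using h1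
  exact ⟨W, hW⟩

end MG.Bx
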