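import Pool.Agent.Lib.MP_33b3f9_ag.MG.Bx.Cells
import Pool.Agent.Lib.MP_33b3f9_ag.MG.Bx.Mat
import Pool.Agent.Lib.MP_33b3f9_ag.MG.Bx.Deep
import Pool.Agent.Lib.MP_33b3f9_ag.MG.Bx.Bp
import Pool.Agent.Lib.MP_33b3f9_ag.MF.An.Short
import Pool.Agent.Lib.MP_33b3f9_ag.M4.G.Det

/-!
The Hilbert function of the family.
-/

set_option autoImplicit false

noncomputable section

namespace MG.Bx

open Matrix M4 Pool.Agent.M4.Mx Pool.Agent.M4.Det M8.E3 MF.An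

variable [Dim] {e : ℕ} {a b : MZ} {m n : ℕ} {τ : Mat}

variable {K : IntermediateField ℚ ℂ} {r : Rep K} {L : Type} [Field L] {l₁ : ℕ}

omit [Dim] in
theorem hil_num (C : ℝ) (c e : ℕ) : ∃ j : ℕ, ∀ Y M N : ℕ, 2 ≤ Y → M ≤ (2 * Y) ^ Y →
    N ≤ (2 * Y) ^ (2 * e * Y) → C * (2 * M : ℝ) ^ c ≤ Real.exp ((Y : ℝ) ^ j) ∧
      (N : ℝ) ≤ Real.exp ((Y : ℝ) ^ j) ∧ 2 ≤ Real.exp ((Y : ℝ) ^ j) := by
  obtain ⟨k, hk⟩ := exists_pow (|C| + 3 * c + 4 * e + 1)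
  refine ⟨k + 2, fun Y M N hY hM hN => ?_⟩
  have hY' : (2 : ℝ) ≤ Y := by exact_mod_cast hY
  have h1 := hk Y hY'
  have h2 : (2 * Y : ℝ) ≤ Real.exp (2 * Y) := by linarith [Real.add_one_le_exp (2 * Y : ℝ)]
  have h3 : ∀ t : ℕ, (((2 * Y) ^ t : ℕ) : ℝ) ≤ Real.exp (t * (2 * Y)) := fun t => by
    rw [Real.exp_nat_mul]
    push_cast
    exact pow_le_pow_left₀ (by positivity) h2 t
  have h4 : (4 : ℝ) ≤ (Y : ℝ) ^ 2 := by nlinarith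
  have h5 : (|C| + 3 * c + 4 * e + 1) * (Y : ℝ) ^ 2 ≤ (Y : ℝ) ^ (k + 2) := by
    rw [pow_add]
    exact mul_le_mul_of_nonneg_right h1 (by positivity)
  have h6 := abs_nonneg C
  have h7 : (0 : ℝ) ≤ c := Nat.cast_nonneg _
  have h8 : (0 : ℝ) ≤ e := Nat.cast_nonneg _
  have h9 : (2 : ℝ) ≤ Real.exp 1 := by linarith [Real.add_one_le_exp (1 : ℝ)]
  refine ⟨?_, ?_, h9.trans (Real.exp_le_exp.2 (by nlinarith))⟩
  · have a1 : (2 * M : ℝ) ≤ Real.exp (3 * (Y : ℝ) ^ 2) := by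
      refine (mul_le_mul h9 ((Nat.cast_le.2 hM).trans (h3 Y)) (by positivity)
        (by positivity)).trans ?_
      rw [← Real.exp_add, Real.exp_le_exp]
      nlinarith
    have a2 : C ≤ Real.exp |C| := by linarith [Real.add_one_le_exp |C|, le_abs_self C]
    refine (mul_le_mul a2 (pow_le_pow_left₀ (by positivity) a1 c) (by positivity)
      (by positivity)).trans ?_
    rw [← Real.exp_nat_mul, ← Real.exp_add, Real.exp_le_exp]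
    nlinarith
  · refine ((Nat.cast_le.2 hN).trans (h3 _)).trans (Real.exp_le_exp.2 ?_)
    push_cast
    nlinarith

omit [Dim] in
theorem hil_deep {c C : ℝ} (hc : 0 < c) (hC : 0 < C) (N j : ℕ) : ∃ k : ℕ, ∀ Y q : ℝ, 2 ≤ Y →
    0 < q → Y ^ k * q < 1 →
    C * Real.exp (-c / q) * Real.exp (Y ^ j) ≤ (Real.exp (Y ^ j) ^ N)⁻¹ := by
  obtain ⟨k, hk⟩ := exists_pow ((C + N + 1) / c)
  refine ⟨k + j, fun Y q hY hq h => ?_⟩
  have h1 := (div_le_iff₀ hc).1 (hk Y hY)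
  have h2 : 1 ≤ Y ^ j := one_le_pow₀ (by linarith)
  have h3 : c * Y ^ (k + j) ≤ c / q := by
    rw [le_div_iff₀ hq, mul_assoc]
    exact mul_le_of_le_one_right hc.le h.le
  have h4 : C ≤ Real.exp C := by linarith [Real.add_one_le_exp C]
  have h5 := mul_le_mul_of_nonneg_right h1 (zero_le_one.trans h2)
  rw [← Real.exp_nat_mul, ← Real.exp_neg, mul_assoc]
  refine (mul_le_mul_of_nonneg_right h4 (by positivity)).trans ?_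
  rw [← Real.exp_add, ← Real.exp_add, Real.exp_le_exp, neg_div]
  rw [pow_add] at h3
  nlinarith

omit [Dim] in
theorem hil_T (d j : ℕ) : ∃ k : ℕ, ∀ (Y μ : ℕ) (N : ℝ), 2 ≤ Y → 1 ≤ μ → 0 < N →
    N ≤ Real.exp ((Y : ℝ) ^ j) → 8 * (d : ℝ) * (2 * Real.log N +
      μ * Real.log (Real.exp ((Y : ℝ) ^ j))) < ((Y ^ k * μ : ℕ) : ℝ) := by
  obtain ⟨k, hk⟩ := exists_pow (24 * d + 1)
  refine ⟨k + j, fun Y μ N hY hμ hN h => ?_⟩
  have h1 := hk Y (by exact_mod_cast hY)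
  have h2 : (0 : ℝ) < (Y : ℝ) ^ j := by positivity
  have h3 : (1 : ℝ) ≤ μ := by exact_mod_cast hμ
  have h4 := (Real.log_le_iff_le_exp hN).2 h
  have h5 : (0 : ℝ) ≤ d := Nat.cast_nonneg _
  have h6 : 2 * Real.log N + μ * (Y : ℝ) ^ j ≤ 3 * (μ * (Y : ℝ) ^ j) := by nlinarith
  have h7 : (0 : ℝ) < μ * (Y : ℝ) ^ j := by positivity
  have h8 := mul_le_mul_of_nonneg_right h1 h7.le
  have h9 := mul_le_mul_of_nonneg_left h6 h5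
  rw [Real.log_exp]
  push_cast
  rw [pow_add]
  nlinarith

theorem hil_pts (hp : PTSst τ r) : ∃ (C : ℕ) (y : MZ → ℕ → Bits → ℂ), ∀ (g : MZ) (M : ℕ),
    Iso g M → (∃ c : ℂ, c ≠ 0 ∧ y g M = c • th2 (act (zr g) τ)) ∧
      (∀ ε, IsIntegral ℤ (y g M ε)) ∧ (∀ (φ : ℂ →+* ℂ) ε, ‖φ (y g M ε)‖ ≤ (2 * M : ℝ) ^ C) ∧
      ∀ (σ : ℂ ≃ₐ[K] ℂ) (g' : MZ), Iso g' M → Tw r σ g g' → ∀ ε, σ (y g M ε) = y g' M ε := by
  obtain ⟨C, y, H⟩ := hp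
  refine ⟨C, fun g M ε => y g M ε 0, fun g M hg => ?_⟩
  obtain ⟨⟨c, h1, h2⟩, h3, h4, h5⟩ := H g M hg
  refine ⟨⟨c, h1, funext fun ε => ?_⟩, fun ε => h3 ε 0, fun φ ε => h4 φ ε 0,
    fun σ g' hg' ⟨W, hW⟩ ε => ?_⟩
  · have e1 : (fun i => (((0 : ν → ℚ) i : ℚ) : ℝ)) = 0 := by
      funext i
      simp
    refine (h2 ε 0).trans ?_
    rw [xx, e1, M4.XX_zero]
    rfl
  · have e1 : (fun i => (((0 : ν → ℤ) i : ℤ) : ℚ) / (1 : ℕ)) = 0 := by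
      funext i
      simp
    have h6 := h5 σ g' W hg' hW 1 0 0 one_ne_zero (fun l _ i => by simp) ε
    rwa [e1] at h6

theorem hil_le (h : AV τ K r) (hP : PEL e a b m n) (hτ : τ ∈ FX a b) (z : MorD e a b ℂ)
    (hp : PTSst τ r) : ∃ C : ℕ, ∀ (F : Frs e a b L l₁) (LM : Finset (GP L l₁)) (Y x : ℕ)
      (A : SA z F LM (Y ^ x)) (S : Type) [Fintype S] [Nonempty S] (g : S → MZ) (M : ℕ)
      (ac : (ℂ ≃ₐ[K] ℂ) →* Equiv.Perm S), 2 ≤ Y → 1 ≤ x → M ≤ (2 * Y) ^ Y →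
      Fintype.card S ≤ (2 * Y) ^ (2 * e * Y) → (∀ ξ, Iso (g ξ) M) →
      (∀ σ ξ, Tw r σ (g ξ) (g (ac σ ξ))) → (∀ ξ, Lam A (g ξ) M) → ∀ μ : ℕ, 1 ≤ μ →
      hil (fun ξ => th2 (act (zr (g ξ)) τ)) μ ≤ Y ^ (C * x) * μ ^ (9 * e) := by
  have := h.fin
  obtain ⟨c₀, y, hy⟩ := hil_pts hp
  obtain ⟨c, C, hc, hC, hs⟩ := short ι
  obtain ⟨C', hC', g1⟩ := cells (L := L) (l₁ := l₁) hP hτ z
  obtain ⟨j₀, g2⟩ := hil_num C' c₀ e
  obtain ⟨j, g3⟩ := hil_deep hc hC (8 * Module.finrank ℚ K * Fintype.card Bits) j₀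
  obtain ⟨k, g4⟩ := g1 j
  obtain ⟨j₁, g5⟩ := hil_T (Module.finrank ℚ K) j₀
  refine ⟨2 + k + j₁ * (9 * e), fun F LM Y x A S _ _ g M ac hY hx hM hS hg htw hL μ hμ => ?_⟩
  obtain ⟨b1, b2, b3⟩ := g2 Y M _ hY hM hS
  generalize hB : Real.exp ((Y : ℝ) ^ j₀) = B at b1 b2 b3
  have hY' : (2 : ℝ) ≤ Y := by exact_mod_cast hY
  have hYx : Y ≤ Y ^ x := Nat.le_self_pow (by omega) Y
  choose cc h1 h2 using fun ξ => (hy _ _ (hg ξ)).1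
  have h3 : ∀ (φ : ℂ →+* ℂ) ξ ε, ‖φ (y (g ξ) M ε)‖ ≤ (2 * M : ℝ) ^ c₀ :=
    fun φ ξ => (hy _ _ (hg ξ)).2.2.1 φ
  have h4 : (2 * M : ℝ) ^ c₀ ≤ B := (le_mul_of_one_le_left (by positivity) hC').trans b1
  have h5 : ∀ ξ, ‖y (g ξ) M‖ ≤ (2 * M : ℝ) ^ c₀ := fun ξ =>
    (pi_norm_le_iff_of_nonneg (by positivity)).2 (h3 (RingHom.id ℂ) ξ)
  have h6 : ∀ σ ξ ε, σ (y (g ξ) M ε) = y (g (ac σ ξ)) M ε := fun σ ξ =>
    (hy _ _ (hg ξ)).2.2.2 σ _ (hg _) (htw σ ξ)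
  have h7 : ∀ ξ ε, IsIntegral ℤ (y (g ξ) M ε) := fun ξ => (hy _ _ (hg ξ)).2.1
  obtain ⟨ξ₀⟩ := ‹Nonempty S›
  have hM0 := iso_pos (hg ξ₀)
  obtain ⟨Bx, cl, G, a1, a2, a3⟩ := g4 F LM _ A S g M {t | ∃ ε, y (g t) M ε ≠ 0 ∧ ‖y (g t) M ε‖ ≤
      (B ^ (8 * Module.finrank ℚ K * Fintype.card Bits))⁻¹} (hY.trans hYx) hM0
    (fun ξ => (hg ξ).2.2) hL fun ξ hξ u hu => by
      by_contra hlt
      have hH := inH_act (hg ξ).2.2 (Nat.cast_pos.2 hM0) hτ.1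
      have hq : 0 < qf (act (zr (g ξ)) τ) (rz u) := qf_pos hH fun h0 => hu (funext fun i => by
        simpa [rz] using congrFun h0 i)
      obtain ⟨ε, c1, c2⟩ := hs _ hH u hu
      have c3 := g3 Y _ hY' hq (lt_of_le_of_lt (mul_le_mul_of_nonneg_right
        (pow_le_pow_left₀ (by positivity) (Nat.cast_le.2 hYx) j) hq.le) (not_le.1 hlt))
      rw [hB] at c3
      refine hξ ⟨ε, by rw [h2]; exact mul_ne_zero (h1 ξ) c1, le_trans ?_ c3⟩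
      have c4 := (h5 ξ).trans h4
      rw [h2, norm_smul] at c4
      rw [h2, Pi.smul_apply, norm_smul]
      refine (mul_le_mul_of_nonneg_left c2 (norm_nonneg _)).trans ?_
      rw [mul_left_comm]
      exact mul_le_mul_of_nonneg_left c4 (by positivity)
  have d1 := bp K ac (fun ξ => y (g ξ) M) h6 h7 b3 (fun φ ξ ε => (h3 φ ξ ε).trans h4) _
    (deep K ac (fun ξ => y (g ξ) M) h6 h7 b3 (fun φ ξ ε => (h3 φ ξ ε).trans h4)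
      (inv_mul_cancel₀ (by positivity)).le) cl G a2 (fun ξ hξ => by
      obtain ⟨w, c1, c', c2, c3⟩ := a3 ξ hξ
      refine ⟨w, c1, cc ξ * c', by rw [h2, c2, mul_smul], fun w' hw' ε => ?_⟩
      have c4 := mul_le_mul_of_nonneg_left ((norm_le_pi_norm _ ε).trans (c3 w' hw'))
        (norm_nonneg (cc ξ))
      rw [mul_left_comm, ← norm_smul (cc ξ) (th2 _), ← h2, ← norm_mul] at c4
      rw [mul_assoc]
      exact c4.trans ((mul_le_mul_of_nonneg_left (h5 ξ) (by linarith)).trans b1)) μ (Y ^ j₁ * μ)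
    (hB ▸ g5 Y μ _ hY hμ (Nat.cast_pos.2 Fintype.card_pos) (hB ▸ b2))
  rw [show (fun ξ => y (g ξ) M) = fun ξ => cc ξ • th2 (act (zr (g ξ)) τ) from funext h2,
    M4.G.hil_smul cc h1] at d1
  have d2 : Fintype.card (Fin e × Fin A.d × Fin 3) ≤ 9 * e := by
    have h4 := Nat.mul_le_mul_left e A.d3
    simp only [Fintype.card_prod, Fintype.card_fin]
    nlinarith
  have d3 : 4 ≤ (Y ^ x) ^ 2 := Nat.pow_le_pow_left (hY.trans hYx) 2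
  have d4 := Nat.pow_le_pow_left (Nat.mul_le_mul_right μ (Nat.pow_le_pow_left hYx j₁)) (9 * e)
  refine d1.trans ((Nat.mul_le_mul (Nat.mul_le_mul d3 a1)
    ((Nat.pow_le_pow_right (by positivity) d2).trans d4)).trans_eq ?_)
  ring

end MG.Bx
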