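import Mathlib

/-!
Short vectors in lattices without very short vectors.
-/

set_option autoImplicit false

noncomputable section

namespace MG.Bx

theorem lat_lin {I : Type} [Fintype I] (Λ : AddSubgroup (I → ℤ)) {ρ A : ℝ} (hA : 1 ≤ A)
    (hρ : 1 ≤ ρ) (h0 : Λ.index ≠ 0) (hI : (Λ.index : ℝ) ≤ ρ ^ Fintype.card I)
    (hs : ∀ c ∈ Λ, c ≠ 0 → ∃ i, ρ ≤ A * |(c i : ℝ)|) (φ : I → ℂ) (hφ : φ ≠ 0) :
    ∃ c ∈ Λ, (∀ i, |(c i : ℝ)| ≤ (4 * A * Fintype.card I) ^ Fintype.card I * ρ) ∧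
      ∑ i, c i • φ i ≠ 0 := by
  classical
  by_contra hn
  have hne : Nonempty I := ⟨(Function.ne_iff.1 hφ).choose⟩
  obtain ⟨i0, -, hi0⟩ := Finset.exists_max_image Finset.univ (fun i => ‖φ i‖) Finset.univ_nonempty
  have hM : 0 < ‖φ i0‖ := by
    obtain ⟨j, hj⟩ := Function.ne_iff.1 hφ
    exact (norm_pos_iff.2 hj).trans_le (hi0 j (Finset.mem_univ j))
  obtain ⟨m, hm, hm'⟩ : ∃ m, Fintype.card I = m + 1 ∧ Fintype.card {j // j ≠ i0} = m := by
    refine ⟨_, ?_, rfl⟩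
    rw [Fintype.card_subtype_compl, Fintype.card_subtype_eq]
    exact (Nat.sub_add_cancel Fintype.card_pos).symm
  have hn1 : (1 : ℝ) ≤ Fintype.card I := by exact_mod_cast Fintype.card_pos
  have hAn : 1 ≤ A * Fintype.card I := one_le_mul_of_one_le_of_one_le hA hn1
  obtain ⟨t, ht⟩ : ∃ t : ℝ, t = (4 * A * Fintype.card I) ^ Fintype.card I := ⟨_, rfl⟩
  rw [← ht] at hn
  have ht1 : 1 ≤ t := ht ▸ one_le_pow₀ (by nlinarith)
  have htρ : 0 ≤ t * ρ := by positivity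
  obtain ⟨R, hR, hR'⟩ : ∃ R : ℕ, (R : ℝ) ≤ t * ρ ∧ t * ρ < R + 1 :=
    ⟨_, Nat.floor_le htρ, Nat.lt_floor_add_one _⟩
  have hq : 0 < ρ / (A * Fintype.card I) := by positivity
  obtain ⟨κ, hκ, hκ'⟩ : ∃ κ : ℕ, ρ / (A * Fintype.card I) ≤ κ ∧
      (κ : ℝ) < ρ / (A * Fintype.card I) + 1 := ⟨_, Nat.le_ceil _, Nat.ceil_lt_add_one hq.le⟩
  have hκ0 : 0 < κ := by exact_mod_cast hq.trans_le hκ
  have hκ1 : (0 : ℝ) ≤ κ - 1 := sub_nonneg.2 (by exact_mod_cast hκ0)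
  have hκ2 : A * (Fintype.card I * (κ - 1)) < ρ := by
    rw [← mul_assoc, mul_comm, ← lt_div_iff₀ (by positivity)]
    linarith
  have : Finite ((I → ℤ) ⧸ Λ) := Nat.finite_of_card_ne_zero h0
  let g : (I → Fin (R + 1)) → ((I → ℤ) ⧸ Λ) × ({j // j ≠ i0} → Fin (R / κ + 1)) := fun p =>
    (QuotientAddGroup.mk fun i => ((p i : ℕ) : ℤ), fun j =>
      ⟨p j.1 / κ, Nat.lt_succ_of_le (Nat.div_le_div_right (Nat.le_of_lt_succ (p j.1).2))⟩)
  have hg : Function.Injective g := fun p q h => by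
    have h1 := QuotientAddGroup.eq.1 (congrArg Prod.fst h)
    obtain ⟨c, hc⟩ : ∃ c : I → ℤ, c = (-fun i => ((p i : ℕ) : ℤ)) + fun i => ((q i : ℕ) : ℤ) :=
      ⟨_, rfl⟩
    have hc' : ∀ i, c i = -((p i : ℕ) : ℤ) + (q i : ℕ) := fun i => congrFun hc i
    rw [← hc] at h1
    have h2 : ∀ i, |(c i : ℝ)| ≤ t * ρ := fun i => by
      refine le_trans ?_ hR
      have := (p i).2
      have := (q i).2
      have h3 : |c i| ≤ R := by rw [hc', abs_le]; omega
      exact_mod_cast h3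
    have h3 : ∑ i, c i • φ i = 0 := by_contra fun h3 => hn ⟨c, h1, h2, h3⟩
    have h4 : ∀ j, j ≠ i0 → |(c j : ℝ)| ≤ κ - 1 := fun j hj => by
      have h5 : (p j : ℕ) / κ = q j / κ := congrArg Fin.val (congrFun (congrArg Prod.snd h) ⟨j, hj⟩)
      have h6 := Nat.div_add_mod (p j) κ
      have h7 := Nat.div_add_mod (q j) κ
      have h8 := Nat.mod_lt (p j) hκ0
      have h9 := Nat.mod_lt (q j) hκ0
      rw [h5] at h6
      have h10 : |c j| ≤ κ - 1 := by rw [hc', abs_le]; omega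
      exact_mod_cast h10
    have h5 : |(c i0 : ℝ)| ≤ Fintype.card I * (κ - 1) := by
      rw [← Finset.add_sum_erase _ _ (Finset.mem_univ i0), add_eq_zero_iff_eq_neg] at h3
      refine le_of_mul_le_mul_right ?_ hM
      have h6 : |(c i0 : ℝ)| * ‖φ i0‖ = ‖c i0 • φ i0‖ := by
        rw [zsmul_eq_mul, norm_mul, Complex.norm_intCast]
      rw [h6, h3, norm_neg, mul_assoc]
      refine (norm_sum_le _ _).trans ((Finset.sum_le_card_nsmul _ _ ((κ - 1) * ‖φ i0‖)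
        fun j hj => ?_).trans ?_)
      · rw [zsmul_eq_mul, norm_mul, Complex.norm_intCast]
        exact mul_le_mul (h4 j (Finset.ne_of_mem_erase hj)) (hi0 j (Finset.mem_univ j))
          (norm_nonneg _) hκ1
      · rw [nsmul_eq_mul]
        exact mul_le_mul_of_nonneg_right (by exact_mod_cast Finset.card_le_univ _) (by positivity)
    have h6 : c = 0 := by_contra fun h6 => by
      obtain ⟨i, hi⟩ := hs c h1 h6
      refine (hi.trans (mul_le_mul_of_nonneg_left ?_ (by positivity))).not_gt hκ2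
      by_cases h7 : i = i0
      · exact h7 ▸ h5
      · exact (h4 i h7).trans (le_mul_of_one_le_left hκ1 hn1)
    funext i
    have h7 := hc' i
    rw [h6, Pi.zero_apply] at h7
    exact Fin.ext (by omega)
  have h1 : (R + 1) ^ (m + 1) ≤ Λ.index * (R / κ + 1) ^ m := by
    have := Nat.card_le_card_of_injective g hg
    rwa [Nat.card_prod, Nat.card_fun, Nat.card_fun, Nat.card_fin, Nat.card_fin,
      Nat.card_eq_fintype_card (α := I), Nat.card_eq_fintype_card (α := {j // j ≠ i0}), hm,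
      hm'] at this
  have h2 : ((R / κ + 1 : ℕ) : ℝ) ≤ t * (4 * A * Fintype.card I) := by
    have h3 : ((R / κ : ℕ) : ℝ) ≤ t * (A * Fintype.card I) := by
      refine Nat.cast_div_le.trans ?_
      rw [div_le_iff₀ (hq.trans_le hκ)]
      rw [div_le_iff₀ (by positivity)] at hκ
      nlinarith
    push_cast
    nlinarith
  have h3 : (t * ρ) ^ (m + 1) < ρ ^ (m + 1) * (t * (4 * A * Fintype.card I)) ^ m := by
    refine (pow_lt_pow_left₀ hR' htρ m.succ_ne_zero).trans_le ?_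
    have h4 : ((R : ℝ) + 1) ^ (m + 1) ≤ Λ.index * ((R / κ + 1 : ℕ) : ℝ) ^ m := by exact_mod_cast h1
    exact h4.trans (mul_le_mul (hm ▸ hI) (pow_le_pow_left₀ (by positivity) h2 m) (by positivity)
      (by positivity))
  have h4 : (4 * A * Fintype.card I) ^ m ≤ t :=
    ht ▸ pow_le_pow_right₀ (by nlinarith) (by omega)
  rw [mul_pow, mul_pow, mul_comm, pow_succ t] at h3
  exact h3.not_ge (mul_le_mul_of_nonneg_left (mul_le_mul_of_nonneg_left h4 (by positivity))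
    (by positivity))

/-- the polar form of the determinant -/
def latB : Matrix (Fin 2) (Fin 2) ℂ →ₗ[ℂ] Matrix (Fin 2) (Fin 2) ℂ →ₗ[ℂ] ℂ :=
  LinearMap.mk₂ ℂ (fun x y => x 0 0 * y 1 1 + x 1 1 * y 0 0 - x 0 1 * y 1 0 - x 1 0 * y 0 1)
    (fun _ _ _ => by simp only [Matrix.add_apply]; ring)
    (fun _ _ _ => by simp only [Matrix.smul_apply, smul_eq_mul]; ring)
    (fun _ _ _ => by simp only [Matrix.add_apply]; ring)
    (fun _ _ _ => by simp only [Matrix.smul_apply, smul_eq_mul]; ring)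

theorem lat_add (x y : Matrix (Fin 2) (Fin 2) ℂ) : (x + y).det = x.det + y.det + latB x y := by
  simp only [Matrix.det_fin_two, Matrix.add_apply, latB, LinearMap.mk₂_apply]
  ring

theorem lat_self (x : Matrix (Fin 2) (Fin 2) ℂ) : latB x x = 2 * x.det := by
  simp only [Matrix.det_fin_two, latB, LinearMap.mk₂_apply]
  ring

theorem lat_det {I : Type} [Fintype I] (Λ : AddSubgroup (I → ℤ)) {ρ A : ℝ} (hA : 1 ≤ A)
    (hρ : 1 ≤ ρ) (h0 : Λ.index ≠ 0) (hI : (Λ.index : ℝ) ≤ ρ ^ Fintype.card I)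
    (hs : ∀ c ∈ Λ, c ≠ 0 → ∃ i, ρ ≤ A * |(c i : ℝ)|) (V : I → Matrix (Fin 2) (Fin 2) ℂ)
    (hV : ∃ c : I → ℂ, (∑ i, c i • V i).det ≠ 0) :
    ∃ c ∈ Λ, (∀ i, |(c i : ℝ)| ≤ 2 * (4 * A * Fintype.card I) ^ Fintype.card I * ρ) ∧
      (∑ i, c i • V i).det ≠ 0 := by
  by_contra hn
  obtain ⟨t, ht⟩ : ∃ t : ℝ, t = (4 * A * Fintype.card I) ^ Fintype.card I := ⟨_, rfl⟩
  have ht0 : 0 ≤ t * ρ := by rw [ht]; positivity
  have h1 : ∀ c ∈ Λ, (∀ i, |(c i : ℝ)| ≤ 2 * t * ρ) → (∑ i, c i • V i).det = 0 :=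
    fun c hc h => by_contra fun h' => hn ⟨c, hc, ht ▸ h, h'⟩
  have h2 : ∀ c ∈ Λ, (∀ i, |(c i : ℝ)| ≤ t * ρ) → (∑ i, c i • V i).det = 0 :=
    fun c hc h => h1 c hc fun i => (h i).trans (by linarith)
  have h3 : ∀ φ : I → ℂ, (∀ c ∈ Λ, (∀ i, |(c i : ℝ)| ≤ t * ρ) → ∑ i, c i • φ i = 0) → φ = 0 :=
    fun φ h => by_contra fun h' => by
      obtain ⟨c, hc, h4, h5⟩ := lat_lin Λ hA hρ h0 hI hs φ h'
      exact h5 (h c hc (ht ▸ h4))
  have h4 : ∀ c ∈ Λ, (∀ i, |(c i : ℝ)| ≤ t * ρ) → ∀ j, latB (∑ i, c i • V i) (V j) = 0 :=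
    fun c hc h => congrFun <| h3 _ fun c' hc' h' => by
      have h5 := h1 (c + c') (add_mem hc hc') fun i => by
        rw [Pi.add_apply, Int.cast_add]
        exact (abs_add_le _ _).trans (by linarith [h i, h' i])
      simp only [Pi.add_apply, add_smul, Finset.sum_add_distrib] at h5
      rw [lat_add, h2 c hc h, h2 c' hc' h', zero_add, zero_add, map_sum] at h5
      simpa only [map_zsmul] using h5
  have h5 : ∀ j i, latB (V i) (V j) = 0 := fun j => congrFun <| h3 _ fun c hc h => by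
    have h6 := h4 c hc h j
    rw [map_sum, LinearMap.sum_apply] at h6
    simpa only [map_zsmul, LinearMap.smul_apply] using h6
  obtain ⟨c, hc⟩ := hV
  refine hc ((mul_eq_zero.1 ((lat_self _).symm.trans ?_)).resolve_left two_ne_zero)
  simp only [map_sum, map_smul, LinearMap.sum_apply, LinearMap.smul_apply, h5, smul_zero,
    Finset.sum_const_zero]

theorem boxes {S κ : Type} [Nonempty S] [Fintype κ] (D : Set S) (f : S → κ → ℤ) (A : ℕ)
    (h : ∀ s ∉ D, ∀ k, (f s k).natAbs ≤ A) :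
    ∃ (cl : S → Fin ((2 * A + 1) ^ Fintype.card κ)) (ref : Fin ((2 * A + 1) ^ Fintype.card κ) → S),
      ∀ s ∉ D, ref (cl s) ∉ D ∧ f (ref (cl s)) = f s := by
  classical
  let e : (κ → Fin (2 * A + 1)) ≃ Fin ((2 * A + 1) ^ Fintype.card κ) :=
    Fintype.equivFinOfCardEq (by rw [Fintype.card_fun, Fintype.card_fin])
  let cl : S → Fin ((2 * A + 1) ^ Fintype.card κ) := fun s =>
    e fun k => ⟨min (f s k + A).toNat (2 * A), Nat.lt_succ_of_le (min_le_right _ _)⟩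
  refine ⟨cl, fun x => if hx : ∃ s ∉ D, cl s = x then hx.choose else Classical.arbitrary S,
    fun s hs => ?_⟩
  have hx : ∃ s' ∉ D, cl s' = cl s := ⟨s, hs, rfl⟩
  simp only [dif_pos hx]
  refine ⟨hx.choose_spec.1, funext fun k => ?_⟩
  have h1 : min (f hx.choose k + A).toNat (2 * A) = min (f s k + A).toNat (2 * A) :=
    congrArg Fin.val (congrFun (e.injective hx.choose_spec.2) k)
  have h2 := h _ hx.choose_spec.1 k
  have h3 := h s hs k
  omega

end MG.Bx
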