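import Pool.Agent.Lib.MP_33b3f9_ag.MG.Bx.Hil
import Pool.Agent.Lib.MP_33b3f9_ag.MG.Bx.Fam

/-!
The family with a small Hilbert function.
-/

set_option autoImplicit false

noncomputable section

namespace MG

open Matrix M4 Pool.Agent.M4.Mx Pool.Agent.M4.Det

variable [Dim] {e : ℕ} {a b : MZ} {m n : ℕ} {τ : Mat}

variable {K : IntermediateField ℚ ℂ} {r : Rep K} {L : Type} [Field L] {l₁ : ℕ}

namespace Bx

omit [Dim] in
theorem hil_comp {S S' I : Type} [Fintype I] [Finite S] (f : S' → S) (y : S → I → ℂ) (k : ℕ) :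
    hil (fun s => y (f s)) k ≤ hil y k := by
  have e : (fun m : {m : I →₀ ℕ // ∑ i, m i = k} => mono (fun s => y (f s)) m.1) =
      LinearMap.funLeft ℂ ℂ f ∘ fun m : {m : I →₀ ℕ // ∑ i, m i = k} => mono y m.1 := rfl
  rw [hil, hil, e, Set.range_comp, Submodule.span_image]
  exact Submodule.finrank_map_le _ _

theorem lam {z : MorD e a b ℂ} {F : Frs e a b L l₁} {LM : Finset (GP L l₁)} {H : ℕ}
    (A : SA z F LM H) : ∃ sl : GP L l₁ → Fin e → Fin 3, ∀ g : MZ,
      (∀ l ∈ LM, ∃ w : Fin e → Fin 2 → ZMod l.1, Ker g l.1 = kz (Nw (F.red l) (sl l) w)) →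
      Lam A g (∏ l ∈ LM, l.1) := by
  classical
  have t₀ : Fin A.d := ⟨0, A.d1⟩
  choose i ρ hρ using fun l : LM => (A.red l.1 l.2).2
  refine ⟨fun l s => if h : l ∈ LM then i ⟨l, h⟩ s t₀ else 0, fun g hg => ?_⟩
  choose w hw using fun l : LM => hg l.1 l.2
  simp only [SetLike.coe_mem, dite_true] at hw
  let Φ : (IA e A.d → ℤ) →+ ∀ l : LM, Fin e × Fin 2 → ZMod l.1.1 :=
    { toFun := fun c l q => wd (w l q.1) fun p => ρ l c q.1 t₀ p q.2
      map_zero' := by
        funext l q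
        simp [wd]
      map_add' := fun c c' => by
        funext l q
        simp only [wd, map_add, Pi.add_apply, Matrix.add_apply]
        ring }
  have hc : Nat.card (∀ l : LM, Fin e × Fin 2 → ZMod l.1.1) = (∏ l ∈ LM, l.1) ^ (2 * e) := by
    rw [Nat.card_pi, ← Finset.prod_pow, ← Finset.prod_coe_sort LM]
    refine Finset.prod_congr rfl fun l _ => ?_
    rw [Nat.card_fun, Nat.card_zmod, Nat.card_prod, Nat.card_fin, Nat.card_fin, mul_comm]
  refine ⟨Φ.ker, ?_, ?_, fun c hc => ?_⟩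
  · rw [AddSubgroup.index_ker]
    exact Nat.card_pos.ne'
  · rw [AddSubgroup.index_ker, ← hc]
    exact Nat.card_le_card_of_injective _ Subtype.val_injective
  have h1 : ∀ l : LM, Nw (F.red l.1) (fun s => i l s t₀) (w l) * zM (ZMod l.1.1) (A.Nm c) = 0 :=
    fun l => by
      rw [hρ, Matrix.mul_smul, Nw_T, smul_zero]
      intro s j
      rw [(i l s).injective.extend_apply]
      exact congrFun (congrFun (AddMonoidHom.mem_ker.1 hc) l) (s, j)
  have h2 : ∀ p q, ((∏ l ∈ LM, l.1 : ℕ) : ℤ) ∣ (g * A.Nm c) p q := fun p q => by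
    rw [Nat.cast_prod]
    refine Finset.prod_dvd_of_coprime (fun l _ l' _ hne => Nat.isCoprime_iff_coprime.2
      ((Nat.coprime_primes l.2.1 l'.2.1).2 fun h => hne (Subtype.ext h))) fun l hl => ?_
    have h3 : (fun k => A.Nm c k q) ∈ Ker g l.1 := by
      rw [hw ⟨l, hl⟩, mem_kz]
      funext k
      exact congrFun (congrFun (h1 ⟨l, hl⟩) k) q
    exact h3 p
  choose R hR using h2
  exact ⟨Matrix.of R, (Matrix.ext hR).symm⟩

end Bx

/-- A rational slot algebra gives a family with a small Hilbert function. -/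
theorem bx (h : AV τ K r) (hP : PEL e a b m n) (hτ : τ ∈ FX a b) (z : MorD e a b ℂ)
    {F : Frs e a b L l₁} (hS : Sys F r) (hl : LAGRst) (hp : PTSst τ r) : BXst τ z F := by
  obtain ⟨C, hC⟩ := Bx.hil_le (L := L) (l₁ := l₁) h hP hτ z hp
  refine ⟨C, fun Y x LM hY hx hLM A => ?_⟩
  have he : 0 < e := hP.pos
  obtain ⟨sl, hsl⟩ := Bx.lam A
  obtain ⟨Om, inst, g, ac, h1, h2, h3, h4⟩ := Bx.family he hS hl Y LM hLM sl
  have hc : LM.card ≤ Y := by
    have h5 := Finset.card_le_card_of_injOn (s := LM) (t := Finset.Ioc Y (2 * Y)) (fun l => l.1)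
      (fun l hl => Finset.mem_coe.2 (Finset.mem_Ioc.2 (hLM l hl))) Subtype.val_injective.injOn
    rw [Nat.card_Ioc] at h5
    omega
  have : ∀ i, Nonempty (Om i) := fun i => Fintype.card_pos_iff.1 (by have := (h2 i).1; omega)
  refine ⟨Om, inst, g, _, h1, fun i => (h2 i).1, fun μ hμ => ?_⟩
  refine (Bx.hil_comp Subtype.val (fun ξ => th2 (act (zr (g ξ)) τ)) μ).trans ?_
  refine hC F LM Y x A _ g (∏ l ∈ LM, l.1) ac hY hx ?_ ?_
    (fun ξ => (h1.iso ξ (Finset.mem_univ _)).1) h3 (fun ξ => hsl _ (h4 ξ)) μ hμ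
  · exact (Finset.prod_le_pow_card _ _ _ fun l hl => (hLM l hl).2).trans
      (Nat.pow_le_pow_right (by omega) hc)
  · rw [Fintype.card_pi]
    refine (Finset.prod_le_pow_card _ _ _ fun i _ => (h2 i).2).trans ?_
    rw [← pow_mul, Finset.card_univ, Fintype.card_fin]
    exact Nat.pow_le_pow_right (by omega) (Nat.mul_le_mul_left _ hc)

end MG
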